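import Mathlib

set_option autoImplicit false

open Finset

namespace Pool.Agent.NH69.BR

/-- `∏ (1 + e g j) ± ∏ (1 - e g j)` up to fourth and third order. -/
theorem prod_bounds (g : ℕ → ℝ) (hg : ∀ j, |g j| ≤ 1) (e : ℝ) (h0 : 0 ≤ e) (h1 : e ≤ 1) (k : ℕ) :
    |(∏ j ∈ range k, (1 + e * g j)) + (∏ j ∈ range k, (1 - e * g j)) - 2 -
      2 * e ^ 2 * ∑ j ∈ range k, g j * ∑ i ∈ range j, g i| ≤ 4 ^ k * e ^ 4 ∧
    |(∏ j ∈ range k, (1 + e * g j)) - (∏ j ∈ range k, (1 - e * g j)) -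
      2 * e * ∑ j ∈ range k, g j| ≤ 4 ^ k * e ^ 3 := by
  have hs : ∀ k : ℕ, |∑ j ∈ range k, g j| ≤ k := by
    intro k
    refine (Finset.abs_sum_le_sum_abs _ _).trans ?_
    refine (Finset.sum_le_sum fun j _ => hg j).trans ?_
    simp
  have hs2 : ∀ k : ℕ, |∑ j ∈ range k, g j * ∑ i ∈ range j, g i| ≤ (k : ℝ) ^ 2 := by
    intro k
    refine (Finset.abs_sum_le_sum_abs _ _).trans ?_
    have : ∀ j ∈ range k, |g j * ∑ i ∈ range j, g i| ≤ (k : ℝ) := by
      intro j hj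
      rw [abs_mul]
      have h1 := hg j
      have h2 := hs j
      have h3 : (j : ℝ) ≤ k := by exact_mod_cast (mem_range.1 hj).le
      nlinarith [abs_nonneg (g j), abs_nonneg (∑ i ∈ range j, g i)]
    refine (Finset.sum_le_sum this).trans ?_
    simp [sq]
  have hk4 : ∀ k : ℕ, (k : ℝ) ^ 2 ≤ 4 ^ k := by
    intro k
    have h : k < 2 ^ k := Nat.lt_two_pow_self
    have h' : (k : ℝ) ≤ 2 ^ k := by exact_mod_cast h.le
    calc (k : ℝ) ^ 2 ≤ (2 ^ k) ^ 2 := by gcongr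
      _ = 4 ^ k := by rw [← pow_mul, mul_comm, pow_mul]; norm_num
  induction k with
  | zero =>
    simp only [range_zero, prod_empty, sum_empty, mul_zero, sub_zero]
    constructor
    · norm_num
      positivity
    · norm_num
      positivity
  | succ k ih =>
    obtain ⟨ih1, ih2⟩ := ih
    set P := ∏ j ∈ range k, (1 + e * g j) with hP
    set R := ∏ j ∈ range k, (1 - e * g j) with hR
    set E1 := ∑ j ∈ range k, g j with hE1
    set E2 := ∑ j ∈ range k, g j * ∑ i ∈ range j, g i with hE2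
    have hgk := hg k
    have e2 := hs2 k
    rw [← hE2] at e2
    have h4 := hk4 k
    have hX : (0 : ℝ) ≤ 4 ^ k := by positivity
    rw [prod_range_succ, prod_range_succ, sum_range_succ, sum_range_succ, ← hP, ← hR, ← hE1, ← hE2]
    constructor
    · have : P * (1 + e * g k) + R * (1 - e * g k) - 2 - 2 * e ^ 2 * (E2 + g k * E1)
        = (P + R - 2 - 2 * e ^ 2 * E2) + e * g k * (P - R - 2 * e * E1) := by ring
      rw [this]
      refine (abs_add_le _ _).trans ?_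
      rw [abs_mul, abs_mul, abs_of_nonneg h0]
      have : e * |g k| * |P - R - 2 * e * E1| ≤ 4 ^ k * e ^ 4 := by
        calc e * |g k| * |P - R - 2 * e * E1| ≤ e * 1 * (4 ^ k * e ^ 3) := by gcongr
          _ = 4 ^ k * e ^ 4 := by ring
      have h5 : (4 : ℝ) ^ (k + 1) = 4 ^ k * 4 := pow_succ _ _
      have h6 : 0 ≤ 4 ^ k * e ^ 4 := by positivity
      have h7 : (4 : ℝ) ^ (k + 1) * e ^ 4 = 4 * (4 ^ k * e ^ 4) := by rw [h5]; ring
      rw [h7]
      linarith
    · have : P * (1 + e * g k) - R * (1 - e * g k) - 2 * e * (E1 + g k)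
        = (P - R - 2 * e * E1) + e * g k * (P + R - 2 - 2 * e ^ 2 * E2) + e * g k * (2 * e ^ 2 * E2) := by
        ring
      rw [this]
      refine (abs_add_le _ _).trans ?_
      refine (add_le_add_left (abs_add_le _ _) _).trans ?_
      rw [abs_mul, abs_mul, abs_mul (e * g k), abs_mul, abs_of_nonneg h0, abs_mul (2 * e ^ 2),
        abs_of_nonneg (by positivity : (0 : ℝ) ≤ 2 * e ^ 2)]
      have t1 : e * |g k| * |P + R - 2 - 2 * e ^ 2 * E2| ≤ 4 ^ k * e ^ 3 := by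
        calc e * |g k| * |P + R - 2 - 2 * e ^ 2 * E2| ≤ 1 * 1 * (4 ^ k * e ^ 4) := by gcongr
          _ ≤ 4 ^ k * e ^ 3 := by
            have : e ^ 4 ≤ e ^ 3 := pow_le_pow_of_le_one h0 h1 (by norm_num)
            nlinarith
      have t2 : e * |g k| * (2 * e ^ 2 * |E2|) ≤ 2 * 4 ^ k * e ^ 3 := by
        calc e * |g k| * (2 * e ^ 2 * |E2|) ≤ e * 1 * (2 * e ^ 2 * 4 ^ k) := by
              gcongr
              exact e2.trans h4
          _ = 2 * 4 ^ k * e ^ 3 := by ring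
      have h5 : (4 : ℝ) ^ (k + 1) = 4 ^ k * 4 := pow_succ _ _
      have h7 : (4 : ℝ) ^ (k + 1) * e ^ 3 = 4 * (4 ^ k * e ^ 3) := by rw [h5]; ring
      rw [h7]
      linarith

end Pool.Agent.NH69.BR
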