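import Mathlib

set_option autoImplicit false

open Finset

namespace Pool.Agent.NH69.BR

/-- The pairs `(a, d)` with `a, d ≥ 1` and `a + (k - 1) d ≤ n`. -/
def P (k n : ℕ) : Finset (ℕ × ℕ) :=
  ((Icc 1 n) ×ˢ (Icc 1 n)).filter fun p => p.1 + (k - 1) * p.2 ≤ n

/-- `G` transported to the multiples of `L`. -/
noncomputable def lift (L : ℕ) (G : ℕ → ℝ) (x : ℕ) : ℝ := if L ∣ x then G (x / L) else 0

theorem lift_mul (L : ℕ) (hL : 0 < L) (G : ℕ → ℝ) (s : ℕ) : lift L G (L * s) = G s := by
  unfold lift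
  rw [if_pos (dvd_mul_right _ _), Nat.mul_div_cancel_left _ hL]

theorem sum_pair (k n L U : ℕ) (G : ℕ → ℝ) (hL : 0 < L) (hG : ∀ s, U ≤ s → G s = 0)
    (hn : k * L * U ≤ n) (i j : ℕ) (hij : i < j) (hjk : j < k) (hdvd : (j - i) ∣ L) :
    ∑ p ∈ P k n, lift L G (p.1 + i * p.2) * lift L G (p.1 + j * p.2) =
      ∑ q ∈ ((range U) ×ˢ (range U)).filter
        (fun q => q.1 < q.2 ∧ i * (q.2 - q.1) < (j - i) * q.1), G q.1 * G q.2 := by
  obtain ⟨m, hm⟩ := hdvd
  have hl : 0 < j - i := by omega
  have hm0 : 0 < m := by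
    rcases Nat.eq_zero_or_pos m with h | h
    · subst h; omega
    · exact h
  have hmL : m ≤ L := by rw [hm]; exact Nat.le_mul_of_pos_left _ hl
  have key : ∀ s t : ℕ, s < t → i * (t - s) < (j - i) * s →
      i * (m * (t - s)) < L * s := by
    intro s t _ h
    calc i * (m * (t - s)) = m * (i * (t - s)) := by ring
      _ < m * ((j - i) * s) := Nat.mul_lt_mul_of_pos_left h hm0
      _ = L * s := by rw [hm]; ring
  have e1 : ∀ s t : ℕ, s < t → i * (t - s) < (j - i) * s →
      (L * s - i * (m * (t - s))) + i * (m * (t - s)) = L * s := by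
    intro s t h1 h2
    have := key s t h1 h2
    omega
  have e2 : ∀ s t : ℕ, s < t → i * (t - s) < (j - i) * s →
      (L * s - i * (m * (t - s))) + j * (m * (t - s)) = L * t := by
    intro s t h1 h2
    have h3 := e1 s t h1 h2
    have h4 : j * (m * (t - s)) = i * (m * (t - s)) + L * (t - s) := by
      rw [hm]
      obtain ⟨l, rfl⟩ : ∃ l, j = i + l := ⟨j - i, by omega⟩
      have : i + l - i = l := by omega
      rw [this]
      ring
    rw [h4, ← add_assoc, h3, ← mul_add]
    congr 1
    omega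
  symm
  refine Finset.sum_bij_ne_zero
    (fun q _ _ => (L * q.1 - i * (m * (q.2 - q.1)), m * (q.2 - q.1))) ?_ ?_ ?_ ?_
  · rintro ⟨s, t⟩ h1 h2
    simp only [mem_filter, mem_product, mem_range] at h1
    obtain ⟨⟨hs, ht⟩, hst, hlt⟩ := h1
    have hk := key s t hst hlt
    have he := e1 s t hst hlt
    have he2 := e2 s t hst hlt
    have h5 : 1 ≤ m * (t - s) := Nat.mul_pos hm0 (by omega)
    have h6 : L * s - i * (m * (t - s)) + (k - 1) * (m * (t - s)) ≤ n := by
      have h7 : (k - 1) * (m * (t - s)) = j * (m * (t - s)) + (k - 1 - j) * (m * (t - s)) := by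
        rw [← add_mul]
        congr 1
        omega
      rw [h7, ← add_assoc, he2]
      have h8 : (k - 1 - j) * (m * (t - s)) ≤ (k - 1) * (L * t) :=
        Nat.mul_le_mul (by omega) (Nat.mul_le_mul hmL (by omega))
      have h9 : L * t + (k - 1) * (L * t) = k * (L * t) := by
        obtain ⟨k', rfl⟩ : ∃ k', k = k' + 1 := ⟨k - 1, by omega⟩
        rw [Nat.add_sub_cancel]
        ring
      calc L * t + (k - 1 - j) * (m * (t - s)) ≤ L * t + (k - 1) * (L * t) := by omega
        _ = k * (L * t) := h9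
        _ ≤ k * (L * U) := by gcongr
        _ = k * L * U := by ring
        _ ≤ n := hn
    have h10 : m * (t - s) ≤ (k - 1) * (m * (t - s)) :=
      Nat.le_mul_of_pos_left _ (by omega)
    simp only [P, mem_filter, mem_product, mem_Icc]
    refine ⟨⟨⟨by omega, by omega⟩, h5, by omega⟩, h6⟩
  · rintro ⟨s, t⟩ h1 h2 ⟨s', t'⟩ h1' h2' heq
    simp only [mem_filter, mem_product, mem_range] at h1 h1'
    obtain ⟨⟨hs, ht⟩, hst, hlt⟩ := h1
    obtain ⟨⟨hs', ht'⟩, hst', hlt'⟩ := h1'
    simp only [Prod.mk.injEq] at heq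
    have a1 := e1 s t hst hlt
    have a2 := e2 s t hst hlt
    have b1 := e1 s' t' hst' hlt'
    have b2 := e2 s' t' hst' hlt'
    rw [heq.1, heq.2] at a1 a2
    rw [b1] at a1
    rw [b2] at a2
    rw [Prod.mk.injEq]
    exact ⟨(Nat.eq_of_mul_eq_mul_left hL a1).symm, (Nat.eq_of_mul_eq_mul_left hL a2).symm⟩
  · rintro ⟨a, d⟩ h1 h2
    simp only [P, mem_filter, mem_product, mem_Icc] at h1
    obtain ⟨⟨⟨ha, -⟩, hd, -⟩, hle⟩ := h1
    have c1 : lift L G (a + i * d) ≠ 0 := left_ne_zero_of_mul h2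
    have c2 : lift L G (a + j * d) ≠ 0 := right_ne_zero_of_mul h2
    have d1 : L ∣ a + i * d := by
      by_contra h
      exact c1 (by unfold lift; rw [if_neg h])
    have d2 : L ∣ a + j * d := by
      by_contra h
      exact c2 (by unfold lift; rw [if_neg h])
    obtain ⟨s, hs⟩ := d1
    obtain ⟨t, ht⟩ := d2
    rw [hs, lift_mul L hL] at c1
    rw [ht, lift_mul L hL] at c2
    have hsU : s < U := by
      by_contra h
      exact c1 (hG s (by omega))
    have htU : t < U := by
      by_contra h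
      exact c2 (hG t (by omega))
    have hlt : L * s < L * t := by
      rw [← hs, ← ht]
      have : i * d < j * d := Nat.mul_lt_mul_of_pos_right hij (by omega)
      omega
    have hst : s < t := Nat.lt_of_mul_lt_mul_left hlt
    have hd' : d = m * (t - s) := by
      have h3 : L * (t - s) = (j - i) * d := by
        rw [Nat.mul_sub, ← hs, ← ht, Nat.sub_mul]
        omega
      rw [hm, mul_assoc] at h3
      exact (Nat.eq_of_mul_eq_mul_left hl h3).symm
    have hcond : i * (t - s) < (j - i) * s := by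
      have h3 : i * (m * (t - s)) < L * s := by
        rw [← hd', ← hs]
        omega
      rw [hm] at h3
      have h4 : m * (i * (t - s)) < m * ((j - i) * s) := by
        calc m * (i * (t - s)) = i * (m * (t - s)) := by ring
          _ < (j - i) * m * s := h3
          _ = m * ((j - i) * s) := by ring
      exact Nat.lt_of_mul_lt_mul_left h4
    refine ⟨(s, t), ?_, ?_, ?_⟩
    · simp only [mem_filter, mem_product, mem_range]
      exact ⟨⟨hsU, htU⟩, hst, hcond⟩
    · exact mul_ne_zero c1 c2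
    · simp only [Prod.mk.injEq]
      refine ⟨?_, hd'.symm⟩
      rw [← hd', ← hs]
      omega
  · rintro ⟨s, t⟩ h1 h2
    simp only [mem_filter, mem_product, mem_range] at h1
    obtain ⟨⟨hs, ht⟩, hst, hlt⟩ := h1
    simp only
    rw [e1 s t hst hlt, e2 s t hst hlt, lift_mul L hL, lift_mul L hL]

end Pool.Agent.NH69.BR
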