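import Pool.Agent.NH69.BR2

set_option autoImplicit false

open Finset

namespace Pool.Agent.NH69.BR

open Classical in
/-- number of pairs `i < j < k` satisfying `R`, as a real number -/
noncomputable def cnt (k : ℕ) (R : ℕ → ℕ → Prop) : ℝ :=
  ∑ j ∈ range k, ∑ i ∈ range j, if R i j then (1 : ℝ) else 0

theorem cnt_mono (k : ℕ) {R S : ℕ → ℕ → Prop} (h : ∀ i j, i < j → j < k → R i j → S i j) :
    cnt k R ≤ cnt k S := by
  classical
  unfold cnt
  refine sum_le_sum fun j hj => sum_le_sum fun i hi => ?_
  rw [mem_range] at hj hi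
  split_ifs with h1 h2
  · exact le_rfl
  · exact absurd (h i j hi hj h1) h2
  · norm_num
  · exact le_rfl

theorem cnt_nonneg (k : ℕ) (R : ℕ → ℕ → Prop) : 0 ≤ cnt k R := by
  classical
  unfold cnt
  exact sum_nonneg fun j _ => sum_nonneg fun i _ => by split_ifs <;> norm_num

theorem cnt_le (k : ℕ) (R : ℕ → ℕ → Prop) : cnt k R ≤ (k : ℝ) ^ 2 / 2 := by
  classical
  have h1 : cnt k R ≤ ∑ j ∈ range k, (j : ℝ) := by
    unfold cnt
    refine sum_le_sum fun j _ => ?_
    calc ∑ i ∈ range j, (if R i j then (1 : ℝ) else 0) ≤ ∑ i ∈ range j, (1 : ℝ) :=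
          sum_le_sum fun i _ => by split_ifs <;> norm_num
      _ = j := by simp
  have h2 : ∀ k : ℕ, ∑ j ∈ range k, (j : ℝ) ≤ (k : ℝ) ^ 2 / 2 := by
    intro k
    induction k with
    | zero => simp
    | succ k ih =>
      rw [sum_range_succ]
      push_cast
      nlinarith
  exact h1.trans (h2 k)

theorem cnt_diff (k : ℕ) (hk : 3 ≤ k) :
    cnt k (fun i j => 2 * i < j) + 1 ≤ cnt k (fun i j => 2 * i ≤ j) := by
  classical
  have h : cnt k (fun i j => 2 * i ≤ j) = cnt k (fun i j => 2 * i < j) +
      cnt k (fun i j => 2 * i = j) := by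
    unfold cnt
    rw [← sum_add_distrib]
    refine sum_congr rfl fun j _ => ?_
    rw [← sum_add_distrib]
    refine sum_congr rfl fun i _ => ?_
    by_cases h1 : 2 * i < j
    · rw [if_pos h1.le, if_pos h1, if_neg (by omega)]
      norm_num
    · by_cases h2 : 2 * i = j
      · rw [if_pos h2.le, if_neg h1, if_pos h2]
        norm_num
      · rw [if_neg (by omega), if_neg h1, if_neg h2]
        norm_num
  rw [h]
  have h3 : (1 : ℝ) ≤ cnt k (fun i j => 2 * i = j) := by
    unfold cnt
    have h4 : (1 : ℝ) = ∑ i ∈ range 2, if 2 * i = 2 then (1 : ℝ) else 0 := by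
      rw [sum_range_succ, sum_range_succ]
      norm_num
    refine h4.le.trans ?_
    convert single_le_sum (f := fun j => ∑ i ∈ range j, if 2 * i = j then (1 : ℝ) else 0)
      (fun j _ => sum_nonneg fun i _ => by split_ifs <;> norm_num) (mem_range.2 (by omega : 2 < k))
  linarith

/-- Indicator of `[a, b)`. -/
noncomputable def ind (a b s : ℕ) : ℝ := if a ≤ s ∧ s < b then 1 else 0

theorem ind_nonneg (a b s : ℕ) : 0 ≤ ind a b s := by
  unfold ind
  split_ifs <;> norm_num

theorem sum_ind (a b t : ℕ) (hab : a ≤ b) (hbt : b ≤ t) : ∑ s ∈ range t, ind a b s = b - a := by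
  unfold ind
  rw [← sum_filter]
  have : (range t).filter (fun s => a ≤ s ∧ s < b) = Ico a b := by
    ext s
    simp only [mem_filter, mem_range, mem_Ico]
    omega
  rw [this]
  simp [Nat.cast_sub hab]

theorem sum_ind_le (a b t : ℕ) (hab : a ≤ b) : ∑ s ∈ range t, ind a b s ≤ b - a := by
  rw [← sum_ind a b (max b t) hab (le_max_left _ _)]
  exact sum_le_sum_of_subset_of_nonneg (range_mono (le_max_right _ _))
    fun s _ _ => ind_nonneg _ _ _

/-- The block function. -/
noncomputable def GG (N T : ℕ) (c : ℝ) (s : ℕ) : ℝ :=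
  ind (T + N) (T + 2 * N) s - ind (T - N) T s - c * ind (2 * T) (2 * T + N) s

theorem sum_pairs_sq (G : ℕ → ℝ) (m : ℕ) :
    ∑ t ∈ range m, ∑ s ∈ range t, G s * G t =
      ((∑ t ∈ range m, G t) ^ 2 - ∑ t ∈ range m, G t ^ 2) / 2 := by
  induction m with
  | zero => simp
  | succ m ih =>
    rw [sum_range_succ, ih, sum_range_succ, sum_range_succ, ← sum_mul]
    ring

/-- Number of pairs of positions. -/
noncomputable def ww (k s t : ℕ) : ℝ := cnt k fun i j => i * (t - s) < (j - i) * s

theorem block_bound (k N : ℕ) (hk : 3 ≤ k) :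
    ∑ t ∈ range (2 * (3 * k * N) + N), ∑ s ∈ range t,
      GG N (3 * k * N) (1 / k ^ 2) s * GG N (3 * k * N) (1 / k ^ 2) t * ww k s t ≤
        -((N : ℝ) ^ 2 / (2 * k ^ 2)) := by
  classical
  rcases Nat.eq_zero_or_pos N with hN0 | hN
  · subst hN0
    simp
  set T := 3 * k * N with hT
  have hTN : 9 * N ≤ T := by
    rw [hT]
    exact Nat.mul_le_mul_right _ (by omega)
  set c : ℝ := 1 / k ^ 2 with hc
  have hk0 : (0 : ℝ) < k := by
    have : 0 < k := by omega
    exact_mod_cast this
  have hc0 : 0 < c := by positivity
  have hcW : c * ((k : ℝ) ^ 2 / 2) = 1 / 2 := by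
    rw [hc]
    field_simp
  -- split the range of `t`
  have hsplit : ∀ f : ℕ → ℝ, (∀ t, T + 2 * N ≤ t → t < 2 * T → f t = 0) →
      ∑ t ∈ range (2 * T + N), f t = ∑ t ∈ range (T + 2 * N), f t +
        ∑ t ∈ Ico (2 * T) (2 * T + N), f t := by
    intro f hf
    rw [range_eq_Ico, ← sum_Ico_consecutive f (Nat.zero_le (T + 2 * N)) (by omega :
      T + 2 * N ≤ 2 * T + N), ← range_eq_Ico,
      ← sum_Ico_consecutive f (by omega : T + 2 * N ≤ 2 * T) (by omega : 2 * T ≤ 2 * T + N)]
    rw [sum_eq_zero (s := Ico (T + 2 * N) (2 * T)), zero_add]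
    intro t ht
    rw [mem_Ico] at ht
    exact hf t ht.1 ht.2
  rw [hsplit]
  swap
  · intro t h1 h2
    have : GG N T c t = 0 := by
      unfold GG ind
      rw [if_neg (by omega), if_neg (by omega), if_neg (by omega)]
      ring
    rw [this]
    simp
  -- first part
  have hfirst : ∑ t ∈ range (T + 2 * N), ∑ s ∈ range t, GG N T c s * GG N T c t * ww k s t ≤ 0 := by
    have h1 : ∀ t ∈ range (T + 2 * N), ∑ s ∈ range t, GG N T c s * GG N T c t * ww k s t =
        cnt k (fun _ _ => True) * ∑ s ∈ range t, GG N T c s * GG N T c t := by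
      intro t ht
      rw [mem_range] at ht
      rw [mul_sum]
      refine sum_congr rfl fun s hs => ?_
      rw [mem_range] at hs
      by_cases hsB : T - N ≤ s
      · have : ww k s t = cnt k (fun _ _ => True) := by
          unfold ww
          apply le_antisymm
          · exact cnt_mono k fun _ _ _ _ _ => trivial
          · refine cnt_mono k fun i j hij hjk _ => ?_
            have h3 : i * (t - s) ≤ (k - 2) * (3 * N) := Nat.mul_le_mul (by omega) (by omega)
            have h4 : (k - 2) * (3 * N) + 6 * N = T := by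
              rw [hT]
              obtain ⟨k', rfl⟩ : ∃ k', k = k' + 2 := ⟨k - 2, by omega⟩
              rw [Nat.add_sub_cancel]
              ring
            have h5 : s ≤ (j - i) * s := Nat.le_mul_of_pos_left _ (by omega)
            omega
        rw [this]
        ring
      · have : GG N T c s = 0 := by
          unfold GG ind
          rw [if_neg (by omega), if_neg (by omega), if_neg (by omega)]
          ring
        rw [this]
        simp
    rw [sum_congr rfl h1, ← mul_sum, sum_pairs_sq]
    have h2 : ∑ t ∈ range (T + 2 * N), GG N T c t = 0 := by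
      have h3 : ∀ t ∈ range (T + 2 * N), GG N T c t = ind (T + N) (T + 2 * N) t - ind (T - N) T t := by
        intro t ht
        rw [mem_range] at ht
        unfold GG
        have : ind (2 * T) (2 * T + N) t = 0 := by
          unfold ind
          rw [if_neg (by omega)]
        rw [this]
        ring
      rw [sum_congr rfl h3, sum_sub_distrib, sum_ind _ _ _ (by omega) le_rfl,
        sum_ind _ _ _ (by omega) (by omega), Nat.cast_sub (by omega)]
      push_cast
      ring
    rw [h2]
    have h4 : 0 ≤ ∑ t ∈ range (T + 2 * N), GG N T c t ^ 2 := sum_nonneg fun _ _ => sq_nonneg _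
    have h5 := cnt_nonneg k (fun _ _ => True)
    nlinarith
  -- second part
  have hsecond : ∑ t ∈ Ico (2 * T) (2 * T + N), ∑ s ∈ range t, GG N T c s * GG N T c t * ww k s t ≤
      -((N : ℝ) ^ 2 / (2 * k ^ 2)) := by
    have h1 : ∀ t ∈ Ico (2 * T) (2 * T + N), ∑ s ∈ range t, GG N T c s * GG N T c t * ww k s t ≤
        -(c * (N / 2)) := by
      intro t ht
      rw [mem_Ico] at ht
      have hGt : GG N T c t = -c := by
        unfold GG ind
        rw [if_neg (by omega), if_neg (by omega), if_pos (by omega)]
        ring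
      have h2 : ∀ s ∈ range t, cnt k (fun i j => 2 * i ≤ j) * ind (T + N) (T + 2 * N) s -
          cnt k (fun i j => 2 * i < j) * ind (T - N) T s -
            c * ((k : ℝ) ^ 2 / 2) * ind (2 * T) (2 * T + N) s ≤ GG N T c s * ww k s t := by
        intro s hs
        rw [mem_range] at hs
        unfold GG
        have hA : cnt k (fun i j => 2 * i ≤ j) * ind (T + N) (T + 2 * N) s ≤
            ind (T + N) (T + 2 * N) s * ww k s t := by
          by_cases h : T + N ≤ s ∧ s < T + 2 * N
          · have e : ind (T + N) (T + 2 * N) s = 1 := by unfold ind; rw [if_pos h]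
            rw [e, mul_one, one_mul]
            refine cnt_mono k fun i j hij hjk h2 => ?_
            rcases Nat.eq_zero_or_pos i with h0 | h0
            · subst h0
              rw [zero_mul]
              exact Nat.mul_pos (by omega) (by omega)
            · calc i * (t - s) < i * s := Nat.mul_lt_mul_of_pos_left (by omega) h0
                _ ≤ (j - i) * s := Nat.mul_le_mul_right _ (by omega)
          · have e : ind (T + N) (T + 2 * N) s = 0 := by unfold ind; rw [if_neg h]
            rw [e]
            simp
        have hB : ind (T - N) T s * ww k s t ≤ cnt k (fun i j => 2 * i < j) * ind (T - N) T s := by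
          by_cases h : T - N ≤ s ∧ s < T
          · have e : ind (T - N) T s = 1 := by unfold ind; rw [if_pos h]
            rw [e, mul_one, one_mul]
            refine cnt_mono k fun i j hij hjk h2 => ?_
            by_contra hcon
            have h3 : (j - i) * s ≤ i * s := Nat.mul_le_mul_right _ (by omega)
            have h4 : i * s ≤ i * (t - s) := Nat.mul_le_mul_left _ (by omega)
            omega
          · have e : ind (T - N) T s = 0 := by unfold ind; rw [if_neg h]
            rw [e]
            simp
        have hC : ind (2 * T) (2 * T + N) s * ww k s t ≤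
            (k : ℝ) ^ 2 / 2 * ind (2 * T) (2 * T + N) s := by
          have := cnt_le k (fun i j => i * (t - s) < (j - i) * s)
          rw [mul_comm]
          exact mul_le_mul_of_nonneg_right this (ind_nonneg _ _ _)
        have hC' := mul_le_mul_of_nonneg_left hC hc0.le
        nlinarith
      have h3 := sum_le_sum h2
      rw [sum_sub_distrib, sum_sub_distrib, ← mul_sum, ← mul_sum, ← mul_sum,
        sum_ind _ _ _ (by omega) (by omega), sum_ind _ _ _ (by omega) (by omega)] at h3
      have h4 := sum_ind_le (2 * T) (2 * T + N) t (by omega)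
      have h5 := cnt_diff k hk
      have h6 : ∑ s ∈ range t, GG N T c s * GG N T c t * ww k s t =
          -c * ∑ s ∈ range t, GG N T c s * ww k s t := by
        rw [mul_sum]
        refine sum_congr rfl fun s _ => ?_
        rw [hGt]
        ring
      rw [h6]
      rw [Nat.cast_sub (by omega)] at h3
      push_cast at h3 h4
      have hNr : (0 : ℝ) < N := by exact_mod_cast hN
      have h7 : (N : ℝ) / 2 ≤ ∑ s ∈ range t, GG N T c s * ww k s t := by
        refine le_trans ?_ h3
        rw [hcW]
        nlinarith
      nlinarith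
    refine (sum_le_sum h1).trans ?_
    rw [sum_const, Nat.card_Ico, Nat.add_sub_cancel_left, nsmul_eq_mul, hc]
    apply le_of_eq
    field_simp
  linarith

end Pool.Agent.NH69.BR
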