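import Pool.Agent.NH69.BR3

set_option autoImplicit false

open Finset

namespace Pool.Agent.NH69.BR

theorem GG_zero (N T : ℕ) (c : ℝ) (s : ℕ) (hs : 2 * T + N ≤ s) (hT : N ≤ T) : GG N T c s = 0 := by
  unfold GG ind
  rw [if_neg (by omega), if_neg (by omega), if_neg (by omega)]
  ring

theorem Q_bound (k N n L : ℕ) (hk : 3 ≤ k) (hL : 0 < L) (hdvd : ∀ l, 1 ≤ l → l < k → l ∣ L)
    (hn : k * L * ((6 * k + 1) * N) ≤ n) :
    ∑ p ∈ P k n, ∑ j ∈ range k, lift L (GG N (3 * k * N) (1 / k ^ 2)) (p.1 + j * p.2) *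
      ∑ i ∈ range j, lift L (GG N (3 * k * N) (1 / k ^ 2)) (p.1 + i * p.2) ≤
        -((N : ℝ) ^ 2 / (2 * k ^ 2)) := by
  classical
  refine le_trans (le_of_eq ?_) (block_bound k N hk)
  set G := GG N (3 * k * N) (1 / k ^ 2) with hG
  have hU : 2 * (3 * k * N) + N = (6 * k + 1) * N := by ring
  rw [hU]
  set U := (6 * k + 1) * N with hU'
  have hTN : N ≤ 3 * k * N := Nat.le_mul_of_pos_left _ (by omega)
  have hG0 : ∀ s, U ≤ s → G s = 0 := by
    intro s hs
    exact GG_zero _ _ _ _ (by omega) hTN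
  have h1 : ∑ p ∈ P k n, ∑ j ∈ range k, lift L G (p.1 + j * p.2) *
      ∑ i ∈ range j, lift L G (p.1 + i * p.2) =
      ∑ j ∈ range k, ∑ i ∈ range j, ∑ p ∈ P k n,
        lift L G (p.1 + i * p.2) * lift L G (p.1 + j * p.2) := by
    rw [sum_comm]
    refine sum_congr rfl fun j _ => ?_
    rw [sum_comm]
    refine sum_congr rfl fun p _ => ?_
    rw [mul_sum]
    refine sum_congr rfl fun i _ => ?_
    ring
  rw [h1]
  have h2 : ∀ j ∈ range k, ∀ i ∈ range j, ∑ p ∈ P k n,
        lift L G (p.1 + i * p.2) * lift L G (p.1 + j * p.2) =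
      ∑ t ∈ range U, ∑ s ∈ range t, G s * G t * if i * (t - s) < (j - i) * s then 1 else 0 := by
    intro j hj i hi
    rw [mem_range] at hj hi
    rw [sum_pair k n L U G hL hG0 hn i j hi hj (hdvd _ (by omega) (by omega)), sum_filter,
      sum_product_right]
    refine sum_congr rfl fun t ht => ?_
    rw [mem_range] at ht
    have : range t = (range U).filter (fun s => s < t) := by
      ext s
      simp only [mem_range, mem_filter]
      omega
    rw [this, sum_filter]
    refine sum_congr rfl fun s _ => ?_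
    simp only
    by_cases h3 : s < t
    · by_cases h4 : i * (t - s) < (j - i) * s
      · rw [if_pos ⟨h3, h4⟩, if_pos h3, if_pos h4, mul_one]
      · rw [if_neg (fun h => h4 h.2), if_pos h3, if_neg h4, mul_zero]
    · rw [if_neg (fun h => h3 h.1), if_neg h3]
  rw [sum_congr rfl fun j hj => sum_congr rfl fun i hi => h2 j hj i hi]
  have h3 : ∀ j ∈ range k, ∑ i ∈ range j, ∑ t ∈ range U, ∑ s ∈ range t,
      G s * G t * (if i * (t - s) < (j - i) * s then (1 : ℝ) else 0) =
      ∑ t ∈ range U, ∑ s ∈ range t, ∑ i ∈ range j,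
        G s * G t * (if i * (t - s) < (j - i) * s then (1 : ℝ) else 0) := by
    intro j _
    rw [sum_comm]
    refine sum_congr rfl fun t _ => ?_
    rw [sum_comm]
  rw [sum_congr rfl h3, sum_comm]
  refine sum_congr rfl fun t _ => ?_
  rw [sum_comm]
  refine sum_congr rfl fun s _ => ?_
  unfold ww cnt
  rw [mul_sum]
  refine sum_congr rfl fun j _ => ?_
  rw [mul_sum]
  refine sum_congr rfl fun i _ => ?_
  congr

theorem card_P_le (k n : ℕ) (hk : 2 ≤ k) : ((P k n).card : ℝ) ≤ (n : ℝ) ^ 2 / (2 * (k - 1)) := by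
  have hk1 : (0 : ℝ) < (k : ℝ) - 1 := by
    have : (2 : ℝ) ≤ k := by exact_mod_cast hk
    linarith
  set K : ℝ := (k : ℝ) - 1 with hK
  set F : ℕ → ℝ := fun d => (max 0 ((n : ℝ) - K * d)) ^ 2 / (2 * K) with hF
  have h1 : ((P k n).card : ℝ) ≤ ∑ d ∈ Icc 1 n, max 0 ((n : ℝ) - K * d) := by
    have : (P k n).card ≤ ∑ d ∈ Icc 1 n, (n - (k - 1) * d) := by
      have hsub : P k n ⊆ (Icc 1 n).biUnion fun d => (Icc 1 (n - (k - 1) * d)) ×ˢ {d} := by
        rintro ⟨a, d⟩ h
        simp only [P, mem_filter, mem_product, mem_Icc] at h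
        simp only [mem_biUnion, mem_product, mem_Icc, mem_singleton]
        exact ⟨d, h.1.2, ⟨h.1.1.1, by omega⟩, rfl⟩
      refine (card_le_card hsub).trans (card_biUnion_le.trans ?_)
      refine sum_le_sum fun d _ => ?_
      rw [card_product, Nat.card_Icc, card_singleton]
      omega
    have h2 : ((P k n).card : ℝ) ≤ ((∑ d ∈ Icc 1 n, (n - (k - 1) * d) : ℕ) : ℝ) := by
      exact_mod_cast this
    refine h2.trans ?_
    rw [Nat.cast_sum]
    refine sum_le_sum fun d _ => ?_
    rcases Nat.le_total ((k - 1) * d) n with h | h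
    · rw [Nat.cast_sub h, Nat.cast_mul, Nat.cast_sub (by omega)]
      push_cast
      exact le_max_right _ _
    · rw [Nat.sub_eq_zero_of_le h]
      simp
  have h2 : ∀ d : ℕ, max 0 ((n : ℝ) - K * (d + 1 : ℕ)) ≤ F d - F (d + 1) := by
    intro d
    simp only [hF]
    push_cast
    rw [← sub_div, le_div_iff₀ (by positivity)]
    rcases le_total 0 ((n : ℝ) - K * (d + 1)) with h | h
    · rw [max_eq_right h, max_eq_right (by nlinarith)]
      nlinarith
    · rw [max_eq_left h]
      have := sq_nonneg (max 0 ((n : ℝ) - K * d))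
      nlinarith
  have h3 : ∀ m : ℕ, ∑ d ∈ Icc 1 m, max 0 ((n : ℝ) - K * d) ≤ F 0 - F m := by
    intro m
    induction m with
    | zero => simp
    | succ m ih =>
      rw [sum_Icc_succ_top (by omega)]
      have := h2 m
      linarith
  have h4 : F 0 = (n : ℝ) ^ 2 / (2 * K) := by
    simp [hF]
  have h5 : 0 ≤ F n := by
    simp only [hF]
    positivity
  have h6 := h3 n
  linarith

theorem le_card_P (k n : ℕ) (hk : 2 ≤ k) :
    (n : ℝ) ^ 2 / (2 * (k - 1)) - n ≤ ((P k n).card : ℝ) := by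
  have hk1 : (1 : ℝ) ≤ (k : ℝ) - 1 := by
    have : (2 : ℝ) ≤ k := by exact_mod_cast hk
    linarith
  set K : ℝ := (k : ℝ) - 1 with hK
  set F : ℕ → ℝ := fun d => (max 0 ((n : ℝ) - K * d)) ^ 2 / (2 * K) with hF
  have hPeq : (P k n).card = ∑ d ∈ Icc 1 n, (n - (k - 1) * d) := by
    have heq : P k n = (Icc 1 n).biUnion fun d => (Icc 1 (n - (k - 1) * d)) ×ˢ {d} := by
      ext ⟨a, d⟩
      simp only [P, mem_filter, mem_product, mem_Icc]
      simp only [mem_biUnion, mem_product, mem_Icc, mem_singleton]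
      constructor
      · intro h
        exact ⟨d, h.1.2, ⟨h.1.1.1, by omega⟩, rfl⟩
      · rintro ⟨d', h1, h2, rfl⟩
        exact ⟨⟨⟨h2.1, by omega⟩, h1⟩, by omega⟩
    rw [heq, card_biUnion]
    · refine sum_congr rfl fun d _ => ?_
      rw [card_product, Nat.card_Icc, card_singleton]
      omega
    · intro d _ d' _ hne
      rw [Function.onFun, disjoint_left]
      rintro ⟨a, e⟩ h1 h2
      simp only [mem_product, mem_singleton] at h1 h2
      exact hne (h1.2.symm.trans h2.2)
  have h1 : ∑ d ∈ Icc 1 n, max 0 ((n : ℝ) - K * d) ≤ ((P k n).card : ℝ) := by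
    rw [hPeq, Nat.cast_sum]
    refine sum_le_sum fun d _ => ?_
    rcases Nat.le_total ((k - 1) * d) n with h | h
    · rw [Nat.cast_sub h, Nat.cast_mul, Nat.cast_sub (by omega)]
      push_cast
      refine max_le ?_ le_rfl
      have : (((k - 1) * d : ℕ) : ℝ) ≤ n := by exact_mod_cast h
      rw [Nat.cast_mul, Nat.cast_sub (by omega)] at this
      push_cast at this
      linarith
    · rw [Nat.sub_eq_zero_of_le h]
      have : (n : ℝ) ≤ (((k - 1) * d : ℕ) : ℝ) := by exact_mod_cast h
      rw [Nat.cast_mul, Nat.cast_sub (by omega)] at this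
      push_cast at this
      rw [max_eq_left (by linarith)]
      simp
  have h2 : ∀ d : ℕ, F d - F (d + 1) ≤ max 0 ((n : ℝ) - K * d) := by
    intro d
    simp only [hF]
    push_cast
    rw [← sub_div, div_le_iff₀ (by positivity)]
    rcases le_total 0 ((n : ℝ) - K * (d + 1)) with h | h
    · rw [max_eq_right h, max_eq_right (by nlinarith)]
      nlinarith
    · rw [max_eq_left h]
      rcases le_total 0 ((n : ℝ) - K * d) with h' | h'
      · rw [max_eq_right h']
        nlinarith
      · rw [max_eq_left h']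
        simp
  have h3 : ∀ m : ℕ, F 1 - F (m + 1) ≤ ∑ d ∈ Icc 1 m, max 0 ((n : ℝ) - K * d) := by
    intro m
    induction m with
    | zero => simp
    | succ m ih =>
      rw [sum_Icc_succ_top (by omega)]
      have := h2 (m + 1)
      linarith
  have h4 : (n : ℝ) ^ 2 / (2 * K) - n ≤ F 1 := by
    simp only [hF, Nat.cast_one, mul_one]
    rw [le_div_iff₀ (by positivity), sub_mul, div_mul_cancel₀ _ (by positivity)]
    rcases le_total 0 ((n : ℝ) - K) with h | h
    · rw [max_eq_right h]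
      nlinarith
    · rw [max_eq_left h]
      have : (0 : ℝ) ≤ n := Nat.cast_nonneg _
      nlinarith
  have h5 : F (n + 1) = 0 := by
    simp only [hF]
    push_cast
    rw [max_eq_left]
    · simp
    · have : (0 : ℝ) ≤ n := Nat.cast_nonneg _
      nlinarith
  have h6 := h3 n
  linarith

end Pool.Agent.NH69.BR
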