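import Pool.Agent.NH69.BR1
import Pool.Agent.NH69.BR4

set_option autoImplicit false

open Finset

namespace Pool.Agent.NH69.BR

/-- Expected number of monochromatic progressions. -/
noncomputable def F (k n : ℕ) {r : ℕ} (p : ℕ → Fin r → ℝ) : ℝ :=
  ∑ q ∈ P k n, ∑ i, ∏ j ∈ range k, p (q.1 + j * q.2) i

theorem F_update {k n r : ℕ} (p : ℕ → Fin r → ℝ) (x0 : ℕ) (v : Fin r → ℝ) (hv : ∑ i, v i = 1) :
    F k n (Function.update p x0 v) =
      ∑ i', v i' * F k n (Function.update p x0 (Pi.single i' 1)) := by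
  have hsw : ∑ i', v i' * F k n (Function.update p x0 (Pi.single i' 1)) =
      ∑ q ∈ P k n, ∑ i, ∑ i', v i' *
        ∏ j ∈ range k, (Function.update p x0 (Pi.single i' 1)) (q.1 + j * q.2) i := by
    unfold F
    simp_rw [mul_sum]
    rw [sum_comm]
    exact sum_congr rfl fun q _ => sum_comm
  rw [hsw]
  unfold F
  refine sum_congr rfl fun q hq => ?_
  refine sum_congr rfl fun i _ => ?_
  simp only [P, mem_filter, mem_product, mem_Icc] at hq
  by_cases h : ∃ j0, j0 < k ∧ q.1 + j0 * q.2 = x0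
  · obtain ⟨j0, hj0, hx⟩ := h
    have hm : j0 ∈ range k := mem_range.2 hj0
    have hne : ∀ j ∈ (range k).erase j0, q.1 + j * q.2 ≠ x0 := by
      intro j hj heq
      rw [← hx] at heq
      have h1 : j * q.2 = j0 * q.2 := by omega
      exact (mem_erase.1 hj).1 (Nat.eq_of_mul_eq_mul_right (by omega) h1)
    have hprod : ∀ w : Fin r → ℝ, ∏ j ∈ range k, Function.update p x0 w (q.1 + j * q.2) i =
        w i * ∏ j ∈ (range k).erase j0, p (q.1 + j * q.2) i := by
      intro w
      rw [← mul_prod_erase _ _ hm, hx, Function.update_self]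
      congr 1
      refine prod_congr rfl fun j hj => ?_
      rw [Function.update_of_ne (hne j hj)]
    simp_rw [hprod]
    rw [sum_eq_single i]
    · rw [Pi.single_eq_same, one_mul]
    · intro b _ hb
      rw [Pi.single_eq_of_ne (Ne.symm hb)]
      ring
    · intro h
      exact absurd (mem_univ i) h
  · have hprod : ∀ w : Fin r → ℝ, ∏ j ∈ range k, Function.update p x0 w (q.1 + j * q.2) i =
        ∏ j ∈ range k, p (q.1 + j * q.2) i := by
      intro w
      refine prod_congr rfl fun j hj => ?_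
      rw [Function.update_of_ne]
      intro heq
      exact h ⟨j, mem_range.1 hj, heq⟩
    simp_rw [hprod]
    rw [← sum_mul, hv, one_mul]

theorem exists_pure {k n r : ℕ} (hr : 0 < r) (p : ℕ → Fin r → ℝ) (hp0 : ∀ x i, 0 ≤ p x i)
    (hp1 : ∀ x, ∑ i, p x i = 1) (s : Finset ℕ) :
    ∃ χ : ℕ → Fin r, F k n (fun x => if x ∈ s then Pi.single (χ x) 1 else p x) ≤ F k n p := by
  classical
  induction s using Finset.induction_on with
  | empty => exact ⟨fun _ => ⟨0, hr⟩, by simp⟩
  | insert x0 s hx0 ih =>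
    obtain ⟨χ, hχ⟩ := ih
    set p' : ℕ → Fin r → ℝ := fun x => if x ∈ s then Pi.single (χ x) 1 else p x with hp'
    have hself : Function.update p' x0 (p x0) = p' := by
      ext x i
      by_cases h : x = x0
      · subst h
        rw [Function.update_self, hp']
        simp [hx0]
      · rw [Function.update_of_ne h]
    have haff := F_update (k := k) (n := n) p' x0 (p x0) (hp1 x0)
    rw [hself] at haff
    have hne : (univ : Finset (Fin r)).Nonempty := ⟨⟨0, hr⟩, mem_univ _⟩
    obtain ⟨i0, -, hmin⟩ := exists_min_image univ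
      (fun i' => F k n (Function.update p' x0 (Pi.single i' 1))) hne
    refine ⟨Function.update χ x0 i0, ?_⟩
    have heq : (fun x => if x ∈ insert x0 s then
        (Pi.single (Function.update χ x0 i0 x) 1 : Fin r → ℝ) else p x) =
        Function.update p' x0 (Pi.single i0 1) := by
      ext x i
      by_cases h : x = x0
      · subst h
        rw [Function.update_self, if_pos (mem_insert_self _ _), Function.update_self]
      · rw [Function.update_of_ne h, Function.update_of_ne h, hp']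
        simp [h]
    rw [heq]
    refine le_trans ?_ hχ
    rw [haff]
    calc F k n (Function.update p' x0 (Pi.single i0 1))
        = ∑ i', p x0 i' * F k n (Function.update p' x0 (Pi.single i0 1)) := by
          rw [← sum_mul, hp1, one_mul]
      _ ≤ _ := sum_le_sum fun i' _ => mul_le_mul_of_nonneg_left (hmin i' (mem_univ _)) (hp0 _ _)

/-- Number of pairs `(a, d)` giving a monochromatic progression. -/
def MP (k n : ℕ) {r : ℕ} (χ : ℕ → Fin r) : ℕ :=
  ((P k n).filter fun q => ∀ j < k, χ (q.1 + j * q.2) = χ q.1).card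

theorem mem_Icc_of_mem_P {k n : ℕ} {q : ℕ × ℕ} (hq : q ∈ P k n) {j : ℕ} (hj : j < k) :
    q.1 + j * q.2 ∈ Icc 1 n := by
  simp only [P, mem_filter, mem_product, mem_Icc] at hq
  rw [mem_Icc]
  have : j * q.2 ≤ (k - 1) * q.2 := Nat.mul_le_mul_right _ (by omega)
  omega

theorem F_pure {k n r : ℕ} (hk : 0 < k) (χ : ℕ → Fin r) (p : ℕ → Fin r → ℝ) :
    F k n (fun x => if x ∈ Icc 1 n then Pi.single (χ x) 1 else p x) = MP k n χ := by
  classical
  unfold F MP
  rw [card_filter]
  push_cast
  refine sum_congr rfl fun q hq => ?_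
  have h1 : ∀ i, ∏ j ∈ range k, (if q.1 + j * q.2 ∈ Icc 1 n then
      (Pi.single (χ (q.1 + j * q.2)) 1 : Fin r → ℝ) else p (q.1 + j * q.2)) i =
      if ∀ j < k, χ (q.1 + j * q.2) = i then (1 : ℝ) else 0 := by
    intro i
    split_ifs with h
    · refine prod_eq_one fun j hj => ?_
      rw [if_pos (mem_Icc_of_mem_P hq (mem_range.1 hj)), h j (mem_range.1 hj), Pi.single_eq_same]
    · push Not at h
      obtain ⟨j, hj, hne⟩ := h
      refine prod_eq_zero (mem_range.2 hj) ?_
      rw [if_pos (mem_Icc_of_mem_P hq hj), Pi.single_eq_of_ne (Ne.symm hne)]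
  simp_rw [h1]
  by_cases h : ∀ j < k, χ (q.1 + j * q.2) = χ q.1
  · rw [if_pos h, sum_eq_single (χ q.1)]
    · rw [if_pos h]
    · intro b _ hb
      rw [if_neg]
      intro hall
      have := hall 0 hk
      simp only [zero_mul, add_zero] at this
      exact hb this.symm
    · intro h'
      exact absurd (mem_univ _) h'
  · rw [if_neg h]
    refine sum_eq_zero fun i _ => ?_
    rw [if_neg]
    intro hall
    apply h
    intro j hj
    have h0 := hall 0 hk
    simp only [zero_mul, add_zero] at h0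
    rw [hall j hj, h0]

/-- Signs of the colours. -/
noncomputable def sg {r : ℕ} (i : Fin r) : ℝ := if i.val = 0 then 1 else if i.val = 1 then -1 else 0

theorem sum_sg {r : ℕ} (hr : 2 ≤ r) (f : ℝ → ℝ) :
    ∑ i : Fin r, f (sg i) = f 1 + f (-1) + (r - 2) * f 0 := by
  obtain ⟨m, rfl⟩ : ∃ m, r = m + 2 := ⟨r - 2, by omega⟩
  rw [Fin.sum_univ_succ, Fin.sum_univ_succ]
  have h0 : sg (0 : Fin (m + 2)) = 1 := by simp [sg]
  have h1 : sg (Fin.succ (0 : Fin (m + 1))) = -1 := by simp [sg]
  have h2 : ∀ i : Fin m, sg (Fin.succ (Fin.succ i)) = 0 := by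
    intro i
    unfold sg
    rw [if_neg (by simp), if_neg (by simp)]
  rw [h0, h1]
  simp_rw [h2]
  rw [sum_const, card_univ, Fintype.card_fin, nsmul_eq_mul]
  push_cast
  ring

theorem exists_low {k n r : ℕ} (hk : 3 ≤ k) (hr : 2 ≤ r) (g : ℕ → ℝ) (hg : ∀ x, |g x| ≤ 1)
    (e : ℝ) (h0 : 0 ≤ e) (h1 : e ≤ 1) :
    ∃ χ : ℕ → Fin r, (MP k n χ : ℝ) ≤ (1 / (r : ℝ)) ^ k * (r * (P k n).card +
      2 * e ^ 2 * (∑ p ∈ P k n, ∑ j ∈ range k, g (p.1 + j * p.2) *
        ∑ i ∈ range j, g (p.1 + i * p.2)) + 4 ^ k * e ^ 4 * (P k n).card) := by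
  have hr0 : (0 : ℝ) < r := by
    have : 0 < r := by omega
    exact_mod_cast this
  set p : ℕ → Fin r → ℝ := fun x i => 1 / r * (1 + e * g x * sg i) with hp
  have hsg : ∀ i : Fin r, |sg i| ≤ 1 := by
    intro i
    unfold sg
    split_ifs <;> simp
  have hp0 : ∀ x i, 0 ≤ p x i := by
    intro x i
    simp only [hp]
    have h2 : |e * g x * sg i| ≤ 1 := by
      rw [abs_mul, abs_mul, abs_of_nonneg h0]
      have := hg x
      have := hsg i
      calc e * |g x| * |sg i| ≤ 1 * 1 * 1 := by gcongr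
        _ = 1 := by norm_num
    have := (abs_le.1 h2).1
    apply mul_nonneg (by positivity)
    linarith
  have hp1 : ∀ x, ∑ i, p x i = 1 := by
    intro x
    simp only [hp]
    rw [← mul_sum, sum_sg hr (fun s => 1 + e * g x * s)]
    field_simp
    ring
  obtain ⟨χ, hχ⟩ := exists_pure (k := k) (n := n) (by omega) p hp0 hp1 (Icc 1 n)
  refine ⟨χ, ?_⟩
  rw [← F_pure (by omega) χ p]
  refine hχ.trans ?_
  unfold F
  have hterm : ∀ q ∈ P k n, ∑ i, ∏ j ∈ range k, p (q.1 + j * q.2) i ≤
      (1 / (r : ℝ)) ^ k * (r + 2 * e ^ 2 * (∑ j ∈ range k, g (q.1 + j * q.2) *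
        ∑ i ∈ range j, g (q.1 + i * q.2)) + 4 ^ k * e ^ 4) := by
    intro q _
    have h2 : ∀ i, ∏ j ∈ range k, p (q.1 + j * q.2) i =
        (1 / (r : ℝ)) ^ k * ∏ j ∈ range k, (1 + e * g (q.1 + j * q.2) * sg i) := by
      intro i
      simp only [hp]
      rw [prod_mul_distrib, prod_const, card_range]
    simp_rw [h2]
    rw [← mul_sum, sum_sg hr (fun s => ∏ j ∈ range k, (1 + e * g (q.1 + j * q.2) * s))]
    apply mul_le_mul_of_nonneg_left _ (by positivity)
    have h3 := (prod_bounds (fun j => g (q.1 + j * q.2)) (fun j => hg _) e h0 h1 k).1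
    have h4 := (abs_le.1 h3).2
    simp only [mul_one, mul_zero, add_zero, prod_const_one, mul_neg, ← sub_eq_add_neg]
    linarith
  refine (sum_le_sum hterm).trans (le_of_eq ?_)
  rw [← mul_sum, sum_add_distrib, sum_add_distrib, ← mul_sum, sum_const, sum_const, nsmul_eq_mul,
    nsmul_eq_mul]
  ring

theorem MP_const (k n : ℕ) {r : ℕ} (c : Fin r) : MP k n (fun _ => c) = (P k n).card := by
  unfold MP
  rw [filter_true_of_mem]
  intro q _ j _
  rfl

/-- Changing the colour of one number changes the count by at most `k n`. -/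
theorem MP_step (k n : ℕ) {r : ℕ} (χ χ' : ℕ → Fin r) (x0 : ℕ) (h : ∀ x, x ≠ x0 → χ x = χ' x) :
    MP k n χ ≤ MP k n χ' + k * n := by
  classical
  unfold MP
  have hsub : (P k n).filter (fun q => ∀ j < k, χ (q.1 + j * q.2) = χ q.1) ⊆
      (P k n).filter (fun q => ∀ j < k, χ' (q.1 + j * q.2) = χ' q.1) ∪
        ((range k) ×ˢ (Icc 1 n)).image (fun u => (x0 - u.1 * u.2, u.2)) := by
    intro q hq
    rw [mem_filter] at hq
    rw [mem_union]
    by_cases hx : ∃ j < k, q.1 + j * q.2 = x0
    · right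
      obtain ⟨j, hj, hx⟩ := hx
      rw [mem_image]
      refine ⟨(j, q.2), ?_, ?_⟩
      · rw [mem_product, mem_range]
        have := hq.1
        simp only [P, mem_filter, mem_product] at this
        exact ⟨hj, this.1.2⟩
      · ext
        · simp only
          omega
        · rfl
    · left
      push Not at hx
      rw [mem_filter]
      refine ⟨hq.1, fun j hj => ?_⟩
      rcases Nat.eq_zero_or_pos k with h0 | h0
      · omega
      have h3 := hx 0 h0
      simp only [zero_mul, add_zero] at h3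
      rw [← h _ (hx j hj), ← h _ h3]
      exact hq.2 j hj
  refine (card_le_card hsub).trans ((card_union_le _ _).trans ?_)
  have : (((range k) ×ˢ (Icc 1 n)).image (fun u : ℕ × ℕ => (x0 - u.1 * u.2, u.2))).card ≤ k * n := by
    refine card_image_le.trans ?_
    rw [card_product, card_range, Nat.card_Icc, Nat.add_sub_cancel]
  omega

/-- Discrete intermediate value argument. -/
theorem exists_between (k n : ℕ) {r : ℕ} (χ₀ : ℕ → Fin r) (c : Fin r) (D : ℝ)
    (h0 : (MP k n χ₀ : ℝ) ≤ D) (h1 : D ≤ (P k n).card) :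
    ∃ χ : ℕ → Fin r, |(MP k n χ : ℝ) - D| ≤ k * n := by
  classical
  set ψ : ℕ → ℕ → Fin r := fun t x => if x < t then c else χ₀ x with hψ
  have hψ0 : ψ 0 = χ₀ := by
    ext x
    simp [hψ]
  have hlast : MP k n (ψ (n + 1)) = (P k n).card := by
    unfold MP
    rw [filter_true_of_mem]
    intro q hq j hj
    have h2 := mem_Icc_of_mem_P hq hj
    have h3 := mem_Icc_of_mem_P hq (by omega : 0 < k)
    rw [mem_Icc] at h2 h3
    simp only [hψ]
    rw [if_pos (by omega), if_pos (by omega)]
  have hstep : ∀ t, MP k n (ψ (t + 1)) ≤ MP k n (ψ t) + k * n := by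
    intro t
    refine MP_step k n _ _ t fun x hx => ?_
    simp only [hψ]
    by_cases h : x < t
    · rw [if_pos (by omega), if_pos h]
    · rw [if_neg (by omega), if_neg h]
  have hex : ∃ t, D ≤ MP k n (ψ t) := ⟨n + 1, by rw [hlast]; exact h1⟩
  have hfind := Nat.find_spec hex
  rcases Nat.eq_zero_or_pos (Nat.find hex) with hz | hz
  · rw [hz, hψ0] at hfind
    refine ⟨χ₀, ?_⟩
    have : (MP k n χ₀ : ℝ) = D := le_antisymm h0 hfind
    rw [this, sub_self, abs_zero]
    positivity
  · obtain ⟨t, ht⟩ : ∃ t, Nat.find hex = t + 1 := ⟨Nat.find hex - 1, by omega⟩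
    rw [ht] at hfind
    have hmin := Nat.find_min hex (m := t) (by omega)
    push Not at hmin
    refine ⟨ψ (t + 1), ?_⟩
    have h2 : (MP k n (ψ (t + 1)) : ℝ) ≤ MP k n (ψ t) + k * n := by exact_mod_cast hstep t
    rw [abs_of_nonneg (by linarith)]
    linarith

end Pool.Agent.NH69.BR
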