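import Mathlib

set_option autoImplicit false

/-! Data for the 2-(8,4,3) design of the planes of AG(3,2). -/

namespace Pool.Agent.NH69.DS

/-- decision trees -/
inductive Tr
  | O (p : ℕ) : Tr
  | U (p : ℕ) : Tr
  | E : Tr
  | B (b : ℕ) (t1 t2 : Tr) : Tr

open Tr

/-- the 14 planes as bit masks -/
def PL : List ℕ := [85, 170, 51, 204, 153, 102, 15, 240, 165, 90, 195, 60, 105, 150]

/-- the 28 pairs of points as bit masks -/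
def PR : List ℕ := [3, 5, 9, 17, 33, 65, 129, 6, 10, 18, 34, 66, 130, 12, 20, 36, 68, 132, 24, 40, 72, 136, 48, 80, 144, 96, 160, 192]

/-- the 70 four-element sets as bit masks -/
def BL : List ℕ := [15, 23, 39, 71, 135, 27, 43, 75, 139, 51, 83, 147, 99, 163, 195, 29, 45, 77, 141, 53, 85, 149,
  101, 165, 197, 57, 89, 153, 105, 169, 201, 113, 177, 209, 225, 30, 46, 78, 142, 54, 86, 150,
  102, 166, 198, 58, 90, 154, 106, 170, 202, 114, 178, 210, 226, 60, 92, 156, 108, 172, 204, 116,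
  180, 212, 228, 120, 184, 216, 232, 240]

def t6 : Tr := (B 15 (B 23 (O 1) (B 39 (O 1) (B 71 (O 1) (B 135 (O 1) (B 29 (O 1) (B 45 (O 1) (B 77 (O 1) (B
  141 (O 1) (B 53 (O 1) (B 149 (O 1) (B 101 (O 1) (B 197 (O 1) (B 27 (O 8) (B 43 (O 8) (B 75 (O
  8) (B 139 (O 8) (B 30 (O 8) (B 46 (O 8) (B 78 (O 8) (B 142 (O 8) (B 58 (O 8) (B 154 (O 8) (B
  106 (O 8) (B 202 (O 8) (B 195 (B 83 (O 0) (B 147 (O 0) (B 99 (O 0) (B 163 (O 0) (B 60 (B 92 (O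
  13) (B 156 (O 13) (B 108 (O 13) (B 172 (O 13) (B 153 (B 57 (O 3) (B 89 (O 3) (B 113 (O 3) (B
  177 (O 3) (B 209 (O 3) (B 169 (O 6) (B 201 (O 6) (B 105 (B 225 (O 4) (B 120 (O 18) (B 184 (O
  18) (B 216 (O 18) (B 232 (O 19) (B 150 (B 54 (O 9) (B 86 (O 9) (B 114 (O 9) (B 178 (O 9) (B 210
  (O 9) (B 166 (O 12) (B 198 (O 12) (B 102 (B 226 (O 10) (B 116 (O 14) (B 180 (O 14) (B 212 (O
  14) (B 228 (O 15) (B 240 E (U 22))))))) (U 7))))))))) (B 54 (B 86 (O 9) (B 114 (O 9) (B 178 (O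
  9) (B 210 (O 9) (B 102 (O 10) (B 166 (O 10) (B 198 (B 226 (O 10) (B 116 (O 14) (B 180 (O 14) (B
  212 (O 14) (U 24))))) (U 7)))))))) (B 86 (B 114 (O 9) (B 178 (O 9) (B 210 (O 9) (B 102 (O 11)
  (B 198 (O 11) (B 166 (B 226 (O 10) (B 116 (O 14) (B 180 (O 14) (B 212 (O 14) (U 24))))) (U
  7))))))) (B 102 (B 166 (O 10) (B 198 (O 11) (U 7))) (B 166 (B 198 (O 12) (U 7)) (U 7)))))))))))
  (U 2))))))))) (B 57 (B 89 (O 3) (B 113 (O 3) (B 177 (O 3) (B 209 (O 3) (B 105 (O 4) (B 169 (O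
  4) (B 201 (B 225 (O 4) (B 120 (O 18) (B 184 (O 18) (B 216 (O 18) (B 232 (O 19) (B 54 (O 22) (B
  114 (O 22) (B 178 (O 22) (B 116 (O 22) (B 180 (O 22) (B 240 (O 22) (B 150 (B 86 (O 9) (B 210 (O
  9) (U 24))) (U 24))))))))))))) (U 2)))))))) (B 89 (B 113 (O 3) (B 177 (O 3) (B 209 (O 3) (B 105
  (O 5) (B 201 (O 5) (B 169 (B 225 (O 4) (B 120 (O 18) (B 184 (O 18) (B 216 (O 18) (B 232 (O 19)
  (B 86 (O 23) (B 114 (O 23) (B 210 (O 23) (B 116 (O 23) (B 212 (O 23) (B 240 (O 23) (B 150 (B 54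
  (O 9) (B 178 (O 9) (U 24))) (U 24))))))))))))) (U 2))))))) (B 105 (B 169 (O 4) (B 201 (O 5) (U
  2))) (B 169 (B 201 (O 6) (U 2)) (U 2)))))))))) (B 92 (B 156 (O 13) (B 108 (O 13) (B 172 (O 13)
  (B 86 (O 16) (B 102 (O 16) (B 198 (O 16) (B 116 (O 16) (B 212 (O 16) (B 228 (O 16) (B 89 (O 20)
  (B 105 (O 20) (B 201 (O 20) (B 120 (O 20) (B 216 (O 20) (B 232 (O 20) (B 113 (O 23) (B 209 (O
  23) (B 225 (B 57 (O 4) (B 153 (O 6) (U 2))) (U 5))))))))))))))))))) (B 156 (B 108 (O 13) (B 172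
  (O 13) (B 150 (O 17) (B 166 (O 17) (B 198 (O 17) (B 180 (O 17) (B 212 (O 17) (B 228 (O 17) (B
  153 (O 21) (B 169 (O 21) (B 201 (O 21) (B 184 (O 21) (B 216 (O 21) (B 232 (O 21) (B 105 (B 57
  (O 4) (B 89 (O 5) (U 2))) (B 57 (B 89 (O 3) (U 2)) (U 2))))))))))))))))) (B 108 (B 172 (O 13)
  (B 86 (O 16) (B 102 (O 16) (B 198 (O 16) (B 116 (O 16) (B 212 (O 16) (B 228 (O 16) (B 89 (O 20)
  (B 105 (O 20) (B 201 (O 20) (B 120 (O 20) (B 216 (O 20) (B 232 (O 20) (B 153 (B 57 (O 3) (B 169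
  (O 6) (U 2))) (B 57 (B 169 (O 4) (U 2)) (U 2)))))))))))))))) (B 172 (B 150 (O 17) (B 166 (O 17)
  (B 198 (O 17) (B 180 (O 17) (B 212 (O 17) (B 228 (O 17) (B 153 (O 21) (B 169 (O 21) (B 201 (O
  21) (B 184 (O 21) (B 216 (O 21) (B 232 (O 21) (B 177 (O 26) (B 225 (O 26) (B 209 (B 57 (O 3) (B
  89 (O 3) (U 2))) (U 6)))))))))))))))) (U 13)))))))))) (B 83 (B 147 (O 0) (B 99 (O 0) (B 163 (O
  0) (B 57 (O 3) (B 89 (O 3) (B 153 (O 3) (B 113 (O 3) (B 177 (O 3) (B 209 (O 3) (B 54 (O 9) (B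
  86 (O 9) (B 150 (O 9) (B 114 (O 9) (B 178 (O 9) (B 210 (O 9) (B 92 (O 23) (B 116 (O 23) (B 212
  (O 23) (B 120 (O 23) (B 216 (O 23) (B 240 (O 23) (B 156 (B 60 (O 13) (B 108 (O 13) (B 172 (O
  13) (B 180 (O 17) (U 14))))) (U 24))))))))))))))))))))))) (B 147 (B 99 (O 0) (B 163 (O 0) (B 57
  (O 3) (B 89 (O 3) (B 153 (O 3) (B 113 (O 3) (B 177 (O 3) (B 209 (O 3) (B 54 (O 9) (B 86 (O 9)
  (B 150 (O 9) (B 114 (O 9) (B 178 (O 9) (B 210 (O 9) (B 105 (B 169 (O 4) (B 201 (O 20) (U 2)))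
  (B 169 (B 201 (O 6) (U 2)) (U 2))))))))))))))))) (B 99 (B 163 (O 0) (B 57 (O 4) (B 105 (O 4) (B
  169 (O 4) (B 113 (O 4) (B 177 (O 4) (B 225 (O 4) (B 54 (O 10) (B 102 (O 10) (B 166 (O 10) (B
  114 (O 10) (B 178 (O 10) (B 226 (O 10) (B 153 (B 89 (O 3) (B 201 (O 21) (U 2))) (B 89 (B 201 (O
  5) (U 2)) (U 2)))))))))))))))) (B 163 (B 57 (O 4) (B 105 (O 4) (B 169 (O 4) (B 113 (O 4) (B 177
  (O 4) (B 225 (O 4) (B 54 (O 10) (B 102 (O 10) (B 166 (O 10) (B 114 (O 10) (B 178 (O 10) (B 226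
  (O 10) (B 172 (O 26) (B 180 (O 26) (B 228 (O 26) (B 184 (O 26) (B 232 (O 26) (B 240 (O 26) (B
  108 (B 60 (O 13) (B 92 (O 13) (B 156 (O 13) (B 116 (O 16) (U 15))))) (U 25))))))))))))))))))))
  (U 0)))))))))))))))))))))))))))))) (B 23 (B 39 (O 1) (B 71 (O 1) (B 135 (O 1) (B 29 (O 1) (B 45
  (O 1) (B 77 (O 1) (B 141 (O 1) (B 53 (O 1) (B 149 (O 1) (B 101 (O 1) (B 197 (O 1) (B 27 (O 3)
  (B 83 (O 3) (B 147 (O 3) (B 57 (O 3) (B 89 (O 3) (B 153 (O 3) (B 113 (O 3) (B 177 (O 3) (B 209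
  (O 3) (B 30 (O 9) (B 54 (O 9) (B 86 (O 9) (B 150 (O 9) (B 58 (O 9) (B 154 (O 9) (B 114 (O 9) (B
  178 (O 9) (B 210 (O 9) (B 195 (B 43 (O 0) (B 75 (O 0) (B 139 (O 0) (B 99 (O 0) (B 163 (O 0) (B
  105 (B 169 (O 4) (U 2)) (U 2))))))) (B 43 (B 75 (O 0) (B 139 (O 0) (B 99 (O 0) (B 163 (O 0) (B
  105 (O 4) (B 169 (O 4) (U 2))))))) (B 75 (B 139 (O 0) (B 99 (O 0) (B 163 (O 0) (B 46 (O 8) (B
  78 (O 8) (B 142 (O 8) (B 106 (O 8) (B 202 (O 8) (B 105 (O 20) (B 169 (B 201 (O 20) (U 2)) (U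
  2))))))))))) (B 139 (B 99 (O 0) (B 163 (O 0) (B 46 (O 8) (B 78 (O 8) (B 142 (O 8) (B 106 (O 8)
  (B 202 (O 8) (B 169 (O 21) (B 105 (B 201 (O 20) (U 2)) (U 2)))))))))) (B 105 (B 169 (O 4) (U
  2)) (U 2))))))))))))))))))))))))))))))))))) (B 39 (B 71 (O 1) (B 135 (O 1) (B 29 (O 1) (B 45 (O
  1) (B 77 (O 1) (B 141 (O 1) (B 53 (O 1) (B 149 (O 1) (B 101 (O 1) (B 197 (O 1) (B 43 (O 4) (B
  99 (O 4) (B 163 (O 4) (B 57 (O 4) (B 105 (O 4) (B 169 (O 4) (B 113 (O 4) (B 177 (O 4) (B 225 (O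
  4) (B 46 (O 10) (B 54 (O 10) (B 102 (O 10) (B 166 (O 10) (B 58 (O 10) (B 106 (O 10) (B 114 (O
  10) (B 178 (O 10) (B 226 (O 10) (B 195 (B 27 (O 0) (B 75 (O 0) (B 139 (O 0) (B 83 (O 0) (B 147
  (O 0) (B 89 (B 153 (O 3) (U 2)) (U 2))))))) (B 27 (B 75 (O 0) (B 139 (O 0) (B 83 (O 0) (B 147
  (O 0) (B 89 (O 3) (B 153 (O 3) (U 2))))))) (B 75 (B 139 (O 0) (B 83 (O 0) (B 147 (O 0) (B 30 (O
  8) (B 78 (O 8) (B 142 (O 8) (B 154 (O 8) (B 202 (O 8) (B 89 (O 20) (B 153 (B 201 (O 20) (U 2))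
  (U 2))))))))))) (B 139 (B 83 (O 0) (B 147 (O 0) (B 30 (O 8) (B 78 (O 8) (B 142 (O 8) (B 154 (O
  8) (B 202 (O 8) (B 153 (O 21) (B 89 (B 201 (O 20) (U 2)) (U 2)))))))))) (B 89 (B 153 (O 3) (U
  2)) (U 2)))))))))))))))))))))))))))))))))) (B 71 (B 135 (O 1) (B 29 (O 1) (B 45 (O 1) (B 77 (O
  1) (B 141 (O 1) (B 53 (O 1) (B 149 (O 1) (B 101 (O 1) (B 197 (O 1) (B 78 (O 16) (B 86 (O 16) (B
  102 (O 16) (B 198 (O 16) (B 92 (O 16) (B 108 (O 16) (B 116 (O 16) (B 212 (O 16) (B 228 (O 16)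
  (B 150 (B 27 (O 9) (B 83 (O 9) (B 147 (O 9) (B 30 (O 9) (B 54 (O 9) (B 58 (O 9) (B 154 (O 9) (B
  114 (O 9) (B 178 (O 9) (B 210 (O 9) (B 142 (O 17) (B 166 (O 17) (B 46 (B 43 (O 8) (B 75 (O 8)
  (B 139 (O 8) (B 106 (O 8) (B 202 (O 8) (B 99 (O 10) (B 163 (O 10) (B 195 (B 89 (O 5) (B 105 (O
  5) (B 201 (O 5) (B 57 (B 153 (O 3) (U 2)) (U 2))))) (U 0))))))))) (U 7)))))))))))))) (B 142 (B
  27 (O 8) (B 43 (O 8) (B 75 (O 8) (B 139 (O 8) (B 30 (O 8) (B 46 (O 8) (B 58 (O 8) (B 154 (O 8)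
  (B 106 (O 8) (B 202 (O 8) (B 166 (O 17) (B 54 (B 83 (O 9) (B 147 (O 9) (B 114 (O 9) (B 178 (O
  9) (B 210 (O 9) (B 99 (O 10) (B 163 (O 10) (B 195 (B 89 (O 5) (B 105 (O 5) (B 201 (O 5) (B 57
  (B 153 (O 3) (U 2)) (U 2))))) (U 0))))))))) (U 7))))))))))))) (B 166 (B 43 (O 10) (B 99 (O 10)
  (B 163 (O 10) (B 46 (O 10) (B 54 (O 10) (B 30 (B 27 (O 8) (B 75 (O 8) (B 139 (O 8) (B 58 (O 8)
  (B 154 (O 8) (B 106 (O 8) (B 202 (O 8) (B 83 (O 9) (B 147 (O 9) (B 195 (B 89 (O 5) (B 105 (O 5)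
  (B 201 (O 5) (B 57 (B 153 (O 3) (U 2)) (U 2))))) (U 0))))))))))) (U 7))))))) (B 30 (B 27 (O 8)
  (B 43 (O 8) (B 75 (O 8) (B 139 (O 8) (B 46 (O 8) (B 54 (O 9) (U 7))))))) (B 46 (B 54 (O 10) (U
  7)) (U 7)))))))))))))))))))))))) (B 135 (B 29 (O 1) (B 45 (O 1) (B 77 (O 1) (B 141 (O 1) (B 53
  (O 1) (B 149 (O 1) (B 101 (O 1) (B 197 (O 1) (B 142 (O 17) (B 150 (O 17) (B 166 (O 17) (B 198
  (O 17) (B 156 (O 17) (B 172 (O 17) (B 180 (O 17) (B 212 (O 17) (B 228 (O 17) (B 102 (B 43 (O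
  10) (B 99 (O 10) (B 163 (O 10) (B 46 (O 10) (B 54 (O 10) (B 58 (O 10) (B 106 (O 10) (B 114 (O
  10) (B 178 (O 10) (B 226 (O 10) (B 78 (O 16) (B 86 (O 16) (B 30 (B 27 (O 8) (B 75 (O 8) (B 139
  (O 8) (B 154 (O 8) (B 202 (O 8) (B 83 (O 9) (B 147 (O 9) (B 195 (B 153 (O 6) (B 169 (O 6) (B
  201 (O 6) (B 57 (B 89 (O 3) (U 2)) (U 2))))) (U 0))))))))) (U 7)))))))))))))) (B 78 (B 27 (O 8)
  (B 43 (O 8) (B 75 (O 8) (B 139 (O 8) (B 30 (O 8) (B 46 (O 8) (B 58 (O 8) (B 154 (O 8) (B 106 (O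
  8) (B 202 (O 8) (B 86 (O 16) (B 54 (B 83 (O 9) (B 147 (O 9) (B 114 (O 9) (B 178 (O 9) (B 210 (O
  9) (B 99 (O 10) (B 163 (O 10) (B 195 (B 153 (O 6) (B 169 (O 6) (B 201 (O 6) (B 57 (B 89 (O 3)
  (U 2)) (U 2))))) (U 0))))))))) (U 7))))))))))))) (B 86 (B 27 (O 9) (B 83 (O 9) (B 147 (O 9) (B
  30 (O 9) (B 54 (O 9) (B 46 (B 43 (O 8) (B 75 (O 8) (B 139 (O 8) (B 58 (O 8) (B 154 (O 8) (B 106
  (O 8) (B 202 (O 8) (B 114 (O 9) (B 178 (O 9) (B 210 (O 9) (B 99 (O 10) (B 163 (O 10) (B 195 (B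
  153 (O 6) (B 169 (O 6) (B 201 (O 6) (B 57 (B 89 (O 3) (U 2)) (U 2))))) (U 0)))))))))))))) (U
  7))))))) (B 30 (B 27 (O 8) (B 43 (O 8) (B 75 (O 8) (B 139 (O 8) (B 46 (O 8) (B 54 (O 9) (U
  7))))))) (B 46 (B 54 (O 10) (U 7)) (U 7))))))))))))))))))))))) (B 29 (B 45 (O 1) (B 77 (O 1) (B
  141 (O 1) (B 53 (O 1) (B 149 (O 1) (B 101 (O 1) (B 197 (O 1) (B 27 (O 3) (B 83 (O 3) (B 147 (O
  3) (B 57 (O 3) (B 89 (O 3) (B 153 (O 3) (B 113 (O 3) (B 177 (O 3) (B 209 (O 3) (B 105 (B 43 (O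
  4) (B 99 (O 4) (B 163 (O 4) (B 169 (O 4) (B 225 (O 4) (B 75 (O 20) (B 139 (B 195 (B 201 (O 2)
  (B 30 (O 8) (B 46 (O 8) (B 78 (O 8) (B 142 (O 8) (B 58 (O 8) (B 154 (O 8) (B 106 (O 8) (B 202
  (O 8) (B 150 (O 12) (B 166 (O 12) (B 198 (O 12) (B 54 (B 86 (O 9) (U 7)) (U 7)))))))))))))) (U
  0)) (U 0)))))))) (B 43 (B 99 (O 4) (B 163 (O 4) (B 169 (O 4) (B 225 (O 4) (B 75 (O 8) (B 195 (B
  139 (O 0) (B 201 (B 30 (O 8) (B 46 (O 8) (B 78 (O 8) (B 142 (O 8) (B 58 (O 8) (B 154 (O 8) (B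
  106 (O 8) (B 202 (O 8) (B 54 (O 10) (B 102 (O 10) (B 166 (O 10) (B 86 (B 150 (O 9) (U 7)) (U
  7))))))))))))) (U 2))) (U 5))))))) (B 99 (B 163 (O 4) (B 169 (O 4) (B 225 (O 4) (B 46 (O 10) (B
  54 (O 10) (B 102 (O 10) (B 166 (O 10) (B 58 (O 10) (B 106 (O 10) (B 114 (O 10) (B 178 (O 10) (B
  226 (O 10) (B 195 (B 75 (O 0) (B 139 (O 0) (U 2))) (B 139 (B 75 (O 0) (B 201 (O 21) (U 2))) (U
  6))))))))))))))) (B 163 (B 169 (O 4) (B 225 (O 4) (B 46 (O 10) (B 54 (O 10) (B 102 (O 10) (B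
  166 (O 10) (B 58 (O 10) (B 106 (O 10) (B 114 (O 10) (B 178 (O 10) (B 226 (O 10) (B 172 (O 26)
  (B 180 (O 26) (B 228 (O 26) (B 184 (O 26) (B 232 (O 26) (B 240 (O 26) (B 108 (B 30 (O 13) (B 78
  (O 13) (B 142 (O 13) (B 86 (O 16) (U 7))))) (U 25))))))))))))))))))) (B 169 (B 225 (O 4) (B 139
  (O 21) (B 75 (B 195 (B 201 (O 2) (B 30 (O 8) (B 46 (O 8) (B 78 (O 8) (B 142 (O 8) (B 58 (O 8)
  (B 154 (O 8) (B 106 (O 8) (B 202 (O 8) (B 86 (O 11) (B 102 (O 11) (B 198 (O 11) (B 54 (B 150 (O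
  9) (U 7)) (U 7)))))))))))))) (U 0)) (U 0)))) (B 225 (B 166 (O 26) (B 178 (O 26) (B 226 (O 26)
  (B 172 (O 26) (B 180 (O 26) (B 228 (O 26) (B 184 (O 26) (B 232 (O 26) (B 240 (O 26) (B 195 (B
  75 (O 5) (B 139 (O 6) (U 0))) (B 75 (B 139 (O 8) (U 0)) (U 0)))))))))))) (U
  4))))))))))))))))))))))) (B 45 (B 77 (O 1) (B 141 (O 1) (B 53 (O 1) (B 149 (O 1) (B 101 (O 1)
  (B 197 (O 1) (B 43 (O 4) (B 99 (O 4) (B 163 (O 4) (B 57 (O 4) (B 105 (O 4) (B 169 (O 4) (B 113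
  (O 4) (B 177 (O 4) (B 225 (O 4) (B 153 (B 27 (O 3) (B 83 (O 3) (B 147 (O 3) (B 89 (O 3) (B 209
  (O 3) (B 139 (O 21) (B 75 (B 195 (B 201 (O 2) (B 30 (O 8) (B 46 (O 8) (B 78 (O 8) (B 142 (O 8)
  (B 58 (O 8) (B 154 (O 8) (B 106 (O 8) (B 202 (O 8) (B 86 (O 11) (B 102 (O 11) (B 198 (O 11) (B
  54 (B 150 (O 9) (U 7)) (U 7)))))))))))))) (U 0)) (U 0)))))))) (B 27 (B 83 (O 3) (B 147 (O 3) (B
  89 (O 3) (B 209 (O 3) (B 75 (O 8) (B 195 (B 139 (O 0) (B 201 (B 30 (O 8) (B 46 (O 8) (B 78 (O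
  8) (B 142 (O 8) (B 58 (O 8) (B 154 (O 8) (B 106 (O 8) (B 202 (O 8) (B 54 (O 9) (B 86 (O 9) (B
  150 (O 9) (B 102 (B 166 (O 10) (U 7)) (U 7))))))))))))) (U 2))) (U 5))))))) (B 83 (B 147 (O 3)
  (B 89 (O 3) (B 209 (O 3) (B 30 (O 9) (B 54 (O 9) (B 86 (O 9) (B 150 (O 9) (B 58 (O 9) (B 154 (O
  9) (B 114 (O 9) (B 178 (O 9) (B 210 (O 9) (B 92 (O 23) (B 116 (O 23) (B 212 (O 23) (B 120 (O
  23) (B 216 (O 23) (B 240 (O 23) (B 156 (B 46 (O 13) (B 78 (O 13) (B 142 (O 13) (B 102 (B 166 (O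
  10) (U 7)) (U 7))))) (U 24)))))))))))))))))))) (B 147 (B 89 (O 3) (B 209 (O 3) (B 30 (O 9) (B
  54 (O 9) (B 86 (O 9) (B 150 (O 9) (B 58 (O 9) (B 154 (O 9) (B 114 (O 9) (B 178 (O 9) (B 210 (O
  9) (B 195 (B 75 (O 0) (B 139 (O 0) (U 2))) (B 75 (B 139 (O 0) (B 201 (O 20) (U 2))) (U
  5)))))))))))))) (B 89 (B 209 (O 3) (B 75 (O 20) (B 139 (B 195 (B 201 (O 2) (B 30 (O 8) (B 46 (O
  8) (B 78 (O 8) (B 142 (O 8) (B 58 (O 8) (B 154 (O 8) (B 106 (O 8) (B 202 (O 8) (B 150 (O 12) (B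
  166 (O 12) (B 198 (O 12) (B 54 (B 86 (O 9) (U 7)) (U 7)))))))))))))) (U 0)) (U 0)))) (B 209 (B
  86 (O 23) (B 114 (O 23) (B 210 (O 23) (B 92 (O 23) (B 116 (O 23) (B 212 (O 23) (B 120 (O 23) (B
  216 (O 23) (B 240 (O 23) (B 195 (B 75 (O 5) (B 139 (O 6) (U 0))) (B 75 (B 139 (O 8) (U 0)) (U
  0)))))))))))) (U 3)))))))))))))))))))))) (B 77 (B 141 (O 1) (B 53 (O 1) (B 149 (O 1) (B 101 (O
  1) (B 197 (O 1) (B 78 (O 16) (B 86 (O 16) (B 102 (O 16) (B 198 (O 16) (B 92 (O 16) (B 108 (O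
  16) (B 116 (O 16) (B 212 (O 16) (B 228 (O 16) (B 75 (O 20) (B 89 (O 20) (B 105 (O 20) (B 201 (O
  20) (B 106 (O 20) (B 202 (O 20) (B 120 (O 20) (B 216 (O 20) (B 232 (O 20) (B 195 (B 83 (O 5) (B
  99 (O 5) (B 113 (O 5) (B 209 (O 5) (B 225 (O 5) (B 114 (B 27 (O 9) (B 147 (O 9) (B 30 (O 9) (B
  54 (O 9) (B 150 (O 9) (B 46 (O 10) (U 7))))))) (U 25))))))) (B 83 (B 27 (O 3) (B 147 (O 3) (B
  57 (O 3) (B 153 (O 3) (B 113 (O 3) (B 177 (O 3) (B 209 (O 3) (B 99 (O 5) (B 225 (O 5) (B 30 (O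
  9) (B 54 (O 9) (B 150 (O 9) (B 46 (B 142 (O 8) (U 7)) (U 7)))))))))))))) (B 99 (B 43 (O 4) (B
  163 (O 4) (B 57 (O 4) (B 169 (O 4) (B 113 (O 4) (B 177 (O 4) (B 225 (O 4) (B 209 (O 5) (B 46 (O
  10) (B 54 (O 10) (B 166 (O 10) (B 30 (B 142 (O 8) (U 7)) (U 7))))))))))))) (B 113 (B 27 (O 3)
  (B 147 (O 3) (B 57 (O 3) (B 153 (O 3) (B 177 (O 3) (B 209 (O 3) (B 43 (O 4) (B 139 (B 163 (O 4)
  (U 0)) (U 0))))))))) (B 209 (B 27 (O 3) (B 147 (O 3) (B 57 (O 3) (B 153 (O 3) (B 177 (O 3) (B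
  225 (O 5) (B 114 (O 23) (U 25)))))))) (B 225 (B 43 (O 4) (B 163 (O 4) (B 57 (O 4) (B 169 (O 4)
  (B 177 (O 4) (B 166 (O 26) (B 178 (O 26) (B 226 (O 26) (B 114 (B 27 (O 9) (B 139 (B 147 (O 6)
  (U 0)) (U 0))) (U 11)))))))))) (U 5)))))))))))))))))))))))))))))) (B 141 (B 53 (O 1) (B 149 (O
  1) (B 101 (O 1) (B 197 (O 1) (B 142 (O 17) (B 150 (O 17) (B 166 (O 17) (B 198 (O 17) (B 156 (O
  17) (B 172 (O 17) (B 180 (O 17) (B 212 (O 17) (B 228 (O 17) (B 139 (O 21) (B 153 (O 21) (B 169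
  (O 21) (B 201 (O 21) (B 154 (O 21) (B 202 (O 21) (B 184 (O 21) (B 216 (O 21) (B 232 (O 21) (B
  195 (B 147 (O 6) (B 163 (O 6) (B 177 (O 6) (B 209 (O 6) (B 225 (O 6) (B 178 (B 27 (O 9) (B 83
  (O 9) (B 30 (O 9) (B 54 (O 9) (B 86 (O 9) (B 46 (O 10) (U 7))))))) (U 24))))))) (B 147 (B 27 (O
  3) (B 83 (O 3) (B 57 (O 3) (B 89 (O 3) (B 113 (O 3) (B 177 (O 3) (B 209 (O 3) (B 163 (O 6) (B
  225 (O 6) (B 30 (O 9) (B 54 (O 9) (B 86 (O 9) (B 46 (B 78 (O 8) (U 7)) (U 7)))))))))))))) (B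
  163 (B 43 (O 4) (B 99 (O 4) (B 57 (O 4) (B 105 (O 4) (B 113 (O 4) (B 177 (O 4) (B 225 (O 4) (B
  209 (O 6) (B 46 (O 10) (B 54 (O 10) (B 102 (O 10) (B 30 (B 78 (O 8) (U 7)) (U 7))))))))))))) (B
  177 (B 27 (O 3) (B 83 (O 3) (B 57 (O 3) (B 89 (O 3) (B 113 (O 3) (B 209 (O 3) (B 43 (O 4) (B 75
  (B 99 (O 4) (U 0)) (U 0))))))))) (B 209 (B 27 (O 3) (B 83 (O 3) (B 57 (O 3) (B 89 (O 3) (B 113
  (O 3) (B 225 (O 6) (B 86 (O 23) (B 114 (O 23) (B 210 (O 23) (B 178 (B 30 (O 9) (B 54 (O 9) (B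
  46 (O 10) (U 7)))) (U 12))))))))))) (B 225 (B 43 (O 4) (B 99 (O 4) (B 57 (O 4) (B 105 (O 4) (B
  113 (O 4) (B 178 (O 26) (U 24))))))) (U 6))))))))))))))))))))))))))))) (B 53 (B 149 (O 1) (B
  101 (O 1) (B 197 (O 1) (B 27 (O 3) (B 83 (O 3) (B 147 (O 3) (B 57 (O 3) (B 89 (O 3) (B 153 (O
  3) (B 113 (O 3) (B 177 (O 3) (B 209 (O 3) (B 43 (O 4) (B 99 (O 4) (B 163 (O 4) (B 105 (O 4) (B
  169 (O 4) (B 75 (B 139 (O 8) (U 2)) (U 2))))))))))))))))))) (B 149 (B 101 (O 1) (B 197 (O 1) (B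
  27 (O 3) (B 83 (O 3) (B 147 (O 3) (B 57 (O 3) (B 89 (O 3) (B 153 (O 3) (B 113 (O 3) (B 177 (O
  3) (B 209 (O 3) (B 142 (O 17) (B 150 (O 17) (B 166 (O 17) (B 198 (O 17) (B 156 (O 17) (B 172 (O
  17) (B 180 (O 17) (B 212 (O 17) (B 228 (O 17) (B 105 (B 43 (O 4) (B 99 (O 4) (B 163 (O 4) (B
  169 (O 4) (B 225 (O 4) (B 75 (O 20) (B 139 (B 195 (O 6) (U 0)) (U 0)))))))) (B 43 (B 99 (O 4)
  (B 163 (O 4) (B 169 (O 4) (B 225 (O 4) (B 75 (O 8) (B 139 (O 8) (U 2))))))) (B 75 (B 139 (O 8)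
  (B 169 (B 201 (O 6) (U 2)) (U 2))) (B 139 (B 169 (O 6) (U 2)) (U 2))))))))))))))))))))))))) (B
  101 (B 197 (O 1) (B 43 (O 4) (B 99 (O 4) (B 163 (O 4) (B 57 (O 4) (B 105 (O 4) (B 169 (O 4) (B
  113 (O 4) (B 177 (O 4) (B 225 (O 4) (B 78 (O 16) (B 86 (O 16) (B 102 (O 16) (B 198 (O 16) (B 92
  (O 16) (B 108 (O 16) (B 116 (O 16) (B 212 (O 16) (B 228 (O 16) (B 153 (B 27 (O 3) (B 83 (O 3)
  (B 147 (O 3) (B 89 (O 3) (B 209 (O 3) (B 139 (O 21) (B 75 (B 195 (O 5) (U 0)) (U 0)))))))) (B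
  27 (B 83 (O 3) (B 147 (O 3) (B 89 (O 3) (B 209 (O 3) (B 75 (O 8) (B 139 (O 8) (U 2))))))) (B 75
  (B 83 (O 5) (B 195 (O 5) (B 89 (O 5) (B 139 (O 8) (U 2))))) (B 139 (B 89 (B 201 (O 5) (U 2)) (U
  2)) (U 2)))))))))))))))))))))))) (B 197 (B 78 (O 16) (B 86 (O 16) (B 102 (O 16) (B 198 (O 16)
  (B 92 (O 16) (B 108 (O 16) (B 116 (O 16) (B 212 (O 16) (B 228 (O 16) (B 142 (O 17) (B 150 (O
  17) (B 166 (O 17) (B 30 (B 46 (O 8) (U 7)) (U 7)))))))))))))) (U 1))))))))))))))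

def t8 : Tr := (B 71 (O 11) (B 75 (O 11) (B 83 (O 11) (B 99 (O 11) (B 78 (O 11) (B 86 (O 11) (B 198 (O 11) (B
  106 (O 11) (B 202 (O 11) (B 114 (O 11) (B 210 (O 11) (B 226 (O 11) (B 135 (O 12) (B 139 (O 12)
  (B 147 (O 12) (B 163 (O 12) (B 142 (O 12) (B 166 (O 12) (B 154 (O 12) (B 178 (O 12) (B 77 (O
  16) (B 101 (O 16) (B 197 (O 16) (B 92 (O 16) (B 108 (O 16) (B 116 (O 16) (B 212 (O 16) (B 228
  (O 16) (B 141 (O 17) (B 149 (O 17) (B 156 (O 17) (B 172 (O 17) (B 180 (O 17) (B 15 (B 23 (O 1)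
  (B 39 (O 1) (B 29 (O 1) (B 45 (O 1) (B 53 (O 1) (B 30 (O 7) (B 46 (O 7) (B 54 (O 7) (B 27 (O 8)
  (B 43 (O 8) (B 51 (B 58 (O 8) (B 60 (B 153 (B 57 (O 3) (B 89 (O 3) (B 113 (O 3) (B 177 (O 3) (B
  209 (O 3) (B 169 (O 6) (B 201 (O 6) (B 105 (B 225 (O 4) (B 120 (O 18) (B 184 (O 18) (B 216 (O
  18) (B 232 (O 19) (B 240 E (U 22))))))) (U 2))))))))) (B 57 (B 89 (O 3) (B 113 (O 3) (B 177 (O
  3) (B 209 (O 3) (B 105 (O 4) (B 169 (O 4) (B 201 (B 225 (O 4) (B 120 (O 18) (B 184 (O 18) (B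
  216 (O 18) (U 24))))) (U 2)))))))) (B 89 (B 113 (O 3) (B 177 (O 3) (B 209 (O 3) (B 105 (O 5) (B
  201 (O 5) (B 169 (B 225 (O 4) (B 120 (O 18) (B 184 (O 18) (B 216 (O 18) (U 24))))) (U 2)))))))
  (B 105 (B 169 (O 4) (B 201 (O 5) (U 2))) (B 169 (B 201 (O 6) (U 2)) (U 2)))))) (U 13))) (U
  0)))))))))))) (B 23 (B 39 (O 1) (B 29 (O 1) (B 45 (O 1) (B 53 (O 1) (B 30 (O 7) (B 46 (O 7) (U
  13))))))) (B 39 (B 29 (O 1) (B 45 (O 1) (B 53 (O 1) (B 30 (O 7) (B 46 (O 7) (U 13)))))) (B 51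
  (B 27 (O 9) (B 43 (O 10) (U 0))) (B 27 (B 43 (O 8) (U 0)) (U
  0)))))))))))))))))))))))))))))))))))))))

/-- minimal defining sets of size 6, as masks of the 14 planes, with generator and parent -/
def L6 : List (ℕ × ℕ × ℕ) := [(783, 0, 0), (252, 1, 0), (819, 2, 0), (3267, 1, 1), (3132, 1, 2), (12483, 2, 3), (4032, 1, 4),
  (12348, 2, 4), (12303, 1, 5), (13248, 2, 6), (15552, 1, 7), (12492, 1, 8), (3123, 2, 8),
  (12339, 1, 9), (13059, 1, 10), (3312, 2, 11), (3852, 1, 12), (15372, 1, 13), (3087, 2, 13),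
  (3843, 2, 14), (1008, 1, 16), (13104, 2, 16), (15408, 2, 17), (972, 1, 18), (828, 1, 19),
  (16128, 1, 22), (243, 1, 23), (207, 2, 26)]

/-- minimal defining sets of size 8, with generator and parent -/
def L8 : List (ℕ × ℕ × ℕ) := [(10027, 0, 0), (5915, 0, 0), (10684, 1, 0), (6955, 2, 0), (5564, 1, 1), (5927, 2, 1), (6844, 0,
  2), (11986, 1, 2), (11035, 0, 3), (9916, 0, 4), (7634, 1, 4), (10007, 0, 5), (6524, 1, 5),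
  (7906, 1, 6), (7649, 0, 7), (15046, 2, 7), (11047, 2, 8), (11746, 1, 9), (12001, 0, 10),
  (13766, 2, 10), (9596, 1, 11), (6935, 2, 11), (10876, 0, 12), (7889, 1, 12), (11729, 0, 13),
  (14026, 2, 13), (13769, 2, 14), (14789, 0, 15), (12907, 1, 15), (14794, 2, 17), (15049, 2, 18),
  (14021, 0, 19), (12635, 1, 19), (5756, 0, 20), (12715, 1, 25), (12695, 1, 26), (12887, 1, 27),
  (14509, 1, 28), (3691, 2, 28), (12955, 1, 29), (12967, 1, 30), (12647, 1, 31), (13469, 1, 32),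
  (3431, 2, 32), (14494, 1, 34), (3499, 2, 34), (13406, 1, 35), (3479, 2, 35), (13421, 1, 36),
  (3671, 2, 36), (11449, 2, 37), (3419, 0, 38), (2989, 1, 38), (13486, 1, 39), (3751, 2, 39),
  (14446, 1, 40), (3739, 2, 40), (14429, 1, 41), (7349, 2, 42), (2909, 1, 43), (11446, 2, 44),
  (2974, 1, 45), (7286, 2, 46), (1886, 1, 47), (7289, 2, 48), (1901, 1, 49), (7354, 0, 50),
  (12166, 1, 50), (1949, 1, 51), (2806, 1, 52), (9145, 2, 52), (2926, 1, 54), (11386, 2, 55),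
  (1966, 1, 56), (11381, 2, 57), (8006, 1, 58), (1781, 1, 59), (9077, 2, 59), (12106, 1, 60),
  (1786, 1, 61), (9142, 2, 61), (8009, 1, 62), (1529, 1, 63), (4982, 2, 63), (8069, 1, 64),
  (2549, 1, 65), (4985, 2, 65), (8074, 1, 66), (9082, 1, 67), (15250, 2, 67), (1526, 1, 68),
  (5045, 2, 68), (8926, 2, 69), (5050, 0, 70), (2809, 1, 71), (12169, 1, 72), (2554, 1, 73),
  (12101, 1, 74), (14162, 2, 75), (4829, 2, 76), (15202, 2, 78), (4846, 2, 79), (14177, 2, 81),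
  (4589, 2, 82), (14225, 2, 84), (8669, 2, 85), (14242, 2, 87), (15265, 0, 89), (13882, 1, 89),
  (4574, 2, 90), (9451, 1, 92), (8941, 2, 94), (8686, 2, 96), (15185, 2, 97), (13625, 1, 98),
  (5351, 1, 99), (14905, 1, 100), (6379, 1, 101), (14645, 1, 102), (6359, 1, 103), (13622, 1,
  104), (9431, 1, 105), (14650, 1, 106), (14902, 1, 107), (15784, 1, 108), (7726, 2, 108), (5339,
  1, 109), (10639, 1, 110), (10471, 1, 111), (10459, 1, 112), (13877, 1, 113), (15764, 1, 114),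
  (7469, 2, 114), (6479, 1, 115), (16036, 1, 116), (11821, 2, 116), (6799, 1, 117), (15956, 1,
  118), (11549, 2, 118), (5711, 1, 119), (15704, 1, 120), (7454, 2, 120), (9551, 1, 121), (16024,
  1, 122), (11566, 2, 122), (15976, 1, 123), (11806, 2, 123), (7144, 1, 125), (5519, 1, 126),
  (10675, 2, 127), (10831, 1, 128), (9871, 1, 129), (15716, 1, 130), (7709, 2, 130), (7124, 1,
  132), (9587, 2, 133), (11236, 1, 135), (9907, 2, 136), (10196, 1, 138), (5747, 2, 139), (6104,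
  1, 141), (6515, 2, 142), (11224, 1, 144), (10216, 1, 146), (6835, 1, 147), (5555, 2, 148),
  (10867, 2, 150), (6116, 1, 153)]

/-- 56 designs: mask of common planes, list of blocks -/
def DES : List (ℕ × List ℕ) := [(5503, [15, 51, 195, 85, 165, 153, 105, 30, 102, 170, 210, 204, 180, 120]), (5823, [135, 51,
  195, 45, 85, 153, 105, 30, 102, 90, 170, 204, 180, 240]), (6103, [15, 51, 195, 85, 165, 153,
  105, 54, 198, 90, 170, 156, 108, 240]), (6123, [15, 147, 195, 85, 165, 57, 105, 54, 102, 90,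
  170, 156, 204, 240]), (6591, [135, 75, 51, 85, 165, 153, 105, 30, 102, 170, 210, 60, 204,
  240]), (6783, [15, 135, 51, 85, 153, 105, 225, 102, 90, 170, 210, 60, 204, 180]), (7131, [15,
  147, 99, 85, 165, 153, 105, 54, 198, 90, 170, 60, 204, 240]), (7143, [15, 51, 147, 85, 165,
  105, 201, 102, 198, 90, 170, 60, 156, 240]), (7645, [15, 51, 195, 85, 165, 153, 105, 86, 166,
  154, 106, 60, 204, 240]), (7662, [15, 51, 195, 149, 165, 89, 105, 86, 102, 154, 170, 60, 204,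
  240]), (7902, [15, 51, 195, 149, 101, 153, 105, 86, 166, 90, 170, 60, 204, 240]), (7917, [15,
  51, 195, 85, 149, 105, 169, 102, 166, 90, 154, 60, 204, 240]), (8053, [15, 51, 195, 85, 165,
  153, 105, 142, 102, 90, 178, 60, 212, 232]), (8058, [15, 23, 195, 165, 153, 105, 113, 102, 90,
  170, 178, 60, 204, 212]), (8118, [23, 51, 195, 77, 165, 153, 105, 142, 102, 90, 170, 60, 212,
  240]), (8121, [23, 43, 195, 85, 165, 153, 105, 142, 102, 90, 178, 60, 204, 240]), (9663, [75,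
  51, 195, 45, 85, 165, 153, 30, 150, 102, 170, 204, 120, 240]), (9855, [15, 51, 195, 45, 85,
  153, 225, 150, 102, 90, 170, 204, 180, 120]), (10203, [15, 99, 195, 85, 165, 57, 153, 54, 150,
  90, 170, 108, 204, 240]), (10215, [15, 51, 195, 85, 165, 57, 201, 150, 102, 90, 170, 156, 108,
  240]), (10623, [15, 75, 51, 85, 165, 153, 225, 150, 102, 170, 210, 60, 204, 120]), (10943,
  [135, 75, 51, 45, 85, 153, 225, 150, 102, 90, 170, 60, 204, 240]), (11223, [15, 51, 99, 85,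
  165, 153, 201, 150, 198, 90, 170, 60, 108, 240]), (11243, [15, 147, 99, 85, 165, 57, 201, 150,
  102, 90, 170, 60, 204, 240]), (11742, [15, 51, 195, 101, 165, 89, 153, 86, 150, 106, 170, 60,
  204, 240]), (11757, [15, 51, 195, 85, 165, 89, 169, 150, 102, 154, 106, 60, 204, 240]), (11997,
  [15, 51, 195, 85, 101, 153, 169, 150, 166, 90, 106, 60, 204, 240]), (12014, [15, 51, 195, 149,
  101, 89, 169, 150, 102, 90, 170, 60, 204, 240]), (12150, [15, 51, 195, 77, 165, 153, 113, 150,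
  102, 90, 170, 60, 212, 232]), (12153, [15, 43, 195, 85, 165, 153, 113, 150, 102, 90, 178, 60,
  204, 232]), (12213, [43, 51, 195, 77, 85, 165, 153, 142, 150, 102, 90, 60, 232, 240]), (12218,
  [23, 43, 195, 77, 165, 153, 113, 150, 102, 90, 170, 60, 204, 240]), (13813, [15, 51, 195, 85,
  165, 153, 105, 150, 102, 58, 202, 92, 172, 240]), (13818, [15, 83, 195, 53, 165, 153, 105, 150,
  102, 58, 170, 92, 204, 240]), (14070, [15, 51, 195, 53, 197, 153, 105, 150, 102, 90, 170, 92,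
  172, 240]), (14073, [15, 163, 195, 53, 85, 153, 105, 150, 102, 58, 90, 172, 204, 240]), (14173,
  [15, 51, 195, 85, 165, 153, 105, 46, 150, 90, 226, 204, 116, 184]), (14190, [15, 51, 195, 29,
  165, 105, 209, 150, 102, 90, 170, 204, 116, 184]), (14238, [71, 51, 195, 29, 165, 153, 105, 46,
  150, 90, 170, 204, 116, 240]), (14253, [139, 51, 195, 29, 85, 165, 105, 46, 150, 102, 90, 204,
  184, 240]), (14838, [15, 51, 83, 165, 197, 153, 105, 150, 102, 170, 202, 60, 92, 240]), (14841,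
  [15, 83, 163, 85, 165, 153, 105, 150, 102, 58, 202, 60, 204, 240]), (15093, [15, 51, 163, 85,
  197, 153, 105, 150, 102, 90, 202, 60, 172, 240]), (15098, [15, 83, 163, 53, 197, 153, 105, 150,
  102, 90, 170, 60, 204, 240]), (15198, [15, 71, 51, 165, 153, 105, 209, 150, 90, 170, 226, 60,
  204, 116]), (15213, [15, 139, 51, 85, 165, 105, 209, 150, 102, 90, 226, 60, 204, 184]), (15261,
  [71, 139, 51, 85, 165, 153, 105, 46, 150, 90, 226, 60, 204, 240]), (15278, [71, 139, 51, 29,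
  165, 105, 209, 150, 102, 90, 170, 60, 204, 240]), (15703, [15, 51, 195, 85, 165, 153, 105, 78,
  150, 170, 114, 60, 228, 216]), (15723, [15, 27, 195, 85, 165, 105, 177, 150, 102, 170, 114, 60,
  204, 216]), (15771, [39, 27, 195, 85, 165, 153, 105, 78, 150, 170, 114, 60, 204, 240]), (15783,
  [27, 51, 195, 141, 85, 165, 105, 78, 150, 102, 170, 60, 216, 240]), (15963, [15, 39, 195, 85,
  153, 105, 177, 150, 90, 170, 114, 60, 204, 228]), (15975, [15, 51, 195, 141, 85, 105, 177, 150,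
  102, 90, 170, 60, 228, 216]), (16023, [39, 51, 195, 141, 85, 153, 105, 78, 150, 90, 170, 60,
  228, 240]), (16043, [39, 27, 195, 141, 85, 105, 177, 150, 102, 90, 170, 60, 204, 240])]

def perm : List (List ℕ) := [[1, 0, 3, 2, 5, 4, 7, 6], [0, 2, 4, 6, 1, 3, 5, 7], [0, 3, 2, 1, 4, 7, 6, 5]]

def pinv : List (List ℕ) := [[1, 0, 2, 3, 5, 4, 6, 7, 9, 8, 10, 11, 13, 12], [6, 7, 0, 1, 8, 9, 2, 3, 10, 11, 4, 5, 12, 13], [0, 1, 4, 5, 2, 3, 6, 7, 8, 9, 12, 13, 10, 11]]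

end Pool.Agent.NH69.DS
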