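import Pool.Agent.NH69.DS1

set_option autoImplicit false

open Finset

namespace Pool.Agent.NH69.DS

/-- the subset of `Fin 8` with bit mask `m` -/
def mk (m : ℕ) : Finset (Fin 8) := univ.filter fun x => m.testBit x.val = true

/-- the masks of the blocks containing the `p`-th pair -/
def PB (p : ℕ) : List ℕ := BL.filter fun m => (m &&& (PR.getD p 0)) == PR.getD p 0

/-- checker: `inc` and `exc` are bit masks (indexed by block masks) of blocks known to be in and
known not to be in the design -/
def check : Tr → ℕ → ℕ → Bool
  | .O p, inc, _ => decide (p < 28) && decide (3 < (PB p).countP fun m => inc.testBit m)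
  | .U p, _, exc => decide (p < 28) && decide (12 < (PB p).countP fun m => exc.testBit m)
  | .E, inc, _ => PL.all fun m => inc.testBit m
  | .B b t1 t2, inc, exc => check t1 (inc ||| 2 ^ b) exc && check t2 inc (exc ||| 2 ^ b)

theorem PB_length : ∀ p < 28, (PB p).length = 15 := by
  decide +kernel

theorem check_sound (f : ℕ → Bool) (hf : ∀ p < 28, (PB p).countP f = 3) :
    ∀ (t : Tr) (inc exc : ℕ), (∀ m, inc.testBit m = true → f m = true) →
      (∀ m, exc.testBit m = true → f m = false) → check t inc exc = true →
      ∀ m ∈ PL, f m = true := by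
  intro t
  induction t with
  | O p =>
    intro inc exc h1 _ h3
    simp only [check, Bool.and_eq_true, decide_eq_true_eq] at h3
    have h4 := hf p h3.1
    have h5 : (PB p).countP (fun m => inc.testBit m) ≤ (PB p).countP f :=
      List.countP_mono_left fun x _ hx => h1 x hx
    omega
  | U p =>
    intro inc exc _ h2 h3
    simp only [check, Bool.and_eq_true, decide_eq_true_eq] at h3
    have h4 := hf p h3.1
    have h5 : (PB p).countP (fun m => exc.testBit m) ≤ (PB p).countP (fun m => !f m) :=
      List.countP_mono_left fun x _ hx => by simp [h2 x hx]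
    have h6 := PB_length p h3.1
    have h7 : (PB p).length = (PB p).countP f + (PB p).countP (fun m => !f m) := by
      have := List.length_eq_countP_add_countP (p := f) (l := PB p)
      rw [this]
      congr 1
      apply List.countP_congr
      intro x _
      simp
    omega
  | E =>
    intro inc exc h1 _ h3 m hm
    simp only [check, List.all_eq_true] at h3
    exact h1 m (h3 m hm)
  | B b t1 t2 ih1 ih2 =>
    intro inc exc h1 h2 h3
    simp only [check, Bool.and_eq_true] at h3
    cases hb : f b with
    | true =>
      refine ih1 _ _ ?_ h2 h3.1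
      intro m hm
      rw [Nat.testBit_or, Nat.testBit_two_pow, Bool.or_eq_true, decide_eq_true_eq] at hm
      rcases hm with hm | hm
      · exact h1 m hm
      · rw [← hm]; exact hb
    | false =>
      refine ih2 _ _ h1 ?_ h3.2
      intro m hm
      rw [Nat.testBit_or, Nat.testBit_two_pow, Bool.or_eq_true, decide_eq_true_eq] at hm
      rcases hm with hm | hm
      · exact h2 m hm
      · rw [← hm]; exact hb

/-- A (simple) `t-(v,k,lam)` design on the point set `Fin v`: a set `B` of `k`-subsets (blocks) such
that every `t`-subset of the points lies in exactly `lam` blocks. -/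
def IsDesign (t v k lam : ℕ) (B : Finset (Finset (Fin v))) : Prop :=
  (∀ b ∈ B, b.card = k) ∧
    ∀ T : Finset (Fin v), T.card = t → (B.filter fun b => T ⊆ b).card = lam

/-- `S` is a defining set of the design `D`: `D` is the only design on the same point set with the
same parameters whose block set contains `S`. -/
def IsDefining (t v k lam : ℕ) (D S : Finset (Finset (Fin v))) : Prop :=
  S ⊆ D ∧ ∀ D' : Finset (Finset (Fin v)), IsDesign t v k lam D' → S ⊆ D' → D' = D

/-- `S` is a minimal defining set of `D`: no proper subset of `S` is a defining set of `D`. -/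
def IsMinDefining (t v k lam : ℕ) (D S : Finset (Finset (Fin v))) : Prop :=
  IsDefining t v k lam D S ∧ ∀ S' : Finset (Finset (Fin v)), S' ⊂ S → ¬ IsDefining t v k lam D S'

/-- The spectrum of `D`: the set of sizes of minimal defining sets. -/
def Spec (t v k lam : ℕ) (D : Finset (Finset (Fin v))) : Set ℕ :=
  {m | ∃ S : Finset (Finset (Fin v)), IsMinDefining t v k lam D S ∧ S.card = m}

/-- A set of natural numbers has a hole: a missing number between two of its members. -/
def HasHole (A : Set ℕ) : Prop := ∃ a m b : ℕ, a ∈ A ∧ b ∈ A ∧ a < m ∧ m < b ∧ m ∉ A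

/-- The 14 planes of the affine space `AG(3,2)`. -/
def planes : Finset (Finset (Fin 8)) := (PL.map mk).toFinset

theorem mk_inj : ∀ a < 256, ∀ b < 256, mk a = mk b → a = b := by
  intro a ha b hb h
  apply Nat.eq_of_testBit_eq
  intro i
  by_cases hi : i < 8
  · have h1 : (⟨i, hi⟩ : Fin 8) ∈ mk a ↔ (⟨i, hi⟩ : Fin 8) ∈ mk b := by rw [h]
    simp only [mk, mem_filter, mem_univ, true_and] at h1
    cases ha' : a.testBit i <;> cases hb' : b.testBit i <;> simp_all
  · have h2 : a < 2 ^ i := lt_of_lt_of_le ha (by
      calc 256 = 2 ^ 8 := by norm_num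
        _ ≤ 2 ^ i := Nat.pow_le_pow_right (by norm_num) (by omega))
    have h3 : b < 2 ^ i := lt_of_lt_of_le hb (by
      calc 256 = 2 ^ 8 := by norm_num
        _ ≤ 2 ^ i := Nat.pow_le_pow_right (by norm_num) (by omega))
    rw [Nat.testBit_lt_two_pow h2, Nat.testBit_lt_two_pow h3]

theorem BL_lt : ∀ m ∈ BL, m < 256 := by decide +kernel

theorem PL_sub : ∀ m ∈ PL, m ∈ BL := by decide +kernel

theorem BL_nodup : BL.Nodup := by decide +kernel

theorem PB_eq : ∀ p < 28, (univ.powersetCard 4).filter (fun b : Finset (Fin 8) => mk (PR.getD p 0) ⊆ b)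
    = ((PB p).map mk).toFinset := by
  decide +kernel

theorem planes_card : planes.card = 14 := by decide +kernel

theorem planes_design : IsDesign 2 8 4 3 planes := by
  constructor
  · decide +kernel
  · intro T hT
    have : ∀ T ∈ (univ.powersetCard 2 : Finset (Finset (Fin 8))),
        (planes.filter fun b => T ⊆ b).card = 3 := by decide +kernel
    exact this T (by simp [mem_powersetCard, hT])

theorem PR_card : ∀ p < 28, (mk (PR.getD p 0)).card = 2 := by decide +kernel

end Pool.Agent.NH69.DS
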