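import Pool.Agent.NH69.DS2

set_option autoImplicit false

open Finset

namespace Pool.Agent.NH69.DS

def cov (s : ℕ) : Bool := (DES.any fun d => s &&& d.1 == s) || (L6.any fun d => d.1 &&& s == d.1) ||
    (L8.any fun d => d.1 &&& s == d.1)

theorem cover' : ∀ a < 128, ∀ b < 128, cov (a * 128 + b) = true := by
  decide +kernel

theorem t6_check : check t6 (PL.zipIdx.foldl (fun a p => if (783 : ℕ).testBit p.2 then a ||| 2 ^ p.1 else a) 0) 0 = true := by
  decide +kernel

theorem t8_check : check t8 (PL.zipIdx.foldl (fun a p => if (10027 : ℕ).testBit p.2 then a ||| 2 ^ p.1 else a) 0) 0 = true := by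
  decide +kernel

end Pool.Agent.NH69.DS
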