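import Pool.Agent.NH69.DS3

set_option autoImplicit false

open Finset

namespace Pool.Agent.NH69.DS

/-- the set of blocks with mask `m` (with respect to the list of the 14 planes) -/
def setOf (m : ℕ) : Finset (Finset (Fin 8)) :=
  (((List.range 14).filter fun i => m.testBit i).map fun i => mk (PL.getD i 0)).toFinset

theorem mem_setOf (m : ℕ) (b : Finset (Fin 8)) :
    b ∈ setOf m ↔ ∃ i < 14, m.testBit i = true ∧ mk (PL.getD i 0) = b := by
  unfold setOf
  simp only [List.mem_toFinset, List.mem_map, List.mem_filter, List.mem_range]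
  constructor
  · rintro ⟨i, ⟨h1, h2⟩, h3⟩
    exact ⟨i, h1, h2, h3⟩
  · rintro ⟨i, h1, h2, h3⟩
    exact ⟨i, ⟨h1, h2⟩, h3⟩

theorem mem_planes (b : Finset (Fin 8)) : b ∈ planes ↔ ∃ i < 14, mk (PL.getD i 0) = b := by
  have h : planes = setOf 16383 := by decide +kernel
  rw [h, mem_setOf]
  constructor
  · rintro ⟨i, h1, -, h3⟩
    exact ⟨i, h1, h3⟩
  · rintro ⟨i, h1, h3⟩
    refine ⟨i, h1, ?_, h3⟩
    have : ∀ i < 14, (16383 : ℕ).testBit i = true := by decide
    exact this i h1

theorem setOf_sub (m : ℕ) : setOf m ⊆ planes := by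
  intro b hb
  rw [mem_setOf] at hb
  rw [mem_planes]
  obtain ⟨i, h1, _, h3⟩ := hb
  exact ⟨i, h1, h3⟩

theorem pl_inj : ∀ i < 14, ∀ j < 14, mk (PL.getD i 0) = mk (PL.getD j 0) → i = j := by
  decide +kernel

theorem card_setOf : ∀ m : ℕ, (setOf m).card = ((List.range 14).filter fun i => m.testBit i).length := by
  intro m
  unfold setOf
  rw [List.card_toFinset, List.dedup_eq_self.2, List.length_map]
  refine List.Nodup.map_on ?_ (List.Nodup.filter _ List.nodup_range)
  intro i hi j hj h
  rw [List.mem_filter, List.mem_range] at hi hj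
  exact pl_inj i hi.1 j hj.1 h

theorem exists_mask (S : Finset (Finset (Fin 8))) (hS : S ⊆ planes) :
    ∃ m < 16384, S = setOf m := by
  refine ⟨Nat.ofBits fun i : Fin 14 => decide (mk (PL.getD i.val 0) ∈ S), ?_, ?_⟩
  · exact Nat.ofBits_lt_two_pow _
  · ext b
    rw [mem_setOf]
    constructor
    · intro hb
      obtain ⟨i, hi, h⟩ := (mem_planes b).1 (hS hb)
      refine ⟨i, hi, ?_, h⟩
      rw [Nat.testBit_ofBits_lt _ _ hi]
      simp only [decide_eq_true_eq]
      rw [h]
      exact hb
    · rintro ⟨i, hi, h1, h2⟩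
      rw [Nat.testBit_ofBits_lt _ _ hi] at h1
      simp only [decide_eq_true_eq] at h1
      rw [← h2]
      exact h1

/-- two designs with the same parameters, one contained in the other, are equal -/
theorem design_eq {t v k lam : ℕ} (htk : t ≤ k) {D D' : Finset (Finset (Fin v))}
    (hD : IsDesign t v k lam D) (hD' : IsDesign t v k lam D') (h : D ⊆ D') : D' = D := by
  refine (Finset.Subset.antisymm h ?_).symm
  intro b hb
  have hbk := hD'.1 b hb
  obtain ⟨T, hTb, hT⟩ := exists_subset_card_eq (show t ≤ b.card by omega)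
  have h1 := hD.2 T hT
  have h2 := hD'.2 T hT
  have h3 : D.filter (fun b => T ⊆ b) ⊆ D'.filter (fun b => T ⊆ b) := filter_subset_filter _ h
  have h4 := eq_of_subset_of_card_le h3 (by omega)
  have h5 : b ∈ D'.filter (fun b => T ⊆ b) := mem_filter.2 ⟨hb, hTb⟩
  rw [← h4] at h5
  exact (mem_filter.1 h5).1

theorem countP_design {D' : Finset (Finset (Fin 8))} (hD' : IsDesign 2 8 4 3 D') :
    ∀ p < 28, (PB p).countP (fun m => decide (mk m ∈ D')) = 3 := by
  intro p hp
  have h1 := hD'.2 (mk (PR.getD p 0)) (PR_card p hp)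
  rw [← h1]
  have h2 : D'.filter (fun b => mk (PR.getD p 0) ⊆ b) =
      (((PB p).filter fun m => decide (mk m ∈ D')).map mk).toFinset := by
    ext b
    simp only [mem_filter, List.mem_toFinset, List.mem_map, List.mem_filter, decide_eq_true_eq]
    have h3 := PB_eq p hp
    rw [Finset.ext_iff] at h3
    have h4 := h3 b
    simp only [mem_filter, mem_powersetCard, subset_univ, true_and, List.mem_toFinset,
      List.mem_map] at h4
    constructor
    · rintro ⟨hb, hsub⟩
      obtain ⟨m, hm, hmb⟩ := h4.1 ⟨hD'.1 b hb, hsub⟩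
      exact ⟨m, ⟨hm, by rw [hmb]; exact hb⟩, hmb⟩
    · rintro ⟨m, ⟨hm, hmD⟩, hmb⟩
      rw [hmb] at hmD
      exact ⟨hmD, (h4.2 ⟨m, hm, hmb⟩).2⟩
  rw [h2, List.card_toFinset, List.dedup_eq_self.2, List.length_map, List.countP_eq_length_filter]
  have hPB : ∀ m ∈ PB p, m ∈ BL := fun m hm => (List.mem_filter.1 hm).1
  refine List.Nodup.map_on ?_ (List.Nodup.filter _ (List.Nodup.filter _ BL_nodup))
  intro x hx y hy h
  exact mk_inj x (BL_lt x (hPB x (List.mem_filter.1 hx).1)) y
    (BL_lt y (hPB y (List.mem_filter.1 hy).1)) h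

theorem defining_of_check (m inc : ℕ) (hinc : ∀ j, inc.testBit j = true → mk j ∈ setOf m) (t : Tr)
    (h : check t inc 0 = true) : IsDefining 2 8 4 3 planes (setOf m) := by
  refine ⟨setOf_sub m, fun D' hD' hsub => ?_⟩
  have h1 := check_sound (fun j => decide (mk j ∈ D')) (countP_design hD') t inc 0
    (fun j hj => by simpa using hsub (hinc j hj)) (fun j hj => by simp at hj) h
  refine design_eq (by norm_num) planes_design hD' ?_
  intro b hb
  rw [mem_planes] at hb
  obtain ⟨i, hi, rfl⟩ := hb
  have h2 : PL.getD i 0 ∈ PL := by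
    have : ∀ i < 14, PL.getD i 0 ∈ PL := by decide
    exact this i hi
  simpa using h1 _ h2

/-- relabelling the points -/
def act {v : ℕ} (g : Equiv.Perm (Fin v)) (B : Finset (Finset (Fin v))) : Finset (Finset (Fin v)) :=
  B.image fun b => b.map g.toEmbedding

theorem act_symm {v : ℕ} (g : Equiv.Perm (Fin v)) (B : Finset (Finset (Fin v))) :
    act g.symm (act g B) = B := by
  unfold act
  rw [image_image]
  have h : (fun b : Finset (Fin v) => b.map g.symm.toEmbedding) ∘
      (fun b : Finset (Fin v) => b.map g.toEmbedding) = id := by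
    funext b
    ext x
    simp [Function.comp]
  rw [h, image_id]

theorem act_symm' {v : ℕ} (g : Equiv.Perm (Fin v)) (B : Finset (Finset (Fin v))) :
    act g (act g.symm B) = B := by
  have := act_symm g.symm B
  rwa [Equiv.symm_symm] at this

theorem design_act {t v k lam : ℕ} (g : Equiv.Perm (Fin v)) {B : Finset (Finset (Fin v))}
    (h : IsDesign t v k lam B) : IsDesign t v k lam (act g B) := by
  constructor
  · intro b hb
    obtain ⟨c, hc, rfl⟩ := mem_image.1 hb
    rw [card_map]
    exact h.1 c hc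
  · intro T hT
    have h1 := h.2 (T.map g.symm.toEmbedding) (by rw [card_map, hT])
    rw [← h1]
    have h2 : (act g B).filter (fun b => T ⊆ b) =
        (B.filter fun b => T.map g.symm.toEmbedding ⊆ b).image fun b => b.map g.toEmbedding := by
      ext b
      simp only [act, mem_filter, mem_image]
      constructor
      · rintro ⟨⟨c, hc, rfl⟩, hT⟩
        refine ⟨c, ⟨hc, ?_⟩, rfl⟩
        intro x hx
        obtain ⟨y, hy, rfl⟩ := mem_map.1 hx
        have := hT hy
        obtain ⟨z, hz, hzy⟩ := mem_map.1 this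
        rw [← hzy]
        simpa using hz
      · rintro ⟨c, ⟨hc, hT⟩, rfl⟩
        refine ⟨⟨c, hc, rfl⟩, ?_⟩
        intro y hy
        refine mem_map.2 ⟨g.symm y, hT (mem_map.2 ⟨y, hy, rfl⟩), by simp⟩
    rw [h2, card_image_of_injective]
    exact map_injective _

theorem defining_act {t v k lam : ℕ} (g : Equiv.Perm (Fin v)) {D S : Finset (Finset (Fin v))}
    (hg : act g D = D) (h : IsDefining t v k lam D S) : IsDefining t v k lam D (act g S) := by
  refine ⟨?_, fun D' hD' hsub => ?_⟩
  · rw [← hg]
    exact image_subset_image h.1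
  · have h1 : S ⊆ act g.symm D' := by
      have := image_subset_image (f := fun b => b.map g.symm.toEmbedding) hsub
      change act g.symm (act g S) ⊆ act g.symm D' at this
      rwa [act_symm] at this
    have h2 := h.2 _ (design_act g.symm hD') h1
    rw [← act_symm' g D', h2, hg]

end Pool.Agent.NH69.DS
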