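import Pool.Agent.NH69.DS4

set_option autoImplicit false

open Finset

namespace Pool.Agent.NH69.DS

theorem setOf_mono {a b : ℕ} (h : a &&& b = a) : setOf a ⊆ setOf b := by
  intro x hx
  rw [mem_setOf] at hx ⊢
  obtain ⟨i, hi, h1, h2⟩ := hx
  refine ⟨i, hi, ?_, h2⟩
  rw [← h, Nat.testBit_and, Bool.and_eq_true] at h1
  exact h1.2

def gf (k : ℕ) (x : Fin 8) : Fin 8 := Fin.ofNat 8 ((perm.getD k []).getD x.val 0)

theorem gf_bij : ∀ k < 3, Function.Bijective (gf k) := by
  decide +kernel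

noncomputable def gp (k : ℕ) (hk : k < 3) : Equiv.Perm (Fin 8) := Equiv.ofBijective (gf k) (gf_bij k hk)

def pin (k i : ℕ) : ℕ := (pinv.getD k []).getD i 0

def actm (k m : ℕ) : ℕ := Nat.ofBits fun i : Fin 14 => m.testBit (pin k i)

theorem pin_lt : ∀ k < 3, ∀ i < 14, pin k i < 14 := by decide +kernel

theorem pin_surj : ∀ k < 3, ∀ j < 14, ∃ i < 14, pin k i = j := by decide +kernel

theorem pin_spec : ∀ k < 3, ∀ i < 14, mk (PL.getD i 0) = (mk (PL.getD (pin k i) 0)).image (gf k) := by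
  decide +kernel

theorem setOf_actm (k m : ℕ) (hk : k < 3) : setOf (actm k m) = act (gp k hk) (setOf m) := by
  have him : ∀ b : Finset (Fin 8), b.map (gp k hk).toEmbedding = b.image (gf k) := by
    intro b
    rw [map_eq_image]
    rfl
  ext b
  rw [mem_setOf, act, mem_image]
  constructor
  · rintro ⟨i, hi, h1, rfl⟩
    rw [actm, Nat.testBit_ofBits_lt _ _ hi] at h1
    refine ⟨mk (PL.getD (pin k i) 0), ?_, ?_⟩
    · rw [mem_setOf]
      exact ⟨pin k i, pin_lt k hk i hi, h1, rfl⟩
    · rw [him]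
      exact (pin_spec k hk i hi).symm
  · rintro ⟨c, hc, rfl⟩
    rw [mem_setOf] at hc
    obtain ⟨j, hj, h1, rfl⟩ := hc
    obtain ⟨i, hi, rfl⟩ := pin_surj k hk j hj
    refine ⟨i, hi, ?_, ?_⟩
    · rw [actm, Nat.testBit_ofBits_lt _ _ hi]
      exact h1
    · rw [him]
      exact pin_spec k hk i hi

theorem act_planes (k : ℕ) (hk : k < 3) : act (gp k hk) planes = planes := by
  have h : planes = setOf 16383 := by decide +kernel
  have h2 : ∀ k < 3, actm k 16383 = 16383 := by decide +kernel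
  rw [h, ← setOf_actm, h2 k hk]

theorem closure_check (L : List (ℕ × ℕ × ℕ)) (r : ℕ)
    (hr : IsDefining 2 8 4 3 planes (setOf r))
    (hL : ∀ i < L.length, (L.getD i (0, 0, 0)).1 = r ∨
      ((L.getD i (0, 0, 0)).2.1 < 3 ∧ (L.getD i (0, 0, 0)).2.2 < i ∧
        (L.getD i (0, 0, 0)).1 = actm (L.getD i (0, 0, 0)).2.1
          (L.getD (L.getD i (0, 0, 0)).2.2 (0, 0, 0)).1)) :
    ∀ d ∈ L, IsDefining 2 8 4 3 planes (setOf d.1) := by
  have h : ∀ i < L.length, IsDefining 2 8 4 3 planes (setOf (L.getD i (0, 0, 0)).1) := by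
    intro i
    induction i using Nat.strong_induction_on with
    | _ i ih =>
      intro hi
      rcases hL i hi with h1 | ⟨h1, h2, h3⟩
      · rw [h1]
        exact hr
      · rw [h3, setOf_actm _ _ h1]
        exact defining_act _ (act_planes _ h1) (ih _ h2 (by omega))
  intro d hd
  obtain ⟨i, hi, rfl⟩ := List.getElem_of_mem hd
  have := h i hi
  rwa [List.getD_eq_getElem _ _ hi] at this

def inc6 : ℕ := PL.zipIdx.foldl (fun a p => if (783 : ℕ).testBit p.2 then a ||| 2 ^ p.1 else a) 0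

def inc8 : ℕ := PL.zipIdx.foldl (fun a p => if (10027 : ℕ).testBit p.2 then a ||| 2 ^ p.1 else a) 0

theorem def6 : IsDefining 2 8 4 3 planes (setOf 783) := by
  refine defining_of_check 783 inc6 ?_ t6 t6_check
  have h1 : ∀ j < 256, inc6.testBit j = true → mk j ∈ setOf 783 := by decide +kernel
  have h2 : inc6 < 2 ^ 256 := by decide +kernel
  intro j hj
  by_cases h : j < 256
  · exact h1 j h hj
  · rw [Nat.testBit_lt_two_pow (lt_of_lt_of_le h2 (Nat.pow_le_pow_right (by norm_num) (by omega)))] at hj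
    exact absurd hj (by simp)

theorem def8 : IsDefining 2 8 4 3 planes (setOf 10027) := by
  refine defining_of_check 10027 inc8 ?_ t8 t8_check
  have h1 : ∀ j < 256, inc8.testBit j = true → mk j ∈ setOf 10027 := by decide +kernel
  have h2 : inc8 < 2 ^ 256 := by decide +kernel
  intro j hj
  by_cases h : j < 256
  · exact h1 j h hj
  · rw [Nat.testBit_lt_two_pow (lt_of_lt_of_le h2 (Nat.pow_le_pow_right (by norm_num) (by omega)))] at hj
    exact absurd hj (by simp)

theorem defL6 : ∀ d ∈ L6, IsDefining 2 8 4 3 planes (setOf d.1) :=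
  closure_check L6 783 def6 (by decide +kernel)

theorem defL8 : ∀ d ∈ L8, IsDefining 2 8 4 3 planes (setOf d.1) :=
  closure_check L8 10027 def8 (by decide +kernel)

theorem cardL6 : ∀ d ∈ L6, ((List.range 14).filter fun i => d.1.testBit i).length = 6 := by
  decide +kernel

theorem cardL8 : ∀ d ∈ L8, ((List.range 14).filter fun i => d.1.testBit i).length = 8 := by
  decide +kernel

def des (l : List ℕ) : Finset (Finset (Fin 8)) := (l.map mk).toFinset

theorem des_check : ∀ d ∈ DES, (∀ b ∈ des d.2, b.card = 4) ∧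
    (∀ T ∈ (univ.powersetCard 2 : Finset (Finset (Fin 8))), ((des d.2).filter fun b => T ⊆ b).card = 3) ∧
    setOf d.1 ⊆ des d.2 ∧ des d.2 ≠ planes := by
  decide +kernel

theorem not_defining {S : Finset (Finset (Fin 8))} {d : ℕ × List ℕ} (hd : d ∈ DES)
    (hS : S ⊆ setOf d.1) : ¬ IsDefining 2 8 4 3 planes S := by
  intro h
  obtain ⟨h1, h2, h3, h4⟩ := des_check d hd
  refine h4 (h.2 (des d.2) ⟨h1, fun T hT => ?_⟩ (hS.trans h3))
  exact h2 T (by simp [mem_powersetCard, hT])

theorem min_check (m : ℕ) (hm : IsDefining 2 8 4 3 planes (setOf m))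
    (h : ∀ i < 14, m.testBit i = true → ∃ d ∈ DES, (m ^^^ 2 ^ i) &&& d.1 = m ^^^ 2 ^ i) :
    IsMinDefining 2 8 4 3 planes (setOf m) := by
  refine ⟨hm, fun S' hS' => ?_⟩
  obtain ⟨b, hb, hbS⟩ := exists_of_ssubset hS'
  rw [mem_setOf] at hb
  obtain ⟨i, hi, hmi, rfl⟩ := hb
  obtain ⟨d, hd, hd'⟩ := h i hi hmi
  refine not_defining hd (Subset.trans ?_ (setOf_mono hd'))
  intro c hc
  have h1 := hS'.1 hc
  rw [mem_setOf] at h1 ⊢
  obtain ⟨j, hj, hmj, rfl⟩ := h1
  refine ⟨j, hj, ?_, rfl⟩
  have hij : i ≠ j := by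
    rintro rfl
    exact hbS hc
  rw [Nat.testBit_xor, Nat.testBit_two_pow_of_ne hij, hmj]
  rfl

theorem min6 : IsMinDefining 2 8 4 3 planes (setOf 783) :=
  min_check 783 def6 (by decide +kernel)

theorem min8 : IsMinDefining 2 8 4 3 planes (setOf 10027) :=
  min_check 10027 def8 (by decide +kernel)

theorem cover (s : ℕ) (hs : s < 16384) : cov s = true := by
  have h := cover' (s / 128) (by omega) (s % 128) (by omega)
  rwa [Nat.div_add_mod'] at h

theorem spec_eq : Spec 2 8 4 3 planes = {6, 8} := by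
  ext n
  simp only [Set.mem_insert_iff, Set.mem_singleton_iff]
  constructor
  · rintro ⟨S, hS, rfl⟩
    obtain ⟨s, hs, rfl⟩ := exists_mask S hS.1.1
    have h := cover s hs
    unfold cov at h
    rw [Bool.or_eq_true, Bool.or_eq_true, List.any_eq_true, List.any_eq_true, List.any_eq_true] at h
    rcases h with (⟨d, hd, h⟩ | ⟨d, hd, h⟩) | ⟨d, hd, h⟩
    · rw [beq_iff_eq] at h
      exact absurd hS.1 (not_defining hd (setOf_mono h))
    · rw [beq_iff_eq] at h
      have h1 := setOf_mono h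
      have h2 : setOf d.1 = setOf s := by
        by_contra hne
        exact hS.2 _ (lt_of_le_of_ne h1 hne) (defL6 d hd)
      left
      rw [← h2, card_setOf, cardL6 d hd]
    · rw [beq_iff_eq] at h
      have h1 := setOf_mono h
      have h2 : setOf d.1 = setOf s := by
        by_contra hne
        exact hS.2 _ (lt_of_le_of_ne h1 hne) (defL8 d hd)
      right
      rw [← h2, card_setOf, cardL8 d hd]
  · rintro (rfl | rfl)
    · refine ⟨setOf 783, min6, ?_⟩
      rw [card_setOf]
      decide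
    · refine ⟨setOf 10027, min8, ?_⟩
      rw [card_setOf]
      decide

end Pool.Agent.NH69.DS
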