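import Mathlib

set_option autoImplicit false

namespace Pool.Agent.NH69.SP

open Finset

/-- functions on the vertices of the cube -/
abbrev R (S : Type) (m : ℕ) := (Fin m → Bool) → S

variable (S : Type) [CommRing S]

/-- splitting along the first coordinate -/
def sp (m : ℕ) : R S (m + 1) ≃ₗ[S] (R S m × R S m) where
  toFun f := (fun v => f (Fin.cons false v), fun v => f (Fin.cons true v))
  invFun g := fun v => if v 0 then g.2 (Fin.tail v) else g.1 (Fin.tail v)
  map_add' f g := by ext <;> simp
  map_smul' c f := by ext <;> simp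
  left_inv f := by
    ext v
    have h : Fin.cons (v 0) (Fin.tail v) = v := Fin.cons_self_tail v
    by_cases hv : v 0 = true
    · rw [hv] at h
      simp only [hv, if_true, h]
    · have hv' : v 0 = false := by simpa using hv
      rw [hv'] at h
      simp only [hv', h]
      simp
  right_inv g := by
    refine Prod.ext ?_ ?_
    · ext v; simp
    · ext v; simp

/-- block operator -/
def blk (m : ℕ) (a b c d : R S m →ₗ[S] R S m) : R S (m + 1) →ₗ[S] R S (m + 1) :=
  (sp S m).symm.toLinearMap ∘ₗ
    (LinearMap.prod (a ∘ₗ LinearMap.fst S _ _ + b ∘ₗ LinearMap.snd S _ _)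
      (c ∘ₗ LinearMap.fst S _ _ + d ∘ₗ LinearMap.snd S _ _)) ∘ₗ (sp S m).toLinearMap

lemma sp_blk (m : ℕ) (a b c d : R S m →ₗ[S] R S m) (x : R S (m + 1)) :
    sp S m (blk S m a b c d x) =
      (a (sp S m x).1 + b (sp S m x).2, c (sp S m x).1 + d (sp S m x).2) := by
  simp [blk]

/-- The operator `T` (multiplication by `∑ y_i`). -/
def T : ∀ m, R S m →ₗ[S] R S m
  | 0 => 0
  | m + 1 => blk S m (T m) 0 LinearMap.id (T m + (2 : S) • LinearMap.id)

/-- The antipodal automorphism `y_i ↦ 2 - y_i`. -/
def sg : ∀ m, R S m →ₗ[S] R S m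
  | 0 => LinearMap.id
  | m + 1 => blk S m (sg m) ((2 : S) • sg m) 0 (-(sg m))

/-- `(σ - 1) / 2`. -/
def ta : ∀ m, R S m →ₗ[S] R S m
  | 0 => 0
  | m + 1 => blk S m (ta m) (sg S m) 0 (-(ta m) - LinearMap.id)

/-- diagonal operators -/
def D : ∀ m, (ℕ → S) → R S m →ₗ[S] R S m
  | 0, p => p 0 • LinearMap.id
  | m + 1, p => blk S m (D m p) 0 0 (D m (fun j => p (j + 1)))

/-- symmetric elements `∑ c_j e_j` -/
def E : ∀ m, (ℕ → S) → R S m
  | 0, c => fun _ => c 0
  | m + 1, c => (sp S m).symm (E m c, E m (fun j => c (j + 1)))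

/-- symmetric functionals -/
def F : ∀ m, (ℕ → S) → R S m →ₗ[S] S
  | 0, c => c 0 • LinearMap.proj default
  | m + 1, c => (F m c ∘ₗ LinearMap.fst S _ _ + F m (fun j => c (j + 1)) ∘ₗ LinearMap.snd S _ _) ∘ₗ
      (sp S m).toLinearMap

/-- coefficient of `1` -/
def ev (m : ℕ) : R S m →ₗ[S] S := LinearMap.proj (fun _ => false)

variable {S}

lemma sp_T (m : ℕ) (x : R S (m + 1)) : sp S m (T S (m + 1) x) =
    (T S m (sp S m x).1, (sp S m x).1 + (T S m (sp S m x).2 + (2 : S) • (sp S m x).2)) := by
  simp [T, sp_blk]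

lemma sp_sg (m : ℕ) (x : R S (m + 1)) : sp S m (sg S (m + 1) x) =
    (sg S m (sp S m x).1 + (2 : S) • sg S m (sp S m x).2, -(sg S m (sp S m x).2)) := by
  simp [sg, sp_blk]

lemma sp_ta (m : ℕ) (x : R S (m + 1)) : sp S m (ta S (m + 1) x) =
    (ta S m (sp S m x).1 + sg S m (sp S m x).2, -(ta S m (sp S m x).2) - (sp S m x).2) := by
  simp [ta, sp_blk]

lemma sp_D (m : ℕ) (p : ℕ → S) (x : R S (m + 1)) : sp S m (D S (m + 1) p x) =
    (D S m p (sp S m x).1, D S m (fun j => p (j + 1)) (sp S m x).2) := by
  simp [D, sp_blk]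

lemma sp_E (m : ℕ) (c : ℕ → S) : sp S m (E S (m + 1) c) = (E S m c, E S m (fun j => c (j + 1))) := by
  simp [E]

lemma F_succ (m : ℕ) (c : ℕ → S) (x : R S (m + 1)) : F S (m + 1) c x =
    F S m c (sp S m x).1 + F S m (fun j => c (j + 1)) (sp S m x).2 := by
  simp [F]

lemma ev_succ (m : ℕ) (x : R S (m + 1)) : ev S (m + 1) x = ev S m (sp S m x).1 := by
  simp only [ev, LinearMap.proj_apply, sp, LinearEquiv.coe_mk, LinearMap.coe_mk, AddHom.coe_mk]
  congr 1
  funext i
  refine Fin.cases ?_ (fun j => ?_) i <;> simp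

/-- `σσ = 1` -/
lemma sg_sg (m : ℕ) (x : R S m) : sg S m (sg S m x) = x := by
  induction m with
  | zero => rfl
  | succ m ih =>
    apply (sp S m).injective
    rw [sp_sg, sp_sg]
    refine Prod.ext ?_ ?_
    · simp [ih]
    · simp [ih]

/-- `σ T = 2m σ - T σ` -/
lemma sg_T (m : ℕ) (x : R S m) : sg S m (T S m x) = (2 * m : S) • sg S m x - T S m (sg S m x) := by
  induction m with
  | zero => simp [T]
  | succ m ih =>
    apply (sp S m).injective
    rw [map_sub, map_smul, sp_sg, sp_sg, sp_T, sp_T, sp_sg]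
    refine Prod.ext ?_ ?_
    · simp only [Prod.fst_sub, Prod.smul_fst, map_add, map_smul, ih]
      push_cast
      module
    · simp only [Prod.snd_sub, Prod.smul_snd, map_add, map_smul, map_neg, ih]
      push_cast
      module

/-- `σ = 1 + 2 τ` -/
lemma sg_eq (m : ℕ) (x : R S m) : sg S m x = x + (2 : S) • ta S m x := by
  induction m with
  | zero => simp [sg, ta]
  | succ m ih =>
    apply (sp S m).injective
    rw [map_add, map_smul, sp_sg, sp_ta]
    refine Prod.ext ?_ ?_
    · simp only [Prod.fst_add, Prod.smul_fst, ih]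
      module
    · simp only [Prod.snd_add, Prod.smul_snd, ih]
      module

lemma D_congr (m : ℕ) (p q : ℕ → S) (h : ∀ j ≤ m, p j = q j) (x : R S m) :
    D S m p x = D S m q x := by
  induction m generalizing p q with
  | zero => simp [D, h 0 le_rfl]
  | succ m ih =>
    apply (sp S m).injective
    rw [sp_D, sp_D]
    rw [ih p q (fun j hj => h j (by omega)), ih (fun j => p (j + 1)) (fun j => q (j + 1))
      (fun j hj => h (j + 1) (by omega))]

lemma D_add (m : ℕ) (p q : ℕ → S) (x : R S m) :
    D S m (fun j => p j + q j) x = D S m p x + D S m q x := by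
  induction m generalizing p q with
  | zero => simp [D, add_smul]
  | succ m ih =>
    apply (sp S m).injective
    rw [map_add, sp_D, sp_D, sp_D]
    rw [ih p q, ih (fun j => p (j + 1)) (fun j => q (j + 1))]
    rfl

lemma D_mul (m : ℕ) (p q : ℕ → S) (x : R S m) :
    D S m p (D S m q x) = D S m (fun j => p j * q j) x := by
  induction m generalizing p q with
  | zero => simp [D, mul_comm, smul_smul]
  | succ m ih =>
    apply (sp S m).injective
    rw [sp_D, sp_D, sp_D]
    rw [ih p q, ih (fun j => p (j + 1)) (fun j => q (j + 1))]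

lemma D_one (m : ℕ) (x : R S m) : D S m (fun _ => 1) x = x := by
  induction m with
  | zero => simp [D]
  | succ m ih =>
    apply (sp S m).injective
    rw [sp_D, ih, ih]

lemma D_smul (m : ℕ) (c : S) (p : ℕ → S) (x : R S m) :
    D S m (fun j => c * p j) x = c • D S m p x := by
  induction m generalizing p with
  | zero => simp [D, smul_smul]
  | succ m ih =>
    apply (sp S m).injective
    rw [map_smul, sp_D, sp_D, ih, ih]
    rfl

/-- `T D_{q∘succ} = D_q T + D_h`, `h_j = 2 j (q_{j+1} - q_j)`. -/
lemma T_D (m : ℕ) (q : ℕ → S) (x : R S m) :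
    T S m (D S m (fun j => q (j + 1)) x) = D S m q (T S m x) +
      D S m (fun j => 2 * (j : S) * (q (j + 1) - q j)) x := by
  induction m generalizing q with
  | zero => simp [T, D]
  | succ m ih =>
    apply (sp S m).injective
    rw [map_add, sp_T, sp_D, sp_D, sp_D, sp_T]
    refine Prod.ext ?_ ?_
    · simp only [Prod.fst_add]
      exact ih q _
    · simp only [Prod.snd_add]
      rw [ih (fun j => q (j + 1))]
      have h1 : D S m (fun j => 2 * ((j + 1 : ℕ) : S) * (q (j + 1 + 1) - q (j + 1))) (sp S m x).2 =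
          D S m (fun j => 2 * (j : S) * (q (j + 1 + 1) - q (j + 1))) (sp S m x).2 +
          ((2 : S) • D S m (fun j => q (j + 1 + 1)) (sp S m x).2
            - (2 : S) • D S m (fun j => q (j + 1)) (sp S m x).2) := by
        have h2 : D S m (fun j => 2 * ((j + 1 : ℕ) : S) * (q (j + 1 + 1) - q (j + 1))) (sp S m x).2
            + (2 : S) • D S m (fun j => q (j + 1)) (sp S m x).2 =
            D S m (fun j => 2 * (j : S) * (q (j + 1 + 1) - q (j + 1))) (sp S m x).2 +
            (2 : S) • D S m (fun j => q (j + 1 + 1)) (sp S m x).2 := by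
          rw [← D_smul, ← D_smul, ← D_add, ← D_add]
          congr 2
          funext j
          push_cast
          ring
        rw [← add_sub_assoc, ← h2]; abel
      rw [h1]
      simp only [map_add, map_smul]
      module

lemma ev_T (m : ℕ) (x : R S m) : ev S m (T S m x) = 0 := by
  induction m with
  | zero => simp [T]
  | succ m ih => rw [ev_succ, sp_T, ih]

lemma ev_D (m : ℕ) (p : ℕ → S) (x : R S m) : ev S m (D S m p x) = p 0 * ev S m x := by
  induction m with
  | zero => simp [ev, D]
  | succ m ih => rw [ev_succ, sp_D, ih, ev_succ]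

lemma ev_E (m : ℕ) (c : ℕ → S) : ev S m (E S m c) = c 0 := by
  induction m with
  | zero => simp [ev, E]
  | succ m ih => rw [ev_succ, sp_E, ih]

lemma E_congr (m : ℕ) (p q : ℕ → S) (h : ∀ j ≤ m, p j = q j) : E S m p = E S m q := by
  induction m generalizing p q with
  | zero => simp [E, h 0 le_rfl]
  | succ m ih =>
    apply (sp S m).injective
    rw [sp_E, sp_E, ih p q (fun j hj => h j (by omega)),
      ih (fun j => p (j + 1)) (fun j => q (j + 1)) (fun j hj => h (j + 1) (by omega))]

lemma E_add (m : ℕ) (p q : ℕ → S) : E S m (fun j => p j + q j) = E S m p + E S m q := by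
  induction m generalizing p q with
  | zero => rfl
  | succ m ih =>
    apply (sp S m).injective
    rw [map_add, sp_E, sp_E, sp_E, ih p q, ih (fun j => p (j + 1)) (fun j => q (j + 1))]
    rfl

lemma E_smul (m : ℕ) (c : S) (p : ℕ → S) : E S m (fun j => c * p j) = c • E S m p := by
  induction m generalizing p with
  | zero => rfl
  | succ m ih =>
    apply (sp S m).injective
    rw [map_smul, sp_E, sp_E, ih, ih]
    rfl

lemma D_E (m : ℕ) (p c : ℕ → S) : D S m p (E S m c) = E S m (fun j => p j * c j) := by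
  induction m generalizing p c with
  | zero => funext v; simp [D, E]
  | succ m ih =>
    apply (sp S m).injective
    rw [sp_D, sp_E, sp_E, ih, ih]

/-- `T E(c) = E(c')`, `c'_j = 2 j c_j + j c_{j-1}`. -/
lemma T_E (m : ℕ) (c : ℕ → S) :
    T S m (E S m c) = E S m (fun j => 2 * (j : S) * c j + (j : S) * c (j - 1)) := by
  induction m generalizing c with
  | zero => funext v; simp [T, E]
  | succ m ih =>
    apply (sp S m).injective
    rw [sp_T, sp_E, sp_E, ih c, ih (fun j => c (j + 1))]
    refine Prod.ext rfl ?_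
    simp only
    rw [← E_smul, ← E_add, ← E_add]
    apply E_congr
    intro j hj
    rcases j with _ | j
    · simp; ring
    · simp only [Nat.add_sub_cancel, Nat.cast_add, Nat.cast_one]
      ring

lemma F_congr (m : ℕ) (p q : ℕ → S) (h : ∀ j ≤ m, p j = q j) (x : R S m) :
    F S m p x = F S m q x := by
  induction m generalizing p q with
  | zero => simp [F, h 0 le_rfl]
  | succ m ih =>
    rw [F_succ, F_succ, ih p q (fun j hj => h j (by omega)),
      ih (fun j => p (j + 1)) (fun j => q (j + 1)) (fun j hj => h (j + 1) (by omega))]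

lemma F_add (m : ℕ) (p q : ℕ → S) (x : R S m) :
    F S m (fun j => p j + q j) x = F S m p x + F S m q x := by
  induction m generalizing p q with
  | zero => simp [F, add_mul]
  | succ m ih =>
    rw [F_succ, F_succ, F_succ, ih p q, ih (fun j => p (j + 1)) (fun j => q (j + 1))]
    ring

lemma F_smul (m : ℕ) (c : S) (p : ℕ → S) (x : R S m) :
    F S m (fun j => c * p j) x = c * F S m p x := by
  induction m generalizing p with
  | zero => simp [F, mul_assoc]
  | succ m ih =>
    rw [F_succ, F_succ, ih, ih]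
    ring

lemma F_delta (m : ℕ) (x : R S m) : F S m (fun j => if j = 0 then 1 else 0) x = ev S m x := by
  induction m with
  | zero => simp [F, ev]
  | succ m ih =>
    rw [F_succ, ih, ev_succ]
    have h : F S m (fun j => if j + 1 = 0 then (1 : S) else 0) (sp S m x).2 = 0 := by
      refine (F_congr m _ (fun _ => 0) (fun j _ => by simp) _).trans ?_
      have := F_smul m (0 : S) (fun _ => 0) (sp S m x).2
      simpa only [zero_mul] using this
    rw [h, add_zero]

/-- `F(c) ∘ T = F(c')`, `c'_j = 2 j c_j + (m - j) c_{j+1}`. -/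
lemma F_T (m : ℕ) (c : ℕ → S) (x : R S m) :
    F S m c (T S m x) = F S m (fun j => 2 * (j : S) * c j + ((m : S) - j) * c (j + 1)) x := by
  induction m generalizing c with
  | zero => simp [T, F]
  | succ m ih =>
    rw [F_succ, F_succ, sp_T]
    simp only [map_add, map_smul, smul_eq_mul]
    rw [ih c, ih (fun j => c (j + 1)), ← F_smul]
    have h1 : F S m (fun j => 2 * (j : S) * c j + (((m + 1 : ℕ) : S) - j) * c (j + 1)) (sp S m x).1 =
        F S m (fun j => 2 * (j : S) * c j + ((m : S) - j) * c (j + 1)) (sp S m x).1 +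
        F S m (fun j => c (j + 1)) (sp S m x).1 := by
      rw [← F_add]
      apply F_congr
      intro j _
      push_cast
      ring
    have h2 : F S m (fun j => 2 * ((j + 1 : ℕ) : S) * c (j + 1) +
        (((m + 1 : ℕ) : S) - ((j + 1 : ℕ) : S)) * c (j + 1 + 1)) (sp S m x).2 =
        F S m (fun j => 2 * (j : S) * c (j + 1) + ((m : S) - j) * c (j + 1 + 1)) (sp S m x).2 +
        F S m (fun j => 2 * c (j + 1)) (sp S m x).2 := by
      rw [← F_add]
      apply F_congr
      intro j _
      push_cast
      ring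
    rw [h1, h2]
    ring

end Pool.Agent.NH69.SP
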