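import Mathlib

set_option autoImplicit false

namespace Pool.Agent.NH69.SP

/-- the 2-primary component -/
abbrev two (X : Type) [AddCommGroup X] : AddSubgroup X := AddCommGroup.primaryComponent X 2

lemma mem_two {X : Type} [AddCommGroup X] {x : X} : x ∈ two X ↔ ∃ k : ℕ, (2 ^ k) • x = 0 :=
  AddCommGroup.mem_primaryComponent

theorem two_equiv {X Y : Type} [AddCommGroup X] [AddCommGroup Y] (f : X →+ Y)
    (hinj : ∀ x ∈ two X, f x = 0 → x = 0) (hsurj : ∀ y ∈ two Y, ∃ x ∈ two X, f x = y) :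
    Nonempty (two X ≃+ two Y) := by
  have hmap : ∀ x ∈ two X, f x ∈ two Y := by
    intro x hx
    obtain ⟨k, hk⟩ := mem_two.1 hx
    exact mem_two.2 ⟨k, by rw [← map_nsmul, hk, map_zero]⟩
  let g : two X →+ two Y :=
    { toFun := fun x => ⟨f x.1, hmap x.1 x.2⟩
      map_zero' := by ext; simp
      map_add' := fun a b => by ext; simp }
  refine ⟨AddEquiv.ofBijective g ⟨?_, ?_⟩⟩
  · rw [injective_iff_map_eq_zero]
    intro x hx
    have h1 : f x.1 = 0 := congrArg Subtype.val hx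
    exact Subtype.ext (hinj x.1 x.2 h1)
  · intro y
    obtain ⟨x, hx, hxy⟩ := hsurj y.1 y.2
    exact ⟨⟨x, hx⟩, Subtype.ext hxy⟩

theorem quot_two_equiv {A Y : Type} [AddCommGroup A] [AddCommGroup Y] (K : AddSubgroup A)
    (θ : A →+ Y) (hK : ∀ x ∈ K, θ x = 0)
    (hinj : ∀ x, (∃ k : ℕ, (2 ^ k) • x ∈ K) → θ x = 0 → x ∈ K)
    (hsurj : ∀ y ∈ two Y, ∃ x, (∃ k : ℕ, (2 ^ k) • x ∈ K) ∧ θ x = y) :
    Nonempty (two (A ⧸ K) ≃+ two Y) := by
  refine two_equiv (QuotientAddGroup.lift K θ hK) ?_ ?_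
  · intro x hx h0
    obtain ⟨a, rfl⟩ := QuotientAddGroup.mk_surjective x
    obtain ⟨k, hk⟩ := mem_two.1 hx
    rw [← QuotientAddGroup.mk_nsmul, QuotientAddGroup.eq_zero_iff] at hk
    rw [QuotientAddGroup.eq_zero_iff]
    exact hinj a ⟨k, hk⟩ h0
  · intro y hy
    obtain ⟨a, ⟨k, hk⟩, ha⟩ := hsurj y hy
    refine ⟨(a : A ⧸ K), mem_two.2 ⟨k, ?_⟩, ha⟩
    rw [← QuotientAddGroup.mk_nsmul, QuotientAddGroup.eq_zero_iff]
    exact hk

theorem two_prod (X Y : Type) [AddCommGroup X] [AddCommGroup Y] :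
    Nonempty (two (X × Y) ≃+ two X × two Y) := by
  let g : two (X × Y) →+ two X × two Y :=
    { toFun := fun x => (⟨x.1.1, by
          obtain ⟨k, hk⟩ := mem_two.1 x.2
          exact mem_two.2 ⟨k, congrArg Prod.fst hk⟩⟩, ⟨x.1.2, by
          obtain ⟨k, hk⟩ := mem_two.1 x.2
          exact mem_two.2 ⟨k, congrArg Prod.snd hk⟩⟩)
      map_zero' := rfl
      map_add' := fun a b => rfl }
  refine ⟨AddEquiv.ofBijective g ⟨?_, ?_⟩⟩
  · intro a b hab
    have h1 := congrArg (fun t => (t.1 : X)) hab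
    have h2 := congrArg (fun t => (t.2 : Y)) hab
    exact Subtype.ext (Prod.ext h1 h2)
  · rintro ⟨⟨a, ha⟩, ⟨b, hb⟩⟩
    obtain ⟨k, hk⟩ := mem_two.1 ha
    obtain ⟨l, hl⟩ := mem_two.1 hb
    refine ⟨⟨(a, b), mem_two.2 ⟨k + l, ?_⟩⟩, rfl⟩
    refine Prod.ext ?_ ?_
    · show (2 ^ (k + l)) • a = 0
      rw [pow_add, mul_comm, mul_smul, hk, smul_zero]
    · show (2 ^ (k + l)) • b = 0
      rw [pow_add, mul_smul, hl, smul_zero]

theorem two_of_all (X : Type) [AddCommGroup X] (h : ∀ x : X, ∃ k : ℕ, (2 ^ k) • x = 0) :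
    Nonempty (two X ≃+ X) := by
  let g : two X →+ X := (two X).subtype
  refine ⟨AddEquiv.ofBijective g ⟨Subtype.val_injective, fun x => ⟨⟨x, mem_two.2 (h x)⟩, rfl⟩⟩⟩

/-- the 2-primary component of the torsion subgroup -/
theorem two_torsion (X : Type) [AddCommGroup X] :
    Nonempty (two (AddCommGroup.torsion X) ≃+ two X) := by
  refine two_equiv (AddCommGroup.torsion X).subtype ?_ ?_
  · intro x _ h
    exact Subtype.ext h
  · intro y hy
    obtain ⟨k, hk⟩ := mem_two.1 hy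
    have hy' : y ∈ AddCommGroup.torsion X :=
      isOfFinAddOrder_iff_nsmul_eq_zero.2 ⟨2 ^ k, by positivity, hk⟩
    exact ⟨⟨y, hy'⟩, mem_two.2 ⟨k, Subtype.ext hk⟩, rfl⟩

theorem two_congr {X Y : Type} [AddCommGroup X] [AddCommGroup Y] (e : X ≃+ Y) :
    Nonempty (two X ≃+ two Y) := by
  refine two_equiv e.toAddMonoidHom ?_ ?_
  · intro x _ h
    exact e.injective (h.trans (map_zero e).symm)
  · intro y hy
    obtain ⟨k, hk⟩ := mem_two.1 hy
    exact ⟨e.symm y, mem_two.2 ⟨k, by rw [← map_nsmul, hk, map_zero]⟩, e.apply_symm_apply y⟩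

end Pool.Agent.NH69.SP
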