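import Pool.Agent.NH69.SP1
import Pool.Agent.NH69.SP2

set_option autoImplicit false

namespace Pool.Agent.NH69.SP

open Finset

section gen
variable {S : Type} [CommRing S]

lemma D_zero (m : ℕ) (x : R S m) : D S m (fun _ => 0) x = 0 := by
  have := D_smul m (0 : S) (fun _ => 0) x
  simpa only [zero_mul, zero_smul] using this

lemma E_zero (m : ℕ) : E S m (fun _ => 0) = 0 := by
  have := E_smul m (0 : S) (fun _ => 0)
  simpa only [zero_mul, zero_smul] using this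

/-- the unit element `y_∅` -/
def one (S : Type) [CommRing S] (m : ℕ) : R S m := E S m (fun j => if j = 0 then 1 else 0)

/-- the top element `y_{[m]}` -/
def top (S : Type) [CommRing S] (m : ℕ) : R S m := E S m (fun j => if j = m then 1 else 0)

lemma ev_one (m : ℕ) : ev S m (one S m) = 1 := by simp [one, ev_E]

lemma D_delta (m : ℕ) (x : R S m) :
    D S m (fun j => if j = 0 then 1 else 0) x = ev S m x • one S m := by
  induction m with
  | zero =>
    funext v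
    simp [D, one, E, ev]
    exact congrArg x (Subsingleton.elim _ _)
  | succ m ih =>
    apply (sp S m).injective
    rw [map_smul, sp_D, one, sp_E, ih, ev_succ]
    refine Prod.ext ?_ ?_
    · simp [one]
    · simp only [Prod.smul_snd]
      rw [D_congr m (fun j => if j + 1 = 0 then (1 : S) else 0) (fun _ => 0) (by simp), D_zero,
        E_congr m (fun j => if j + 1 = 0 then (1 : S) else 0) (fun _ => 0) (by simp), E_zero,
        smul_zero]

lemma F_zero (m : ℕ) (x : R S m) : F S m (fun _ => 0) x = 0 := by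
  have := F_smul m (0 : S) (fun _ => 0) x
  simpa only [zero_mul] using this

lemma F_one (m : ℕ) (c : ℕ → S) : F S m c (one S m) = c 0 := by
  induction m generalizing c with
  | zero => simp [F, one, E]
  | succ m ih =>
    rw [F_succ, one, sp_E]
    have h1 : E S m (fun j => if j = 0 then (1 : S) else 0) = one S m := rfl
    have h2 : E S m (fun j => if j + 1 = 0 then (1 : S) else 0) = 0 := by
      rw [E_congr m _ (fun _ => 0) (by simp), E_zero]
    simp only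
    rw [h1, h2, ih, map_zero, add_zero]

lemma rho_F (m : ℕ) {Z : Type} [CommRing Z] (ρ : S →+* Z) (c c' : ℕ → S)
    (h : ∀ j ≤ m, ρ (c j) = ρ (c' j)) (x : R S m) : ρ (F S m c x) = ρ (F S m c' x) := by
  induction m generalizing c c' with
  | zero => simp [F, h 0 le_rfl]
  | succ m ih =>
    rw [F_succ, F_succ, map_add, map_add, ih c c' (fun j hj => h j (by omega)),
      ih (fun j => c (j + 1)) (fun j => c' (j + 1)) (fun j hj => h (j + 1) (by omega))]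

lemma T_top (m : ℕ) (hm : 1 ≤ m) : T S m (top S m) = (2 * m : S) • top S m := by
  rw [top, T_E, ← E_smul]
  apply E_congr
  intro j hj
  by_cases hjm : j = m
  · subst hjm
    have : j - 1 ≠ j := by omega
    simp [this]
  · have : j - 1 ≠ m := by omega
    simp [hjm, this]

lemma tors_aux (hdvd : ∀ j : ℕ, 1 ≤ j → ∃ k : ℕ, (j : S) ∣ 2 ^ k) (m : ℕ) :
    ∀ j : ℕ, 1 ≤ j → ∃ k : ℕ, ∀ x : R S m, ∃ y : R S m,
      T S m y + (2 * j : S) • y = (2 ^ k : S) • x := by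
  induction m with
  | zero =>
    intro j hj
    obtain ⟨k, c, hc⟩ := hdvd j hj
    refine ⟨k + 1, fun x => ⟨c • x, ?_⟩⟩
    rw [pow_succ, hc]
    simp only [T, LinearMap.zero_apply, zero_add, smul_smul]
    congr 1
    ring
  | succ m ih =>
    intro j hj
    obtain ⟨k1, h1⟩ := ih j hj
    obtain ⟨k2, h2⟩ := ih (j + 1) (by omega)
    refine ⟨k1 + k2, fun x => ?_⟩
    obtain ⟨r0, hr0⟩ := h1 (sp S m x).1
    obtain ⟨s0, hs0⟩ := h2 ((2 ^ k1 : S) • (sp S m x).2 - r0)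
    refine ⟨(sp S m).symm ((2 ^ k2 : S) • r0, s0), ?_⟩
    apply (sp S m).injective
    rw [map_add, map_smul, map_smul, sp_T]
    simp only [LinearEquiv.apply_symm_apply]
    refine Prod.ext ?_ ?_
    · show T S m ((2 ^ k2 : S) • r0) + (2 * (j : S)) • ((2 ^ k2 : S) • r0) =
        (2 ^ (k1 + k2) : S) • (sp S m x).1
      have h5 : (2 ^ (k1 + k2) : S) • (sp S m x).1 = (2 ^ k2 : S) • ((2 ^ k1 : S) • (sp S m x).1) := by
        rw [smul_smul]; congr 1; ring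
      rw [map_smul, h5, ← hr0]
      module
    · simp only [Prod.snd_add, Prod.smul_snd]
      have h3 : T S m s0 = (2 ^ k2 : S) • ((2 ^ k1 : S) • (sp S m x).2 - r0)
          - (2 * ((j + 1 : ℕ) : S)) • s0 := by rw [← hs0]; abel
      rw [h3, pow_add]
      push_cast
      module

lemma tors (hdvd : ∀ j : ℕ, 1 ≤ j → ∃ k : ℕ, (j : S) ∣ 2 ^ k) (m : ℕ) :
    ∃ k : ℕ, ∀ x : R S m, ev S m x = 0 → ∃ y : R S m, T S m y = (2 ^ k : S) • x := by
  induction m with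
  | zero =>
    refine ⟨0, fun x hx => ⟨0, ?_⟩⟩
    have : x = 0 := by
      funext v
      have : v = fun _ => false := Subsingleton.elim _ _
      rw [this]; exact hx
    rw [this]; simp
  | succ m ih =>
    obtain ⟨k1, h1⟩ := ih
    obtain ⟨k2, h2⟩ := tors_aux hdvd m 1 le_rfl
    refine ⟨k1 + k2, fun x hx => ?_⟩
    rw [ev_succ] at hx
    obtain ⟨r0, hr0⟩ := h1 (sp S m x).1 hx
    obtain ⟨s0, hs0⟩ := h2 ((2 ^ k1 : S) • (sp S m x).2 - r0)
    refine ⟨(sp S m).symm ((2 ^ k2 : S) • r0, s0), ?_⟩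
    apply (sp S m).injective
    rw [map_smul, sp_T]
    simp only [LinearEquiv.apply_symm_apply]
    refine Prod.ext ?_ ?_
    · simp only [Prod.smul_fst, map_smul]
      rw [pow_add, mul_comm ((2 : S) ^ k1), mul_smul, ← hr0]
    · simp only [Prod.smul_snd]
      have h3 : T S m s0 = (2 ^ k2 : S) • ((2 ^ k1 : S) • (sp S m x).2 - r0)
          - (2 * ((1 : ℕ) : S)) • s0 := by rw [← hs0]; abel
      rw [h3, pow_add]
      push_cast
      module

end gen

/-- The data used in the main computation. -/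
structure Dat (S : Type) [CommRing S] (N n κ : ℕ) where
  p : ℕ → S
  p' : ℕ → S
  q : ℕ → S
  q' : ℕ → S
  r : ℕ → S
  r' : ℕ → S
  d : ℕ → S
  ρ : S →+* ZMod (2 ^ κ)
  hn : 1 ≤ n
  hN : N + 1 = 2 ^ n
  hκ : κ = N + n
  two_inj : ∀ x : S, 2 * x = 0 → x = 0
  p0 : p 0 = 1
  p'0 : p' 0 = 1
  p's : ∀ j, p' (j + 1) = p j
  hrec : ∀ j : ℕ, 2 * (j : S) * (p' (j + 1) - p' j) =
    -((2 : S) ^ (n + 1) * p' j) + (2 : S) ^ (n + 1) * (if j = 0 then 1 else 0)
  hq : ∀ j ≤ N, p' j = 1 + 2 * q j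
  hq' : ∀ j ≤ N, p j = 1 + 2 * q' j
  hr : ∀ j ≤ N, p j * r j = 1
  hr' : ∀ j ≤ N, p' j * r' j = 1
  p'N : p' N = N
  d0 : d 0 = 0
  hd : ∀ j ≤ N, ρ (2 * (j : S) * d j + ((N : S) - j) * d (j + 1)) =
    ρ ((2 : S) ^ n * (if j = 0 then 1 else 0))
  hρ : ∀ s, ρ s = 0 → ∃ z, s = 2 ^ κ * z
  hdvd : ∀ j : ℕ, 1 ≤ j → ∃ k : ℕ, (j : S) ∣ 2 ^ k

namespace Dat
variable {S : Type} [CommRing S] {N n κ : ℕ} (𝒟 : Dat S N n κ)
include 𝒟

lemma two_N : (2 * N : S) = 2 ^ (n + 1) - 2 := by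
  have h := congrArg (fun t : ℕ => (t : S)) 𝒟.hN
  push_cast at h
  rw [pow_succ, ← h]
  ring

lemma N_pos : 1 ≤ N := by
  have h1 := 𝒟.hN
  have h2 : 2 ^ 1 ≤ 2 ^ n := Nat.pow_le_pow_right (by norm_num) 𝒟.hn
  omega

lemma N_odd : Odd N := by
  have h1 := 𝒟.hN
  have h2 : 2 ∣ 2 ^ n := dvd_pow_self 2 (by have := 𝒟.hn; omega)
  rw [Nat.odd_iff]
  omega

lemma cancel {x y : R S N} (h : (2 : S) • x = (2 : S) • y) : x = y := by
  funext v
  have h1 := congrFun h v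
  simp only [Pi.smul_apply, smul_eq_mul] at h1
  have h2 : 2 * (x v - y v) = 0 := by rw [mul_sub, h1, sub_self]
  exact sub_eq_zero.1 (𝒟.two_inj _ h2)

lemma pow_inj (k : ℕ) {x : S} (h : 2 ^ k * x = 0) : x = 0 := by
  induction k with
  | zero => simpa using h
  | succ k ih =>
    apply ih
    apply 𝒟.two_inj
    rw [← h]; ring

lemma TP (x : R S N) : T S N (D S N 𝒟.p x) = D S N 𝒟.p' (T S N x)
    - (2 : S) ^ (n + 1) • D S N 𝒟.p' x + ((2 : S) ^ (n + 1) * ev S N x) • one S N := by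
  have h1 := T_D N 𝒟.p' x
  have h2 : (fun j => 𝒟.p' (j + 1)) = 𝒟.p := funext 𝒟.p's
  rw [h2] at h1
  rw [h1]
  have h3 : D S N (fun j => 2 * (j : S) * (𝒟.p' (j + 1) - 𝒟.p' j)) x =
      -((2 : S) ^ (n + 1) • D S N 𝒟.p' x) + ((2 : S) ^ (n + 1) * ev S N x) • one S N := by
    have h4 : (fun j : ℕ => 2 * (j : S) * (𝒟.p' (j + 1) - 𝒟.p' j)) =
        fun j => -((2 : S) ^ (n + 1)) * 𝒟.p' j +
          (2 : S) ^ (n + 1) * (if j = 0 then 1 else 0) := by
      funext j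
      rw [𝒟.hrec j]
      ring
    rw [h4, D_add, D_smul, D_smul, D_delta]
    module
  rw [h3]
  module

/-- `(1 - P'σ)/2` -/
noncomputable def U : R S N →ₗ[S] R S N := -(D S N 𝒟.q ∘ₗ sg S N + ta S N)

/-- `(1 + Pσ)/2` -/
noncomputable def W : R S N →ₗ[S] R S N := LinearMap.id + D S N 𝒟.q' ∘ₗ sg S N + ta S N

lemma D_p' (x : R S N) : D S N 𝒟.p' x = x + (2 : S) • D S N 𝒟.q x := by
  have h : D S N 𝒟.p' x = D S N (fun j => 1 + 2 * 𝒟.q j) x := D_congr N _ _ 𝒟.hq x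
  rw [h, D_add, D_smul, D_one]

lemma D_p (x : R S N) : D S N 𝒟.p x = x + (2 : S) • D S N 𝒟.q' x := by
  have h : D S N 𝒟.p x = D S N (fun j => 1 + 2 * 𝒟.q' j) x := D_congr N _ _ 𝒟.hq' x
  rw [h, D_add, D_smul, D_one]

lemma U2 (x : R S N) : (2 : S) • 𝒟.U x = x - D S N 𝒟.p' (sg S N x) := by
  rw [D_p']
  have h := sg_eq N x
  simp only [U, LinearMap.neg_apply, LinearMap.add_apply, LinearMap.comp_apply]
  have h2 : sg S N x + (2 : S) • D S N 𝒟.q (sg S N x) =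
      x + (2 : S) • ta S N x + (2 : S) • D S N 𝒟.q (sg S N x) := by
    nth_rewrite 1 [h]; rfl
  rw [h2]
  module

lemma W2 (x : R S N) : (2 : S) • 𝒟.W x = x + D S N 𝒟.p (sg S N x) := by
  rw [D_p]
  have h := sg_eq N x
  simp only [W, LinearMap.add_apply, LinearMap.comp_apply, LinearMap.id_apply]
  have h2 : sg S N x + (2 : S) • D S N 𝒟.q' (sg S N x) =
      x + (2 : S) • ta S N x + (2 : S) • D S N 𝒟.q' (sg S N x) := by
    nth_rewrite 1 [h]; rfl
  rw [h2]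
  module

lemma UT (x : R S N) : 𝒟.U (T S N x) = T S N (𝒟.W x) - ((2 : S) ^ n * ev S N (sg S N x)) • one S N
    + D S N 𝒟.p' (sg S N x) := by
  apply 𝒟.cancel
  have h1 : (2 : S) • T S N (𝒟.W x) = T S N x + T S N (D S N 𝒟.p (sg S N x)) := by
    rw [← map_smul, 𝒟.W2, map_add]
  rw [𝒟.U2, sg_T, 𝒟.two_N, smul_add, smul_sub, h1, 𝒟.TP, map_sub, map_smul]
  module

/-- the functional `ψ` -/
noncomputable def ψ : R S N →+ ZMod (2 ^ κ) := 𝒟.ρ.toAddMonoidHom.comp (F S N 𝒟.d).toAddMonoidHom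

lemma ψ_apply (x : R S N) : 𝒟.ψ x = 𝒟.ρ (F S N 𝒟.d x) := rfl

/-- the functional `φ` -/
noncomputable def φ : R S N →+ ZMod (2 ^ κ) :=
  𝒟.ρ.toAddMonoidHom.comp (ev S N).toAddMonoidHom + (𝒟.ψ + 𝒟.ψ)

lemma φ_apply (x : R S N) : 𝒟.φ x = 𝒟.ρ (ev S N x) + (𝒟.ψ x + 𝒟.ψ x) := rfl

lemma ψT (x : R S N) : 𝒟.ψ (T S N x) = 𝒟.ρ ((2 : S) ^ n * ev S N x) := by
  rw [ψ_apply, F_T, rho_F N 𝒟.ρ _ _ 𝒟.hd, F_smul, F_delta]

lemma φT (x : R S N) : 𝒟.φ (T S N x) = 𝒟.ρ ((2 : S) ^ (n + 1) * ev S N x) := by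
  rw [φ_apply, ev_T, 𝒟.ψT, map_zero, zero_add, ← map_add]
  congr 1
  ring

lemma φ_one (c : S) : 𝒟.φ (c • one S N) = 𝒟.ρ c := by
  rw [φ_apply, ψ_apply]
  simp [F_one, 𝒟.d0, ev_one]

/-- third component -/
noncomputable def θ0 : R S N →+ ZMod (2 ^ κ) := 𝒟.φ.comp 𝒟.U.toAddMonoidHom - 𝒟.ψ

lemma θ0_apply (x : R S N) : 𝒟.θ0 x = 𝒟.φ (𝒟.U x) - 𝒟.ψ x := rfl

lemma θT (x : R S N) : 𝒟.θ0 (T S N x) = 𝒟.φ (D S N 𝒟.p' (sg S N x)) := by
  rw [θ0_apply, 𝒟.UT, map_add, map_sub, 𝒟.φT, 𝒟.φ_one, 𝒟.ψT]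
  have h1 : (2 : S) ^ (n + 1) * ev S N (𝒟.W x) = 2 ^ n * (ev S N x + ev S N (sg S N x)) := by
    have h2 : (2 : S) * ev S N (𝒟.W x) = ev S N x + ev S N (sg S N x) := by
      have h3 := congrArg (ev S N) (𝒟.W2 x)
      rw [map_smul, map_add, ev_D, 𝒟.p0, one_mul, smul_eq_mul] at h3
      exact h3
    rw [← h2]; ring
  rw [h1]
  have h4 : 𝒟.ρ (2 ^ n * (ev S N x + ev S N (sg S N x))) =
      𝒟.ρ (2 ^ n * ev S N x) + 𝒟.ρ (2 ^ n * ev S N (sg S N x)) := by
    rw [← map_add 𝒟.ρ]; congr 1; ring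
  rw [h4]
  ring

lemma key (x : R S N) : D S N 𝒟.p' (sg S N (T S N x + (2 : S) • x)) =
    ((2 : S) ^ (n + 1) * ev S N (sg S N x)) • one S N - T S N (D S N 𝒟.p (sg S N x)) := by
  rw [𝒟.TP, map_add, map_smul, sg_T, 𝒟.two_N]
  simp only [map_add, map_sub, map_smul]
  module

/-- range of `T` -/
noncomputable abbrev K (S : Type) [CommRing S] (m : ℕ) : AddSubgroup (R S m) :=
  (T S m).toAddMonoidHom.range

omit 𝒟 in
lemma mem_K {m : ℕ} {x : R S m} : x ∈ K S m ↔ ∃ y, T S m y = x := by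
  rw [AddMonoidHom.mem_range]; rfl

/-- the combined map -/
noncomputable def Θ : R S N →+ ((R S N ⧸ K S N) × (R S N ⧸ K S N)) × ZMod (2 ^ κ) :=
  ((QuotientAddGroup.mk' (K S N)).prod ((QuotientAddGroup.mk' (K S N)).comp
    ((𝒟.U - ((ev S N) ∘ₗ 𝒟.U).smulRight (one S N)).toAddMonoidHom))).prod 𝒟.θ0

lemma Θ_apply (x : R S N) : 𝒟.Θ x = ((QuotientAddGroup.mk' (K S N) x,
    QuotientAddGroup.mk' (K S N) (𝒟.U x - ev S N (𝒟.U x) • one S N)), 𝒟.θ0 x) := rfl

/-- reduction `R_{N+1} → R_N`, `y ↦ -T` -/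
noncomputable def ω (S : Type) [CommRing S] (N : ℕ) : R S (N + 1) →+ R S N :=
  ((LinearMap.fst S (R S N) (R S N) - (T S N) ∘ₗ LinearMap.snd S (R S N) (R S N)) ∘ₗ
    (sp S N).toLinearMap).toAddMonoidHom

omit 𝒟 in
lemma ω_apply (x : R S (N + 1)) : ω S N x = (sp S N x).1 - T S N (sp S N x).2 := rfl

lemma Θ_TT (x : R S N) : 𝒟.Θ (T S N (T S N x + (2 : S) • x)) = 0 := by
  rw [Θ_apply]
  have h1 : 𝒟.U (T S N (T S N x + (2 : S) • x)) =
      T S N (𝒟.W (T S N x + (2 : S) • x) - D S N 𝒟.p (sg S N x)) +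
      ((2 : S) ^ (n + 1) * ev S N (sg S N x)
        - (2 : S) ^ n * ev S N (sg S N (T S N x + (2 : S) • x))) • one S N := by
    rw [𝒟.UT, 𝒟.key, map_sub]
    module
  have h2 : 𝒟.U (T S N (T S N x + (2 : S) • x)) -
      ev S N (𝒟.U (T S N (T S N x + (2 : S) • x))) • one S N =
      T S N (𝒟.W (T S N x + (2 : S) • x) - D S N 𝒟.p (sg S N x)) := by
    rw [h1]
    generalize 𝒟.W (T S N x + (2 : S) • x) - D S N 𝒟.p (sg S N x) = X
    generalize (2 : S) ^ (n + 1) * ev S N (sg S N x)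
        - (2 : S) ^ n * ev S N (sg S N (T S N x + (2 : S) • x)) = c
    rw [map_add (ev S N), ev_T, map_smul, ev_one, smul_eq_mul, mul_one, zero_add]
    abel
  rw [h2, 𝒟.θT, 𝒟.key, map_sub 𝒟.φ, 𝒟.φ_one, 𝒟.φT, ev_D, 𝒟.p0, one_mul, sub_self]
  refine Prod.ext (Prod.ext ?_ ?_) rfl
  · exact (QuotientAddGroup.eq_zero_iff _).2 (mem_K.2 ⟨_, rfl⟩)
  · exact (QuotientAddGroup.eq_zero_iff _).2 (mem_K.2 ⟨_, rfl⟩)

lemma cancel_p' {x y : R S N} (h : D S N 𝒟.p' x = D S N 𝒟.p' y) : x = y := by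
  have h1 : ∀ z : R S N, D S N 𝒟.r' (D S N 𝒟.p' z) = z := by
    intro z
    rw [D_mul, D_congr N (fun j => 𝒟.r' j * 𝒟.p' j) (fun _ => 1)
      (fun j hj => by rw [mul_comm]; exact 𝒟.hr' j hj), D_one]
  rw [← h1 x, h, h1]

lemma p'_r' (z : R S N) : D S N 𝒟.p' (D S N 𝒟.r' z) = z := by
  rw [D_mul, D_congr N (fun j => 𝒟.p' j * 𝒟.r' j) (fun _ => 1) 𝒟.hr', D_one]

lemma p_r (z : R S N) : D S N 𝒟.p (D S N 𝒟.r z) = z := by
  rw [D_mul, D_congr N (fun j => 𝒟.p j * 𝒟.r j) (fun _ => 1) 𝒟.hr, D_one]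

/-- `f'` with `T f' = N top`, `ev f' = 2^{N-1}` -/
lemma exists_f : ∃ f : R S N, T S N f = (N : S) • top S N ∧
    (2 : S) ^ (n + 1) * ev S N f = 2 ^ κ := by
  refine ⟨E S N (fun j => if j < N then (-2) ^ (N - 1 - j) else 0), ?_, ?_⟩
  · rw [T_E, top, ← E_smul]
    apply E_congr
    intro j hj
    rcases j with _ | j
    · have := 𝒟.N_pos
      have h0 : (0 : ℕ) ≠ N := by omega
      simp [h0]
    · by_cases hjN : j + 1 = N
      · subst hjN
        simp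
      · have h1 : j + 1 < N := by omega
        have h2 : j < N := by omega
        simp only [Nat.add_sub_cancel, h1, h2, if_true, hjN, if_false, mul_zero]
        have h3 : N - 1 - j = (N - 1 - (j + 1)) + 1 := by omega
        rw [h3, pow_succ]
        push_cast
        ring
  · have hN := 𝒟.N_pos
    have h0 : 0 < N := by omega
    rw [ev_E]
    simp only [h0, if_true, Nat.sub_zero]
    have he : Even (N - 1) := by
      obtain ⟨k, hk⟩ := 𝒟.N_odd
      exact ⟨k, by omega⟩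
    rw [he.neg_pow, ← pow_add, 𝒟.hκ]
    congr 1
    omega

lemma main_inj (w : R S N) (hw : 𝒟.Θ w = 0) : ∃ y : R S N, w = -(T S N (T S N y + (2 : S) • y)) := by
  rw [Θ_apply] at hw
  have hw1 := congrArg (fun t => t.1.1) hw
  have hw2 := congrArg (fun t => t.1.2) hw
  have hw3 := congrArg (fun t => t.2) hw
  simp only [Prod.fst_zero, Prod.snd_zero] at hw1 hw2 hw3
  obtain ⟨r, rfl⟩ := mem_K.1 ((QuotientAddGroup.eq_zero_iff _).1 hw1)
  obtain ⟨g, hg⟩ := mem_K.1 ((QuotientAddGroup.eq_zero_iff _).1 hw2)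
  rw [𝒟.θT] at hw3
  obtain ⟨f, hf1, hf2⟩ := 𝒟.exists_f
  -- P'σr = T q + c • 1
  obtain ⟨c, hc⟩ : ∃ c : S, D S N 𝒟.p' (sg S N r) = T S N (g - 𝒟.W r) + c • one S N := by
    refine ⟨ev S N (𝒟.U (T S N r)) + (2 : S) ^ n * ev S N (sg S N r), ?_⟩
    have h1 := 𝒟.UT r
    have h2 : D S N 𝒟.p' (sg S N r) = 𝒟.U (T S N r) - T S N (𝒟.W r) +
        ((2 : S) ^ n * ev S N (sg S N r)) • one S N := by rw [h1]; abel
    rw [h2, map_sub, hg, add_smul]
    abel
  rw [hc, map_add, 𝒟.φT, 𝒟.φ_one, ← map_add] at hw3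
  obtain ⟨z, hz⟩ := 𝒟.hρ _ hw3
  set qq := g - 𝒟.W r - z • f with hqq
  have h3 : D S N 𝒟.p' (sg S N r) = T S N qq - ((2 : S) ^ (n + 1) * ev S N qq) • one S N
      + (z * N) • top S N := by
    have h4 : c = z * ((2 : S) ^ (n + 1) * ev S N f) - (2 : S) ^ (n + 1) * ev S N (g - 𝒟.W r) := by
      rw [hf2]
      linear_combination hz
    rw [hc, hqq, map_sub (T S N) (g - 𝒟.W r) (z • f), map_smul, hf1,
      map_sub (ev S N) (g - 𝒟.W r) (z • f), map_smul, smul_eq_mul, h4]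
    module
  set q2 := D S N 𝒟.r qq with hq2
  have hr0 : 𝒟.r 0 = 1 := by
    have := 𝒟.hr 0 (Nat.zero_le _)
    rwa [𝒟.p0, one_mul] at this
  have h5 : ev S N q2 = ev S N qq := by rw [hq2, ev_D, hr0, one_mul]
  have h6 : D S N 𝒟.p q2 = qq := 𝒟.p_r qq
  have h7 : D S N 𝒟.p' (top S N) = (N : S) • top S N := by
    rw [top, D_E, ← E_smul]
    apply E_congr
    intro j _
    by_cases hj : j = N
    · subst hj; simp [𝒟.p'N]
    · simp [hj]
  have h8 := 𝒟.TP q2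
  rw [h6, h5] at h8
  have h9 : sg S N r = T S N q2 - (2 : S) ^ (n + 1) • q2 + z • top S N := by
    apply 𝒟.cancel_p'
    rw [h3, h8]
    simp only [map_add, map_sub, map_smul, h7]
    module
  have h10 : T S N (sg S N (top S N)) = 0 := by
    have h11 := sg_T N (top S N)
    rw [T_top N 𝒟.N_pos, map_smul] at h11
    have h12 : T S N (sg S N (top S N)) = (2 * (N : S)) • sg S N (top S N) -
      ((2 * (N : S)) • sg S N (top S N) - T S N (sg S N (top S N))) := by abel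
    rw [h12, ← h11, sub_self]
  refine ⟨sg S N q2, ?_⟩
  have h13 : r = -(T S N (sg S N q2)) - (2 : S) • sg S N q2 + z • sg S N (top S N) := by
    rw [← sg_sg N r, h9, map_add, map_sub, map_smul, map_smul, sg_T, 𝒟.two_N]
    module
  nth_rewrite 1 [h13]
  simp only [map_add, map_sub, map_smul, map_neg, h10, smul_zero, add_zero]
  abel

/-- Main algebraic statement. -/
theorem main (hdvd : ∀ j : ℕ, 1 ≤ j → ∃ k : ℕ, (j : S) ∣ 2 ^ k) :
    Nonempty (two (R S (N + 1) ⧸ K S (N + 1)) ≃+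
      (two (R S N ⧸ K S N) × two (R S N ⧸ K S N)) × ZMod (2 ^ κ)) := by
  have hpow : ∀ (m k : ℕ) (x : R S m), (2 ^ k : ℕ) • x = (2 ^ k : S) • x := by
    intro m k x
    rw [← Nat.cast_smul_eq_nsmul S]
    push_cast
    rfl
  have hev : ∀ (m : ℕ) (x : R S m), (∃ k : ℕ, (2 ^ k) • x ∈ K S m) → ev S m x = 0 := by
    rintro m x ⟨k, hk⟩
    obtain ⟨y, hy⟩ := mem_K.1 hk
    rw [hpow] at hy
    have h1 := congrArg (ev S m) hy
    rw [ev_T, map_smul, smul_eq_mul] at h1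
    exact 𝒟.pow_inj k h1.symm
  have hKev : ∀ (m : ℕ) (x : R S m), ev S m x = 0 → ∃ k : ℕ, (2 ^ k) • x ∈ K S m := by
    intro m x hx
    obtain ⟨k, hk⟩ := tors hdvd m
    obtain ⟨y, hy⟩ := hk x hx
    exact ⟨k, mem_K.2 ⟨y, by rw [hpow]; exact hy⟩⟩
  have h1 : Nonempty (two (R S (N + 1) ⧸ K S (N + 1)) ≃+
      two (((R S N ⧸ K S N) × (R S N ⧸ K S N)) × ZMod (2 ^ κ))) := by
    refine quot_two_equiv (K S (N + 1)) (𝒟.Θ.comp (ω S N)) ?_ ?_ ?_
    · intro x hx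
      obtain ⟨y, rfl⟩ := mem_K.1 hx
      have h2 : ω S N (T S (N + 1) y) = -(T S N (T S N (sp S N y).2 + (2 : S) • (sp S N y).2)) := by
        rw [ω_apply, sp_T]
        simp only [map_add]
        abel
      rw [AddMonoidHom.comp_apply, h2, map_neg, 𝒟.Θ_TT, neg_zero]
    · intro x _ hx
      obtain ⟨y, hy⟩ := 𝒟.main_inj _ hx
      rw [ω_apply] at hy
      refine mem_K.2 ⟨(sp S N).symm ((sp S N x).2 - T S N y - (2 : S) • y, y), ?_⟩
      apply (sp S N).injective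
      rw [sp_T]
      simp only [LinearEquiv.apply_symm_apply]
      refine Prod.ext ?_ ?_
      · simp only
        have h3 : (sp S N x).1 = T S N (sp S N x).2 + -(T S N (T S N y + (2 : S) • y)) := by
          rw [← hy]; abel
        rw [h3, map_sub, map_sub, map_add]
        abel
      · simp only
        abel
    · rintro ⟨⟨h1, h2⟩, t⟩ hy
      obtain ⟨k, hk⟩ := mem_two.1 hy
      have hk1 := congrArg (fun u => u.1.1) hk
      have hk2 := congrArg (fun u => u.1.2) hk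
      simp only [Prod.smul_fst, Prod.smul_snd, Prod.fst_zero, Prod.snd_zero] at hk1 hk2
      obtain ⟨w1, rfl⟩ := QuotientAddGroup.mk'_surjective (K S N) h1
      obtain ⟨v, rfl⟩ := QuotientAddGroup.mk'_surjective (K S N) h2
      rw [← map_nsmul] at hk1 hk2
      have hw1 : ev S N w1 = 0 := hev N w1 ⟨k, (QuotientAddGroup.eq_zero_iff _).1 hk1⟩
      have hv : ev S N v = 0 := hev N v ⟨k, (QuotientAddGroup.eq_zero_iff _).1 hk2⟩
      set b := v - (𝒟.U w1 - ev S N (𝒟.U w1) • one S N) with hb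
      have hevb : ev S N b = 0 := by
        rw [hb, map_sub, map_sub, map_smul, ev_one, hv, smul_eq_mul, mul_one]
        ring
      obtain ⟨s, hs⟩ : ∃ s : S, 𝒟.ρ s = t - 𝒟.θ0 w1 - 𝒟.φ b := by
        refine ⟨((t - 𝒟.θ0 w1 - 𝒟.φ b).val : S), ?_⟩
        rw [map_natCast, ZMod.natCast_zmod_val]
      set r := sg S N (D S N 𝒟.r' (b + s • one S N)) with hr
      have hPr : D S N 𝒟.p' (sg S N r) = b + s • one S N := by
        rw [hr, sg_sg, 𝒟.p'_r']
      set w := w1 + T S N r with hwdef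
      have hevw : ev S N w = 0 := by rw [hwdef, map_add, ev_T, hw1, add_zero]
      refine ⟨(sp S N).symm (w, 0), ?_, ?_⟩
      · apply hKev
        rw [ev_succ, LinearEquiv.apply_symm_apply]
        exact hevw
      · have h3 : ω S N ((sp S N).symm (w, 0)) = w := by
          rw [ω_apply, LinearEquiv.apply_symm_apply, map_zero, sub_zero]
        rw [AddMonoidHom.comp_apply, h3, Θ_apply]
        have h4 : 𝒟.U w = 𝒟.U w1 + (T S N (𝒟.W r) - ((2 : S) ^ n * ev S N (sg S N r)) • one S N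
            + (b + s • one S N)) := by
          rw [hwdef, map_add, 𝒟.UT, hPr]
        have h5 : 𝒟.U w - ev S N (𝒟.U w) • one S N = v + T S N (𝒟.W r) := by
          rw [h4]
          simp only [map_add, map_sub, map_smul, ev_T, ev_one, hevb, smul_eq_mul, mul_one]
          rw [hb]
          module
        rw [h5]
        refine Prod.ext (Prod.ext ?_ ?_) ?_
        · show QuotientAddGroup.mk' (K S N) w = QuotientAddGroup.mk' (K S N) w1
          rw [hwdef, map_add]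
          have : QuotientAddGroup.mk' (K S N) (T S N r) = 0 :=
            (QuotientAddGroup.eq_zero_iff _).2 (mem_K.2 ⟨_, rfl⟩)
          rw [this, add_zero]
        · show QuotientAddGroup.mk' (K S N) (v + T S N (𝒟.W r)) = QuotientAddGroup.mk' (K S N) v
          rw [map_add]
          have : QuotientAddGroup.mk' (K S N) (T S N (𝒟.W r)) = 0 :=
            (QuotientAddGroup.eq_zero_iff _).2 (mem_K.2 ⟨_, rfl⟩)
          rw [this, add_zero]
        · show 𝒟.θ0 w = t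
          rw [hwdef, map_add, 𝒟.θT, hPr, map_add, 𝒟.φ_one, hs]
          ring
  obtain ⟨e1⟩ := h1
  obtain ⟨e2⟩ := two_prod ((R S N ⧸ K S N) × (R S N ⧸ K S N)) (ZMod (2 ^ κ))
  obtain ⟨e3⟩ := two_prod (R S N ⧸ K S N) (R S N ⧸ K S N)
  obtain ⟨e4⟩ := two_of_all (ZMod (2 ^ κ)) (fun x => ⟨κ, by
    have := ZMod.natCast_self (2 ^ κ)
    rw [nsmul_eq_mul, this, zero_mul]⟩)
  exact ⟨(e1.trans e2).trans (AddEquiv.prodCongr e3 e4)⟩

end Dat

end Pool.Agent.NH69.SP
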