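import Pool.Agent.NH69.SP3

set_option autoImplicit false

namespace Pool.Agent.NH69.SP

open Finset

lemma choose_odd (n N : ℕ) (hN : N + 1 = 2 ^ n) (j : ℕ) (hj : j ≤ N) : Odd (N.choose j) := by
  induction j with
  | zero => simp
  | succ j ih =>
    have h1 := ih (by omega)
    have h2 : 2 ∣ (2 ^ n).choose (j + 1) :=
      Nat.Prime.dvd_choose_pow Nat.prime_two (by omega) (by omega)
    rw [← hN, Nat.choose_succ_succ, Nat.succ_eq_add_one] at h2
    rw [Nat.odd_iff] at h1 ⊢
    omega

/-- signed binomials -/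
def pz (N j : ℕ) : ℤ := (-1) ^ j * (N.choose j : ℤ)

/-- shifted signed binomials -/
def pz' (N : ℕ) : ℕ → ℤ
  | 0 => 1
  | j + 1 => pz N j

lemma pz_odd (n N : ℕ) (hN : N + 1 = 2 ^ n) (j : ℕ) (hj : j ≤ N) : Odd (pz N j) := by
  unfold pz
  apply Odd.mul
  · exact Odd.pow (by decide)
  · exact_mod_cast choose_odd n N hN j hj

lemma pz'_odd (n N : ℕ) (hN : N + 1 = 2 ^ n) (j : ℕ) (hj : j ≤ N) : Odd (pz' N j) := by
  rcases j with _ | j
  · exact odd_one
  · exact pz_odd n N hN j (by omega)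

lemma choose_rel (N i : ℕ) : ((i : ℤ) + 1) * (N.choose (i + 1) : ℤ) =
    ((N : ℤ) - i) * (N.choose i : ℤ) := by
  have h := Nat.choose_succ_right_eq N i
  by_cases hi : i ≤ N
  · have h' := congrArg (fun t : ℕ => (t : ℤ)) h
    simp only [Nat.cast_mul, Nat.cast_sub hi, Nat.cast_add, Nat.cast_one] at h'
    linarith
  · have h1 : N.choose i = 0 := Nat.choose_eq_zero_of_lt (by omega)
    have h2 : N.choose (i + 1) = 0 := Nat.choose_eq_zero_of_lt (by omega)
    simp [h1, h2]

lemma pz_rel (N j : ℕ) : 2 * (j : ℤ) * (pz' N (j + 1) - pz' N j) =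
    -(2 * ((N : ℤ) + 1) * pz' N j) + 2 * ((N : ℤ) + 1) * (if j = 0 then 1 else 0) := by
  rcases j with _ | i
  · simp [pz']
  · have h := choose_rel N i
    simp only [pz', pz, Nat.cast_add, Nat.cast_one, Nat.add_eq_zero_iff, one_ne_zero, and_false,
      if_false, pow_succ]
    linear_combination (-2 * (-1 : ℤ) ^ i) * h

theorem exists_dat (S : Type) [CommRing S] [IsDomain S] [CharZero S] (n N : ℕ) (hn : 1 ≤ n)
    (hN : N + 1 = 2 ^ n) (hodd : ∀ z : ℤ, Odd z → IsUnit (z : S))
    (hfrac : ∀ s : S, ∃ k z : ℤ, Odd k ∧ (k : S) * s = z)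
    (ρ : S →+* ZMod (2 ^ (N + n))) : Nonempty (Dat S N n (N + n)) := by
  have hdvd : ∀ j : ℕ, 1 ≤ j → ∃ k : ℕ, (j : S) ∣ 2 ^ k ∧ 2 ^ k ≤ j := by
    intro j hj
    obtain ⟨k, m, hm, hjm⟩ := Nat.exists_eq_two_pow_mul_odd (by omega : j ≠ 0)
    have hu : IsUnit (m : S) := by
      have := hodd (m : ℤ) (by exact_mod_cast hm)
      simpa using this
    obtain ⟨u, hu⟩ := hu
    refine ⟨k, ⟨((u⁻¹ : Sˣ) : S), ?_⟩, ?_⟩
    · rw [hjm]
      push_cast
      rw [← hu, mul_assoc, Units.mul_inv, mul_one]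
    · rw [hjm]
      exact Nat.le_mul_of_pos_right _ hm.pos
  have hcu : ∀ j ≤ N, IsUnit ((N.choose j : ℕ) : S) := by
    intro j hj
    have := hodd (N.choose j : ℤ) (by exact_mod_cast choose_odd n N hN j hj)
    simpa using this
  have hN1 : 1 ≤ N := by
    have h2 : 2 ^ 1 ≤ 2 ^ n := Nat.pow_le_pow_right (by norm_num) hn
    omega
  have hNodd : Odd N := by
    have h2 : 2 ∣ 2 ^ n := dvd_pow_self 2 (by omega)
    rw [Nat.odd_iff]
    omega
  have hNS : (N : S) + 1 = 2 ^ n := by exact_mod_cast hN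
  -- the sequence d
  have hd : ∀ j : ℕ, ∃ x : S, (j = 0 → x = 0) ∧
      (1 ≤ j → j ≤ N → (j : S) * (N.choose j : S) * x = (-2) ^ (j - 1) * 2 ^ n) := by
    intro j
    by_cases hj : 1 ≤ j ∧ j ≤ N
    · obtain ⟨k, hk1, hk2⟩ := hdvd j hj.1
      have hkn : k ≤ n := by
        by_contra hcon
        have : 2 ^ n ≤ 2 ^ k := Nat.pow_le_pow_right (by norm_num) (by omega)
        omega
      have h1 : (j : S) ∣ 2 ^ n := hk1.trans (pow_dvd_pow _ hkn)
      have h2 : (j : S) * (N.choose j : S) ∣ (-2) ^ (j - 1) * 2 ^ n := by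
        have h3 : (j : S) * (N.choose j : S) ∣ 2 ^ n := by
          rw [(hcu j hj.2).mul_right_dvd]
          exact h1
        exact h3.trans (dvd_mul_left _ _)
      obtain ⟨x, hx⟩ := h2
      exact ⟨x, fun h => by omega, fun _ _ => hx.symm⟩
    · refine ⟨0, fun _ => rfl, fun h1 h2 => absurd ⟨h1, h2⟩ hj⟩
  choose d hd0 hd1 using hd
  have hcne : ∀ j ≤ N, ((N.choose j : ℕ) : S) ≠ 0 := fun j hj => (hcu j hj).ne_zero
  refine ⟨{
    p := fun j => (pz N j : S)
    p' := fun j => (pz' N j : S)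
    q := fun j => (((pz' N j - 1) / 2 : ℤ) : S)
    q' := fun j => (((pz N j - 1) / 2 : ℤ) : S)
    r := fun j => Ring.inverse (pz N j : S)
    r' := fun j => Ring.inverse (pz' N j : S)
    d := d
    ρ := ρ
    hn := hn
    hN := hN
    hκ := rfl
    two_inj := fun x hx => by
      rcases mul_eq_zero.1 hx with h | h
      · exact absurd h two_ne_zero
      · exact h
    p0 := by simp [pz]
    p'0 := by simp [pz']
    p's := fun j => by simp [pz']
    hrec := ?_
    hq := ?_
    hq' := ?_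
    hr := fun j hj => Ring.mul_inverse_cancel _ (hodd _ (pz_odd n N hN j hj))
    hr' := fun j hj => Ring.mul_inverse_cancel _ (hodd _ (pz'_odd n N hN j hj))
    p'N := ?_
    d0 := hd0 0 rfl
    hd := ?_
    hρ := ?_
    hdvd := fun j hj => by
      obtain ⟨k, hk, _⟩ := hdvd j hj
      exact ⟨k, hk⟩ }⟩
  · intro j
    have h := congrArg (fun t : ℤ => (t : S)) (pz_rel N j)
    push_cast at h
    rw [h, pow_succ, ← hNS]
    ring
  · intro j hj
    obtain ⟨k, hk⟩ := pz'_odd n N hN j hj
    have h1 : (pz' N j - 1) / 2 = k := by omega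
    simp only [h1]
    rw [hk]
    push_cast
    ring
  · intro j hj
    obtain ⟨k, hk⟩ := pz_odd n N hN j hj
    have h1 : (pz N j - 1) / 2 = k := by omega
    simp only [h1]
    rw [hk]
    push_cast
    ring
  · have h1 : N = (N - 1) + 1 := by omega
    have he : Even (N - 1) := by
      obtain ⟨k, hk⟩ := hNodd
      exact ⟨k, by omega⟩
    have h2 : pz' N N = N := by
      conv_lhs => rw [h1]
      simp only [pz', pz]
      rw [← h1, he.neg_one_pow, one_mul]
      have : N.choose (N - 1) = N := by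
        rw [Nat.choose_symm_of_eq_add (by omega : N = (N - 1) + 1)]
        simp
      rw [this]
    show ((pz' N N : ℤ) : S) = N
    rw [h2]
    simp
  · intro j hj
    rcases j with _ | i
    · have h1 := hd1 1 le_rfl hN1
      simp only [Nat.cast_one, one_mul, Nat.choose_one_right, Nat.sub_self, pow_zero] at h1
      simp only [Nat.cast_zero, mul_zero, zero_mul, sub_zero, zero_add, if_true, mul_one, h1]
    · by_cases hjN : i + 1 = N
      · have h1 := hd1 (i + 1) (by omega) hj
        rw [hjN] at h1 ⊢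
        have hN0 : N ≠ 0 := by omega
        simp only [sub_self, zero_mul, add_zero, hN0, if_false, mul_zero, map_zero]
        rw [Nat.choose_self, Nat.cast_one, mul_one] at h1
        have he : Even (N - 1) := by
          obtain ⟨k, hk⟩ := hNodd
          exact ⟨k, by omega⟩
        rw [he.neg_pow] at h1
        have h2 : (2 : S) * N * d N = ((2 ^ (N + n) : ℕ) : S) := by
          rw [mul_assoc, h1, ← pow_add, ← pow_succ']
          push_cast
          congr 1
          omega
        rw [h2, map_natCast, ZMod.natCast_self]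
      · have h1 := hd1 (i + 1) (by omega) hj
        have h2 := hd1 (i + 1 + 1) (by omega) (by omega)
        have h3 : (2 : S) * ((i + 1 : ℕ) : S) * d (i + 1) +
            ((N : S) - ((i + 1 : ℕ) : S)) * d (i + 1 + 1) = 0 := by
          have hc := congrArg (fun t : ℤ => (t : S)) (choose_rel N (i + 1))
          push_cast at hc h1 h2
          have h4 : (N.choose (i + 1) : S) * ((2 : S) * ((i + 1 : ℕ) : S) * d (i + 1) +
            ((N : S) - ((i + 1 : ℕ) : S)) * d (i + 1 + 1)) = 0 := by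
            push_cast
            rw [pow_succ] at h2
            linear_combination 2 * h1 + h2 - d (i + 1 + 1) * hc
          rcases mul_eq_zero.1 h4 with h | h
          · exact absurd h (hcne _ hj)
          · exact h
        rw [h3]
        simp
  · intro s hs
    obtain ⟨k, z, hk, hkz⟩ := hfrac s
    have h1 : ((z : ℤ) : ZMod (2 ^ (N + n))) = 0 := by
      have : ρ (z : S) = 0 := by rw [← hkz, map_mul, hs, mul_zero]
      rwa [map_intCast] at this
    obtain ⟨w, hw⟩ := (ZMod.intCast_zmod_eq_zero_iff_dvd z _).1 h1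
    obtain ⟨u, hu⟩ := hodd k hk
    refine ⟨((u⁻¹ : Sˣ) : S) * (w : S), ?_⟩
    have h2 : s = ((u⁻¹ : Sˣ) : S) * (z : S) := by
      rw [← hkz, ← hu, ← mul_assoc, Units.inv_mul, one_mul]
    rw [h2, hw]
    push_cast
    ring

end Pool.Agent.NH69.SP
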