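import Pool.Agent.NH69.SP4

set_option autoImplicit false

namespace Pool.Agent.NH69.SP

open Finset

/-! ### The Laplacian -/

/-- flipAt one coordinate -/
def flipAt {m : ℕ} (v : Fin m → Bool) (i : Fin m) : Fin m → Bool := Function.update v i (!(v i))

/-- explicit Laplacian of the cube -/
def Lap (S : Type) [CommRing S] (m : ℕ) : R S m →ₗ[S] R S m where
  toFun f := fun v => ∑ i, (f v - f (flipAt v i))
  map_add' f g := by
    funext v
    simp only [Pi.add_apply, ← Finset.sum_add_distrib]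
    exact Finset.sum_congr rfl fun i _ => by ring
  map_smul' c f := by
    funext v
    simp only [Pi.smul_apply, smul_eq_mul, RingHom.id_apply, Finset.mul_sum]
    exact Finset.sum_congr rfl fun i _ => by ring

variable {S : Type} [CommRing S]

lemma Lap_apply (m : ℕ) (f : R S m) (v : Fin m → Bool) :
    Lap S m f v = ∑ i, (f v - f (flipAt v i)) := rfl

lemma flipAt_cons_zero {m : ℕ} (b : Bool) (v : Fin m → Bool) :
    flipAt (Fin.cons b v : Fin (m + 1) → Bool) 0 = Fin.cons (!b) v := by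
  simp [flipAt]

lemma flipAt_cons_succ {m : ℕ} (b : Bool) (v : Fin m → Bool) (i : Fin m) :
    flipAt (Fin.cons b v : Fin (m + 1) → Bool) i.succ = Fin.cons b (flipAt v i) := by
  simp [flipAt]

lemma sp_Lap (m : ℕ) (x : R S (m + 1)) : sp S m (Lap S (m + 1) x) =
    (Lap S m (sp S m x).1 + (sp S m x).1 - (sp S m x).2,
      Lap S m (sp S m x).2 + (sp S m x).2 - (sp S m x).1) := by
  refine Prod.ext ?_ ?_
  · funext v
    show Lap S (m + 1) x (Fin.cons false v) = _
    rw [Lap_apply, Fin.sum_univ_succ, flipAt_cons_zero]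
    simp only [flipAt_cons_succ, Pi.add_apply, Pi.sub_apply, Lap_apply]
    show x (Fin.cons false v) - x (Fin.cons true v) + _ = _
    simp only [sp, LinearEquiv.coe_mk, LinearMap.coe_mk, AddHom.coe_mk]
    ring
  · funext v
    show Lap S (m + 1) x (Fin.cons true v) = _
    rw [Lap_apply, Fin.sum_univ_succ, flipAt_cons_zero]
    simp only [flipAt_cons_succ, Pi.add_apply, Pi.sub_apply, Lap_apply]
    show x (Fin.cons true v) - x (Fin.cons false v) + _ = _
    simp only [sp, LinearEquiv.coe_mk, LinearMap.coe_mk, AddHom.coe_mk]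
    ring

/-- change of basis -/
def Ph (S : Type) [CommRing S] : ∀ m, R S m →ₗ[S] R S m
  | 0 => LinearMap.id
  | m + 1 => blk S m (Ph S m) (Ph S m) 0 (-(Ph S m))

lemma sp_Ph (m : ℕ) (x : R S (m + 1)) : sp S m (Ph S (m + 1) x) =
    (Ph S m (sp S m x).1 + Ph S m (sp S m x).2, -(Ph S m (sp S m x).2)) := by
  simp [Ph, sp_blk]

lemma Ph_Ph (m : ℕ) (x : R S m) : Ph S m (Ph S m x) = x := by
  induction m with
  | zero => rfl
  | succ m ih =>
    apply (sp S m).injective
    rw [sp_Ph, sp_Ph]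
    refine Prod.ext ?_ ?_
    · simp [ih]
    · simp [ih]

lemma Lap_Ph (m : ℕ) (x : R S m) : Lap S m (Ph S m x) = Ph S m (T S m x) := by
  induction m with
  | zero =>
    funext v
    simp [Lap_apply, T]
  | succ m ih =>
    apply (sp S m).injective
    rw [sp_Lap, sp_Ph, sp_Ph, sp_T]
    refine Prod.ext ?_ ?_
    · simp only [map_add, map_smul, map_neg, ih]
      module
    · simp only [map_add, map_smul, map_neg, ih]
      module

/-- range of the Laplacian -/
abbrev KL (S : Type) [CommRing S] (m : ℕ) : AddSubgroup (R S m) :=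
  (Lap S m).toAddMonoidHom.range

lemma mem_KL {m : ℕ} {x : R S m} : x ∈ KL S m ↔ ∃ y, Lap S m y = x := by
  rw [AddMonoidHom.mem_range]; rfl

theorem coker_equiv (S : Type) [CommRing S] (m : ℕ) :
    Nonempty ((R S m ⧸ KL S m) ≃+ (R S m ⧸ Dat.K S m)) := by
  let e : R S m ≃+ R S m :=
    { toFun := Ph S m
      invFun := Ph S m
      left_inv := Ph_Ph m
      right_inv := Ph_Ph m
      map_add' := map_add _ }
  refine ⟨QuotientAddGroup.congr _ _ e ?_⟩
  ext x
  rw [AddSubgroup.mem_map]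
  constructor
  · rintro ⟨y, hy, rfl⟩
    obtain ⟨z, rfl⟩ := mem_KL.1 hy
    refine Dat.mem_K.2 ⟨Ph S m z, ?_⟩
    show T S m (Ph S m z) = Ph S m (Lap S m z)
    have h := Lap_Ph m (Ph S m z)
    rw [Ph_Ph] at h
    rw [h, Ph_Ph]
  · intro hx
    obtain ⟨z, rfl⟩ := Dat.mem_K.1 hx
    refine ⟨Ph S m (T S m z), mem_KL.2 ⟨Ph S m z, Lap_Ph m z⟩, ?_⟩
    exact Ph_Ph m _

/-! ### Transfer from `ℤ` to `S` -/

/-- coordinatewise cast -/
def io (S : Type) [CommRing S] (m : ℕ) : R ℤ m →+ R S m where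
  toFun f := fun v => (f v : S)
  map_zero' := by funext v; simp
  map_add' f g := by funext v; simp

lemma io_Lap (m : ℕ) (f : R ℤ m) : io S m (Lap ℤ m f) = Lap S m (io S m f) := by
  funext v
  simp [io, Lap_apply]

lemma clear (hfrac : ∀ s : S, ∃ k z : ℤ, Odd k ∧ (k : S) * s = z) (m : ℕ) (u : R S m) :
    ∃ k : ℤ, Odd k ∧ ∃ u' : R ℤ m, (k : S) • u = io S m u' := by
  choose k z hk hz using fun v => hfrac (u v)
  refine ⟨∏ v, k v, Finset.prod_induction _ _ (fun a b => Odd.mul) odd_one (fun v _ => hk v),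
    fun v => (∏ w ∈ univ.erase v, k w) * z v, ?_⟩
  funext v
  simp only [Pi.smul_apply, smul_eq_mul, io, AddMonoidHom.coe_mk, ZeroHom.coe_mk]
  rw [← Finset.mul_prod_erase univ k (mem_univ v)]
  push_cast
  rw [← hz v]
  push_cast
  ring

theorem transfer [CharZero S] (hfrac : ∀ s : S, ∃ k z : ℤ, Odd k ∧ (k : S) * s = z) (m : ℕ) :
    Nonempty (two (R ℤ m ⧸ KL ℤ m) ≃+ two (R S m ⧸ KL S m)) := by
  have hio : Function.Injective (io S m) := by
    intro a b hab
    funext v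
    have := congrFun hab v
    simpa [io] using this
  have hsm : ∀ (k : ℤ) (x : R ℤ m), io S m (k • x) = (k : S) • io S m x := by
    intro k x
    funext v
    simp [io]
  refine quot_two_equiv (KL ℤ m) ((QuotientAddGroup.mk' (KL S m)).comp (io S m)) ?_ ?_ ?_
  · intro x hx
    obtain ⟨y, rfl⟩ := mem_KL.1 hx
    rw [AddMonoidHom.comp_apply, io_Lap]
    exact (QuotientAddGroup.eq_zero_iff _).2 (mem_KL.2 ⟨_, rfl⟩)
  · rintro x ⟨k, hk⟩ hx
    obtain ⟨u, hu⟩ := mem_KL.1 ((QuotientAddGroup.eq_zero_iff _).1 hx)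
    obtain ⟨k', hk', u', hu'⟩ := clear hfrac m u
    have h1 : k' • x ∈ KL ℤ m := by
      refine mem_KL.2 ⟨u', ?_⟩
      apply hio
      rw [io_Lap, ← hu', map_smul, hu, hsm]
    have hcop : IsCoprime k' ((2 : ℤ) ^ k) := by
      apply IsCoprime.pow_right
      exact (Int.prime_two.coprime_iff_not_dvd.2 (by
          rw [← even_iff_two_dvd, Int.not_even_iff_odd]; exact hk')).symm
    obtain ⟨a, b, hab⟩ := hcop
    have h2 : x = a • (k' • x) + b • ((2 ^ k : ℕ) • x) := by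
      have h3 : ((2 ^ k : ℕ) • x) = ((2 : ℤ) ^ k) • x := by
        rw [← natCast_zsmul]; push_cast; rfl
      rw [h3, smul_smul, smul_smul, ← add_smul, hab, one_smul]
    rw [h2]
    exact add_mem (AddSubgroup.zsmul_mem _ h1 a) (AddSubgroup.zsmul_mem _ hk b)
  · intro y hy
    obtain ⟨w, rfl⟩ := QuotientAddGroup.mk'_surjective (KL S m) y
    obtain ⟨k, hk⟩ := mem_two.1 hy
    rw [← map_nsmul] at hk
    obtain ⟨u, hu⟩ := mem_KL.1 ((QuotientAddGroup.eq_zero_iff _).1 hk)
    obtain ⟨k1, hk1, w1, hw1⟩ := clear hfrac m w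
    obtain ⟨k2, hk2, u2, hu2⟩ := clear hfrac m u
    have hk12 : Odd (k1 * k2) := hk1.mul hk2
    have hcop : IsCoprime (k1 * k2) ((2 : ℤ) ^ k) := by
      apply IsCoprime.pow_right
      exact (Int.prime_two.coprime_iff_not_dvd.2 (by
          rw [← even_iff_two_dvd, Int.not_even_iff_odd]; exact hk12)).symm
    obtain ⟨a, b, hab⟩ := hcop
    have h2k : ((2 ^ k : ℕ) • w) = ((2 : S) ^ k) • w := by
      rw [← Nat.cast_smul_eq_nsmul S]; push_cast; rfl
    refine ⟨(a * k2) • w1, ⟨k, ?_⟩, ?_⟩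
    · refine mem_KL.2 ⟨(a * k1) • u2, ?_⟩
      apply hio
      rw [io_Lap, hsm, ← hu2, ← natCast_zsmul, hsm, hsm, ← hw1, map_smul, map_smul, hu, h2k]
      simp only [smul_smul]
      congr 1
      push_cast
      ring
    · show QuotientAddGroup.mk' (KL S m) (io S m ((a * k2) • w1)) = QuotientAddGroup.mk' (KL S m) w
      have h3 : io S m ((a * k2) • w1) = w - Lap S m ((b : S) • u) := by
        rw [hsm, ← hw1, map_smul, hu, h2k]
        have hab' : (a : S) * ((k1 : S) * k2) + b * 2 ^ k = 1 := by exact_mod_cast congrArg (fun t : ℤ => (t : S)) hab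
        have h4 : w - (b : S) • ((2 : S) ^ k) • w = (1 - b * 2 ^ k : S) • w := by module
        rw [h4, ← hab', smul_smul]
        congr 1
        push_cast
        ring
      rw [h3, map_sub]
      have : QuotientAddGroup.mk' (KL S m) (Lap S m ((b : S) • u)) = 0 :=
        (QuotientAddGroup.eq_zero_iff _).2 (mem_KL.2 ⟨_, rfl⟩)
      rw [this, sub_zero]

/-! ### The localization -/

/-- odd integers -/
def oddM : Submonoid ℤ where
  carrier := {z | Odd z}
  one_mem' := odd_one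
  mul_mem' := fun ha hb => Odd.mul ha hb

lemma oddM_le : oddM ≤ nonZeroDivisors ℤ := by
  intro z hz
  rw [mem_nonZeroDivisors_iff_ne_zero]
  rintro rfl
  have : Odd (0 : ℤ) := hz
  exact absurd this (by decide)

/-- `ℤ_(2)` -/
abbrev Z2 := Localization oddM

instance : IsDomain Z2 := IsLocalization.isDomain_localization oddM_le

instance : CharZero Z2 :=
  charZero_of_injective_algebraMap (IsLocalization.injective Z2 oddM_le)

lemma Z2_odd (z : ℤ) (hz : Odd z) : IsUnit (z : Z2) := by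
  have := IsLocalization.map_units Z2 (⟨z, hz⟩ : oddM)
  simpa using this

lemma Z2_frac (s : Z2) : ∃ k z : ℤ, Odd k ∧ (k : Z2) * s = z := by
  obtain ⟨⟨z, k⟩, hz⟩ := IsLocalization.surj oddM s
  refine ⟨k, z, k.2, ?_⟩
  rw [mul_comm]
  simpa using hz

lemma exists_rho (κ : ℕ) : Nonempty (Z2 →+* ZMod (2 ^ κ)) := by
  refine ⟨IsLocalization.lift (M := oddM) (g := Int.castRingHom (ZMod (2 ^ κ))) ?_⟩
  rintro ⟨z, hz⟩
  show IsUnit ((z : ℤ) : ZMod (2 ^ κ))
  rw [ZMod.coe_int_isUnit_iff_isCoprime]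
  push_cast
  apply IsCoprime.pow_left
  exact Int.prime_two.coprime_iff_not_dvd.2 (by
          rw [← even_iff_two_dvd, Int.not_even_iff_odd]; exact hz)

theorem main_int (n N : ℕ) (hn : 1 ≤ n) (hN : N + 1 = 2 ^ n) :
    Nonempty (two (R ℤ (N + 1) ⧸ KL ℤ (N + 1)) ≃+
      (two (R ℤ N ⧸ KL ℤ N) × two (R ℤ N ⧸ KL ℤ N)) × ZMod (2 ^ (N + n))) := by
  obtain ⟨ρ⟩ := exists_rho (N + n)
  obtain ⟨𝒟⟩ := exists_dat Z2 n N hn hN Z2_odd Z2_frac ρ
  obtain ⟨e1⟩ := transfer Z2_frac (N + 1)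
  obtain ⟨e2⟩ := transfer Z2_frac N
  obtain ⟨f1⟩ := coker_equiv Z2 (N + 1)
  obtain ⟨f2⟩ := coker_equiv Z2 N
  obtain ⟨g1⟩ := two_congr f1
  obtain ⟨g2⟩ := two_congr f2
  obtain ⟨h⟩ := 𝒟.main 𝒟.hdvd
  let k : two (R ℤ N ⧸ KL ℤ N) ≃+ two (R Z2 N ⧸ Dat.K Z2 N) := e2.trans g2
  exact ⟨((e1.trans g1).trans h).trans
    (AddEquiv.prodCongr (AddEquiv.prodCongr k.symm k.symm) (AddEquiv.refl _))⟩

end Pool.Agent.NH69.SP
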