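import Mathlib

/-!
# Trivalent graphs with prescribed automorphism group: the gadget

A fixed graph on 24 vertices (the truncation of a graph with 8 nodes), in which every vertex lies
in a triangle and in which the numbers of walks of length 7 from the 24 vertices are pairwise
distinct.
-/

namespace Pool.Agent.NH69.TV

/-- The edges of the gadget. -/
def gedges : List (ℕ × ℕ) :=
  [(0, 1), (0, 2), (1, 2), (1, 3), (2, 4), (3, 5), (3, 6), (4, 7), (4, 8), (5, 6), (5, 9), (6, 10),
   (7, 8), (7, 11), (8, 12), (9, 11), (9, 13), (10, 14), (10, 15), (11, 13), (12, 16), (12, 17),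
   (13, 18), (14, 15), (14, 19), (15, 16), (16, 17), (18, 20), (18, 21), (19, 22), (19, 23),
   (20, 21), (20, 22), (22, 23)]

/-- Adjacency in the gadget. -/
def gadj (x y : Fin 24) : Prop := (x.val, y.val) ∈ gedges ∨ (y.val, x.val) ∈ gedges

instance : DecidableRel gadj := fun x y => by unfold gadj; infer_instance

/-- The four terminals of the gadget: the ends of the two port paths. -/
def term (c e : Bool) : Fin 24 :=
  match c, e with
  | false, false => 0
  | false, true => 23
  | true, false => 21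
  | true, true => 17

lemma gadj_symm {x y : Fin 24} (h : gadj x y) : gadj y x := by
  unfold gadj at *; tauto

lemma gadj_irrefl : ∀ x : Fin 24, ¬ gadj x x := by decide +kernel

lemma term_inj : ∀ c e c' e' : Bool, term c e = term c' e' → c = c' ∧ e = e' := by decide +kernel

lemma term_not_adj : ∀ c e c' e' : Bool, ¬ gadj (term c e) (term c' e') := by decide +kernel

lemma tri : ∀ x : Fin 24, ∃ y z, gadj x y ∧ gadj y z ∧ gadj z x := by decide +kernel

lemma card_nonterm : ∀ x : Fin 24, (∀ c e, x ≠ term c e) →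
    (Finset.univ.filter (fun y => gadj x y)).card = 3 := by decide +kernel

lemma card_term : ∀ c e, (Finset.univ.filter (fun y => gadj (term c e) y)).card = 2 := by
  decide +kernel

lemma parent : ∀ x : Fin 24, x ≠ 0 → ∃ y, y < x ∧ gadj x y := by decide +kernel

/-- Table of the numbers of walks of length `k` in the gadget starting at `x`. -/
def tab (k : ℕ) (x : Fin 24) : ℕ :=
  (([[1, 1, 1, 1, 1, 1, 1, 1, 1, 1, 1, 1, 1, 1, 1, 1, 1, 1, 1, 1, 1, 1, 1, 1],
    [2, 3, 3, 3, 3, 3, 3, 3, 3, 3, 3, 3, 3, 3, 3, 3, 3, 2, 3, 3, 3, 2, 3, 2],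
    [6, 8, 8, 9, 9, 9, 9, 9, 9, 9, 9, 9, 8, 9, 9, 9, 8, 6, 8, 8, 8, 6, 8, 6],
    [16, 23, 23, 26, 26, 27, 27, 27, 26, 27, 27, 27, 23, 26, 26, 26, 23, 16, 23, 23, 22, 16, 22, 16],
    [46, 65, 65, 77, 76, 80, 80, 79, 76, 80, 79, 80, 65, 77, 76, 76, 65, 46, 64, 64, 61, 45, 61, 45],
    [130, 188, 187, 225, 220, 237, 236, 232, 220, 237, 232, 236, 187, 224, 219, 220, 187, 130, 183, 182, 170, 125, 170, 125],
    [375, 542, 538, 661, 639, 698, 694, 676, 639, 697, 675, 693, 537, 656, 634, 638, 537, 374, 519, 514, 478, 353, 477, 352],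
    [1080, 1574, 1556, 1934, 1853, 2052, 2034, 1971, 1852, 2047, 1966, 2029, 1550, 1909, 1827, 1846, 1549, 1074, 1487, 1463, 1349, 997, 1344, 991]] : List (List ℕ)).getD k []).getD x.val 0

lemma tab_zero : ∀ x : Fin 24, tab 0 x = 1 := by decide +kernel

lemma tab_step : ∀ k : Fin 7, ∀ x : Fin 24,
    tab (k.val + 1) x = ∑ y, if gadj x y then tab k.val y else 0 := by decide +kernel

lemma tab_inj : ∀ x y : Fin 24, tab 7 x = tab 7 y → x = y := by decide +kernel

end Pool.Agent.NH69.TV
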