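import Mathlib
import Pool.Agent.NH69.TV1

/-!
# Trivalent graphs with prescribed automorphism group: the graph
-/

namespace Pool.Agent.NH69.TV

variable {G : Type*} [Group G] {d : ℕ}

/-- Labels: the 24 gadget vertices and two paths of `d` ports. -/
abbrev Lab (d : ℕ) := Fin 24 ⊕ (Bool × Fin d)

/-- The adjacency relation of the graph. -/
def radj (s : Fin d → G) : G × Lab d → G × Lab d → Prop
  | (g, Sum.inl x), (h, Sum.inl y) => g = h ∧ gadj x y
  | (g, Sum.inl x), (h, Sum.inr (c, i)) =>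
      g = h ∧ ((x = term c false ∧ i.val = 0) ∨ (x = term c true ∧ i.val + 1 = d))
  | (g, Sum.inr (c, i)), (h, Sum.inl x) =>
      g = h ∧ ((x = term c false ∧ i.val = 0) ∨ (x = term c true ∧ i.val + 1 = d))
  | (g, Sum.inr (c, i)), (h, Sum.inr (c', j)) =>
      (g = h ∧ c = c' ∧ (i.val + 1 = j.val ∨ j.val + 1 = i.val)) ∨
      (i = j ∧ ((c = false ∧ c' = true ∧ h = g * s i) ∨ (c = true ∧ c' = false ∧ g = h * s i)))

lemma radj_symm (s : Fin d → G) {v w : G × Lab d} (h : radj s v w) : radj s w v := by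
  obtain ⟨g, x | ⟨c, i⟩⟩ := v <;> obtain ⟨k, y | ⟨c', j⟩⟩ := w
  · exact ⟨h.1.symm, gadj_symm h.2⟩
  · exact ⟨h.1.symm, h.2⟩
  · exact ⟨h.1.symm, h.2⟩
  · rcases h with ⟨h1, h2, h3⟩ | ⟨h1, h2⟩
    · exact Or.inl ⟨h1.symm, h2.symm, h3.symm⟩
    · right
      subst h1
      refine ⟨rfl, ?_⟩
      rcases h2 with ⟨a, b, e⟩ | ⟨a, b, e⟩
      · exact Or.inr ⟨b, a, e⟩
      · exact Or.inl ⟨b, a, e⟩

lemma radj_irrefl (s : Fin d → G) (v : G × Lab d) : ¬ radj s v v := by
  obtain ⟨g, x | ⟨c, i⟩⟩ := v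
  · rintro ⟨-, h⟩
    exact gadj_irrefl x h
  · rintro (⟨-, -, h⟩ | ⟨-, h⟩)
    · omega
    · rcases h with ⟨a, b, -⟩ | ⟨a, b, -⟩
      · simp [a] at b
      · simp [a] at b

/-- The graph. -/
def X (s : Fin d → G) : SimpleGraph (G × Lab d) where
  Adj := radj s
  symm := ⟨fun _ _ h => radj_symm s h⟩
  loopless := ⟨fun v h => radj_irrefl s v h⟩

/-- The points of the path of colour `c`: `pt c 0` and `pt c (d+1)` are terminals of the gadget, the
points between are the ports. -/
def pt (d : ℕ) (c : Bool) (k : ℕ) : Lab d :=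
  if k = 0 then Sum.inl (term c false)
  else if h : k - 1 < d then Sum.inr (c, ⟨k - 1, h⟩) else Sum.inl (term c true)

/-- The other end of the external edge at the port `(g, c, i)`. -/
def ext (s : Fin d → G) (c : Bool) (i : Fin d) (g : G) : G :=
  if c then g * (s i)⁻¹ else g * s i

lemma pt_zero (c : Bool) : pt d c 0 = Sum.inl (term c false) := by simp [pt]

lemma pt_succ (c : Bool) (i : Fin d) : pt d c (i.val + 1) = Sum.inr (c, i) := by
  simp [pt]

lemma pt_last (c : Bool) : pt d c (d + 1) = Sum.inl (term c true) := by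
  simp [pt]

lemma pt_cases (c : Bool) (k : ℕ) (hk : k ≤ d + 1) :
    (k = 0 ∧ pt d c k = Sum.inl (term c false)) ∨
    (∃ i : Fin d, k = i.val + 1 ∧ pt d c k = Sum.inr (c, i)) ∨
    (k = d + 1 ∧ pt d c k = Sum.inl (term c true)) := by
  rcases Nat.eq_zero_or_pos k with h | h
  · left
    exact ⟨h, by rw [h, pt_zero]⟩
  · rcases Nat.lt_or_ge (k - 1) d with h1 | h1
    · right; left
      refine ⟨⟨k - 1, h1⟩, by simp only; omega, ?_⟩
      rw [← pt_succ]
      congr 1
      simp only
      omega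
    · right; right
      have : k = d + 1 := by omega
      exact ⟨this, by rw [this, pt_last]⟩

lemma adj_gadget (s : Fin d → G) (g : G) (x : Fin 24) (k : G) (y : Fin 24) :
    (X s).Adj (g, Sum.inl x) (k, Sum.inl y) ↔ g = k ∧ gadj x y := Iff.rfl

lemma adj_gadget_port (s : Fin d → G) (g : G) (x : Fin 24) (k : G) (c : Bool) (i : Fin d) :
    (X s).Adj (g, Sum.inl x) (k, Sum.inr (c, i)) ↔
      g = k ∧ ((x = term c false ∧ i.val = 0) ∨ (x = term c true ∧ i.val + 1 = d)) := Iff.rfl

lemma adj_port_gadget (s : Fin d → G) (g : G) (x : Fin 24) (k : G) (c : Bool) (i : Fin d) :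
    (X s).Adj (g, Sum.inr (c, i)) (k, Sum.inl x) ↔
      g = k ∧ ((x = term c false ∧ i.val = 0) ∨ (x = term c true ∧ i.val + 1 = d)) := Iff.rfl

lemma adj_port_port (s : Fin d → G) (g : G) (c' : Bool) (j : Fin d) (k : G) (c : Bool)
    (i : Fin d) :
    (X s).Adj (g, Sum.inr (c, i)) (k, Sum.inr (c', j)) ↔
      ((g = k ∧ c = c' ∧ (i.val + 1 = j.val ∨ j.val + 1 = i.val)) ∨
      (i = j ∧ ((c = false ∧ c' = true ∧ k = g * s i) ∨ (c = true ∧ c' = false ∧ g = k * s i)))) :=
  Iff.rfl

lemma adj_port (s : Fin d → G) (g : G) (c : Bool) (i : Fin d) (w : G × Lab d) :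
    (X s).Adj (g, Sum.inr (c, i)) w ↔
      w = (g, pt d c i.val) ∨ w = (g, pt d c (i.val + 2)) ∨ w = (ext s c i g, Sum.inr (!c, i)) := by
  have hi := i.isLt
  obtain ⟨k, y | ⟨c', j⟩⟩ := w
  · rw [adj_port_gadget]
    constructor
    · rintro ⟨rfl, ⟨h1, h2⟩ | ⟨h1, h2⟩⟩
      · left
        rw [h2, pt_zero, h1]
      · right; left
        have : i.val + 2 = d + 1 := by omega
        rw [this, pt_last c, h1]
    · rintro (h | h | h)
      · simp only [Prod.mk.injEq] at h
        obtain ⟨rfl, h⟩ := h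
        refine ⟨rfl, ?_⟩
        rcases pt_cases (d := d) c i.val (by omega) with ⟨h1, h2⟩ | ⟨m, h1, h2⟩ | ⟨h1, h2⟩
        · left
          rw [h2] at h
          exact ⟨by simpa using h, h1⟩
        · rw [h2] at h; simp at h
        · omega
      · simp only [Prod.mk.injEq] at h
        obtain ⟨rfl, h⟩ := h
        refine ⟨rfl, ?_⟩
        rcases pt_cases (d := d) c (i.val + 2) (by omega) with ⟨h1, h2⟩ | ⟨m, h1, h2⟩ | ⟨h1, h2⟩
        · omega
        · rw [h2] at h; simp at h
        · right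
          rw [h2] at h
          exact ⟨by simpa using h, by omega⟩
      · simp at h
  · rw [adj_port_port]
    have hj := j.isLt
    constructor
    · rintro (⟨rfl, rfl, h1 | h1⟩ | ⟨rfl, ⟨rfl, rfl, rfl⟩ | ⟨rfl, rfl, rfl⟩⟩)
      · right; left
        have : i.val + 2 = j.val + 1 := by omega
        rw [this, pt_succ]
      · left
        rw [← h1, pt_succ]
      · right; right
        simp [ext]
      · right; right
        simp [ext]
    · rintro (h | h | h)
      · simp only [Prod.mk.injEq] at h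
        obtain ⟨rfl, h⟩ := h
        left
        refine ⟨rfl, ?_⟩
        rcases pt_cases (d := d) c i.val (by omega) with ⟨h1, h2⟩ | ⟨m, h1, h2⟩ | ⟨h1, h2⟩
        · rw [h2] at h; simp at h
        · rw [h2] at h
          simp only [Sum.inr.injEq, Prod.mk.injEq] at h
          obtain ⟨rfl, rfl⟩ := h
          exact ⟨rfl, Or.inr h1.symm⟩
        · omega
      · simp only [Prod.mk.injEq] at h
        obtain ⟨rfl, h⟩ := h
        left
        refine ⟨rfl, ?_⟩
        rcases pt_cases (d := d) c (i.val + 2) (by omega) with ⟨h1, h2⟩ | ⟨m, h1, h2⟩ | ⟨h1, h2⟩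
        · omega
        · rw [h2] at h
          simp only [Sum.inr.injEq, Prod.mk.injEq] at h
          obtain ⟨rfl, rfl⟩ := h
          exact ⟨rfl, Or.inl (by omega)⟩
        · rw [h2] at h; simp at h
      · simp only [Prod.mk.injEq, Sum.inr.injEq] at h
        obtain ⟨rfl, rfl, rfl⟩ := h
        right
        refine ⟨rfl, ?_⟩
        cases c
        · simp [ext]
        · simp [ext]

/-- Being in a triangle. -/
def IsTri {V : Type*} (X : SimpleGraph V) (v : V) : Prop := ∃ u w, X.Adj v u ∧ X.Adj u w ∧ X.Adj w v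

lemma isTri_gadget (s : Fin d → G) (g : G) (x : Fin 24) : IsTri (X s) (g, Sum.inl x) := by
  obtain ⟨y, z, h1, h2, h3⟩ := tri x
  exact ⟨(g, Sum.inl y), (g, Sum.inl z), ⟨rfl, h1⟩, ⟨rfl, h2⟩, ⟨rfl, h3⟩⟩

/-- Two points of one path are adjacent only if they are consecutive. -/
lemma pt_pt (s : Fin d → G) (g h : G) (c : Bool) (k l : ℕ) (hk : k ≤ d + 1) (hl : l ≤ d + 1)
    (hadj : (X s).Adj (g, pt d c k) (h, pt d c l)) : k + 1 = l ∨ l + 1 = k := by
  rcases pt_cases c k hk with ⟨h1, h2⟩ | ⟨i, h1, h2⟩ | ⟨h1, h2⟩ <;>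
    rcases pt_cases c l hl with ⟨h3, h4⟩ | ⟨j, h3, h4⟩ | ⟨h3, h4⟩ <;>
    rw [h2, h4] at hadj
  · exact absurd hadj.2 (term_not_adj _ _ _ _)
  · rw [adj_gadget_port] at hadj
    rcases hadj.2 with ⟨-, h5⟩ | ⟨h5, -⟩
    · omega
    · have := (term_inj _ _ _ _ h5).2
      simp at this
  · exact absurd hadj.2 (term_not_adj _ _ _ _)
  · rw [adj_port_gadget] at hadj
    rcases hadj.2 with ⟨-, h5⟩ | ⟨h5, -⟩
    · omega
    · have := (term_inj _ _ _ _ h5).2
      simp at this
  · rw [adj_port_port] at hadj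
    rcases hadj with ⟨-, -, h5⟩ | ⟨-, ⟨h5, h6, -⟩ | ⟨h5, h6, -⟩⟩
    · omega
    · simp [h5] at h6
    · simp [h5] at h6
  · rw [adj_port_gadget] at hadj
    rcases hadj.2 with ⟨h5, -⟩ | ⟨-, h5⟩
    · have := (term_inj _ _ _ _ h5).2
      simp at this
    · omega
  · exact absurd hadj.2 (term_not_adj _ _ _ _)
  · rw [adj_gadget_port] at hadj
    rcases hadj.2 with ⟨h5, -⟩ | ⟨-, h5⟩
    · have := (term_inj _ _ _ _ h5).2
      simp at this
    · omega
  · exact absurd hadj.2 (term_not_adj _ _ _ _)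

/-- A point of the path of colour `c` and a port of the other path are adjacent only if they carry
the same index. -/
lemma pt_other (s : Fin d → G) (g h : G) (c : Bool) (k : ℕ) (hk : k ≤ d + 1) (i : Fin d)
    (hadj : (X s).Adj (g, pt d c k) (h, Sum.inr (!c, i))) : k = i.val + 1 := by
  rcases pt_cases c k hk with ⟨h1, h2⟩ | ⟨j, h1, h2⟩ | ⟨h1, h2⟩ <;> rw [h2] at hadj
  · rw [adj_gadget_port] at hadj
    rcases hadj.2 with ⟨h5, -⟩ | ⟨h5, -⟩
    · have := (term_inj _ _ _ _ h5).1
      simp at this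
    · have := (term_inj _ _ _ _ h5).1
      simp at this
  · rw [adj_port_port] at hadj
    rcases hadj with ⟨-, h5, -⟩ | ⟨h5, -⟩
    · simp at h5
    · rw [h1, h5]
  · rw [adj_gadget_port] at hadj
    rcases hadj.2 with ⟨h5, -⟩ | ⟨h5, -⟩
    · have := (term_inj _ _ _ _ h5).1
      simp at this
    · have := (term_inj _ _ _ _ h5).1
      simp at this

lemma not_isTri_port (s : Fin d → G) (g : G) (c : Bool) (i : Fin d) :
    ¬ IsTri (X s) (g, Sum.inr (c, i)) := by
  have hi := i.isLt
  rintro ⟨u, w, h1, h2, h3⟩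
  have h3 := h3.symm
  rw [adj_port] at h1 h3
  rcases h1 with rfl | rfl | rfl <;> rcases h3 with rfl | rfl | rfl
  · exact (X s).irrefl h2
  · have := pt_pt s _ _ _ _ _ (by omega) (by omega) h2
    omega
  · have := pt_other s _ _ _ _ (by omega) _ h2
    omega
  · have := pt_pt s _ _ _ _ _ (by omega) (by omega) h2
    omega
  · exact (X s).irrefl h2
  · have := pt_other s _ _ _ _ (by omega) _ h2
    omega
  · have := pt_other s _ _ _ _ (by omega) _ h2.symm
    omega
  · have := pt_other s _ _ _ _ (by omega) _ h2.symm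
    omega
  · exact (X s).irrefl h2

lemma isTri_iff (s : Fin d → G) (v : G × Lab d) : IsTri (X s) v ↔ ∃ g x, v = (g, Sum.inl x) := by
  constructor
  · intro h
    obtain ⟨g, x | ⟨c, i⟩⟩ := v
    · exact ⟨g, x, rfl⟩
    · exact absurd h (not_isTri_port s g c i)
  · rintro ⟨g, x, rfl⟩
    exact isTri_gadget s g x

lemma pt_inj (c : Bool) (k l : ℕ) (hk : k ≤ d + 1) (hl : l ≤ d + 1)
    (h : pt d c k = pt d c l) : k = l := by
  rcases pt_cases c k hk with ⟨h1, h2⟩ | ⟨i, h1, h2⟩ | ⟨h1, h2⟩ <;>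
    rcases pt_cases c l hl with ⟨h3, h4⟩ | ⟨j, h3, h4⟩ | ⟨h3, h4⟩ <;>
    rw [h2, h4] at h
  · omega
  · simp at h
  · simp only [Sum.inl.injEq] at h
    have := (term_inj _ _ _ _ h).2
    simp at this
  · simp at h
  · simp only [Sum.inr.injEq, Prod.mk.injEq, true_and] at h
    rw [h1, h3, h]
  · simp at h
  · simp only [Sum.inl.injEq] at h
    have := (term_inj _ _ _ _ h).2
    simp at this
  · simp at h
  · omega

/-- The degree of a port is three. -/
lemma ncard_port (s : Fin d → G) (g : G) (c : Bool) (i : Fin d) :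
    ((X s).neighborSet (g, Sum.inr (c, i))).ncard = 3 := by
  have hi := i.isLt
  rw [Set.ncard_eq_three]
  refine ⟨(g, pt d c i.val), (g, pt d c (i.val + 2)), (ext s c i g, Sum.inr (!c, i)), ?_, ?_, ?_, ?_⟩
  · intro h
    simp only [Prod.mk.injEq, true_and] at h
    have := pt_inj _ _ _ (by omega) (by omega) h
    omega
  · intro h
    simp only [Prod.mk.injEq] at h
    have h' := h.2
    rcases pt_cases (d := d) c i.val (by omega) with ⟨h1, h2⟩ | ⟨m, h1, h2⟩ | ⟨h1, h2⟩ <;> rw [h2] at h' <;>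
      simp at h'
  · intro h
    simp only [Prod.mk.injEq] at h
    have h' := h.2
    rcases pt_cases (d := d) c (i.val + 2) (by omega) with ⟨h1, h2⟩ | ⟨m, h1, h2⟩ | ⟨h1, h2⟩ <;>
      rw [h2] at h' <;> simp at h'
  · ext w
    rw [SimpleGraph.mem_neighborSet, adj_port]
    simp

/-- The degree of a gadget vertex is three. -/
lemma ncard_gadget (s : Fin d → G) (hd : 1 ≤ d) (g : G) (x : Fin 24) :
    ((X s).neighborSet (g, Sum.inl x)).ncard = 3 := by
  classical
  by_cases hx : ∃ c e, x = term c e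
  · obtain ⟨c, e, rfl⟩ := hx
    obtain ⟨p, hp⟩ : ∃ p : Fin d, (e = false ∧ p.val = 0) ∨ (e = true ∧ p.val + 1 = d) := by
      cases e
      · exact ⟨⟨0, by omega⟩, Or.inl ⟨rfl, rfl⟩⟩
      · exact ⟨⟨d - 1, by omega⟩, Or.inr ⟨rfl, by simp only; omega⟩⟩
    have hset : (X s).neighborSet (g, Sum.inl (term c e)) =
        ↑(insert ((g, Sum.inr (c, p)) : G × Lab d)
          ((Finset.univ.filter (fun y => gadj (term c e) y)).image
            (fun y => ((g, Sum.inl y) : G × Lab d)))) := by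
      ext w
      rw [SimpleGraph.mem_neighborSet]
      obtain ⟨k, y | ⟨c', j⟩⟩ := w
      · rw [adj_gadget]
        simp [eq_comm, and_comm]
      · rw [adj_gadget_port]
        simp only [Finset.coe_insert, Finset.coe_image, Set.mem_insert_iff, Prod.mk.injEq,
          Sum.inr.injEq, Set.mem_image, reduceCtorEq, and_false, exists_false, or_false]
        constructor
        · rintro ⟨rfl, ⟨h1, h2⟩ | ⟨h1, h2⟩⟩
          · obtain ⟨rfl, rfl⟩ := term_inj _ _ _ _ h1
            refine ⟨rfl, rfl, ?_⟩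
            ext
            simp only [reduceCtorEq, false_and, or_false, true_and] at hp
            omega
          · obtain ⟨rfl, rfl⟩ := term_inj _ _ _ _ h1
            refine ⟨rfl, rfl, ?_⟩
            ext
            simp only [reduceCtorEq, false_and, false_or, true_and] at hp
            omega
        · rintro ⟨rfl, rfl, rfl⟩
          refine ⟨rfl, ?_⟩
          rcases hp with ⟨rfl, h⟩ | ⟨rfl, h⟩
          · exact Or.inl ⟨rfl, h⟩
          · exact Or.inr ⟨rfl, h⟩
    rw [hset, Set.ncard_coe_finset, Finset.card_insert_of_notMem (by simp),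
      Finset.card_image_of_injective, card_term]
    intro a b hab
    simpa using hab
  · push Not at hx
    have hset : (X s).neighborSet (g, Sum.inl x) =
        ↑((Finset.univ.filter (fun y => gadj x y)).image
            (fun y => ((g, Sum.inl y) : G × Lab d))) := by
      ext w
      rw [SimpleGraph.mem_neighborSet]
      obtain ⟨k, y | ⟨c', j⟩⟩ := w
      · rw [adj_gadget]
        simp [eq_comm, and_comm]
      · rw [adj_gadget_port]
        simp only [hx, false_and, or_self, and_false, Finset.coe_image, Set.mem_image,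
          Prod.mk.injEq, reduceCtorEq, exists_false]
    rw [hset, Set.ncard_coe_finset, Finset.card_image_of_injective, card_nonterm x hx]
    intro a b hab
    simpa using hab

lemma ncard_three (s : Fin d → G) (hd : 1 ≤ d) (v : G × Lab d) :
    ((X s).neighborSet v).ncard = 3 := by
  obtain ⟨g, x | ⟨c, i⟩⟩ := v
  · exact ncard_gadget s hd g x
  · exact ncard_port s g c i

end Pool.Agent.NH69.TV
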