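import Mathlib
import Pool.Agent.NH69.TV2

/-!
# Trivalent graphs with prescribed automorphism group: the automorphisms
-/

namespace Pool.Agent.NH69.TV

section General

variable {V : Type*} (Y : SimpleGraph V)

lemma isTri_iso (φ : Y ≃g Y) (v : V) : IsTri Y (φ v) ↔ IsTri Y v := by
  constructor
  · rintro ⟨u, w, h1, h2, h3⟩
    refine ⟨φ.symm u, φ.symm w, ?_, ?_, ?_⟩
    · rw [← φ.map_adj_iff]; simpa using h1
    · rw [← φ.map_adj_iff]; simpa using h2
    · rw [← φ.map_adj_iff]; simpa using h3
  · rintro ⟨u, w, h1, h2, h3⟩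
    exact ⟨φ u, φ w, φ.map_adj_iff.2 h1, φ.map_adj_iff.2 h2, φ.map_adj_iff.2 h3⟩

open Classical in
/-- Number of walks of length `k` from `v` all of whose later vertices lie in triangles. -/
noncomputable def cnt [Fintype V] (Y : SimpleGraph V) : ℕ → V → ℕ
  | 0, _ => 1
  | k + 1, v => ∑ u, if Y.Adj v u ∧ IsTri Y u then cnt Y k u else 0

lemma cnt_iso [Fintype V] (φ : Y ≃g Y) (k : ℕ) (v : V) : cnt Y k (φ v) = cnt Y k v := by
  classical
  induction k generalizing v with
  | zero => rfl
  | succ k ih =>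
    simp only [cnt]
    rw [← Equiv.sum_comp φ.toEquiv]
    refine Finset.sum_congr rfl (fun u _ => ?_)
    change (if Y.Adj (φ v) (φ u) ∧ IsTri Y (φ u) then cnt Y k (φ u) else 0) = _
    rw [ih, φ.map_adj_iff, isTri_iso]

end General

variable {G : Type*} [Group G] {d : ℕ}

lemma cnt_gadget [Fintype G] (s : Fin d → G) (k : ℕ) (hk : k ≤ 7) (g : G) (x : Fin 24) :
    cnt (X s) k (g, Sum.inl x) = tab k x := by
  classical
  induction k generalizing x g with
  | zero => simp [cnt, tab_zero]
  | succ k ih =>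
    have ht := tab_step ⟨k, by omega⟩ x
    simp only at ht
    rw [ht]
    simp only [cnt]
    rw [Fintype.sum_prod_type, Finset.sum_eq_single g]
    · rw [Fintype.sum_sum_type]
      have h2 : (∑ p : Bool × Fin d, if (X s).Adj (g, Sum.inl x) (g, Sum.inr p) ∧
          IsTri (X s) (g, Sum.inr p) then cnt (X s) k (g, Sum.inr p) else 0) = 0 := by
        apply Finset.sum_eq_zero
        rintro ⟨c, i⟩ -
        rw [if_neg]
        rintro ⟨-, h⟩
        exact not_isTri_port s g c i h
      rw [h2, add_zero]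
      refine Finset.sum_congr rfl (fun y _ => ?_)
      rw [adj_gadget, ih (by omega)]
      simp [isTri_gadget]
    · intro h _ hne
      apply Finset.sum_eq_zero
      rintro (y | ⟨c, i⟩) -
      · rw [if_neg]
        rintro ⟨⟨h1, -⟩, -⟩
        exact hne h1.symm
      · rw [if_neg]
        rintro ⟨-, h⟩
        exact not_isTri_port s _ c i h
    · intro h
      exact absurd (Finset.mem_univ _) h

/-- An automorphism preserves the gadget labels. -/
lemma aut_gadget [Fintype G] (s : Fin d → G) (φ : X s ≃g X s) (g : G) (x : Fin 24) :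
    ∃ h, φ (g, Sum.inl x) = (h, Sum.inl x) := by
  have h1 : IsTri (X s) (φ (g, Sum.inl x)) := (isTri_iso _ φ _).2 (isTri_gadget s g x)
  obtain ⟨h, y, hy⟩ := (isTri_iff s _).1 h1
  have h2 := cnt_iso (X s) φ 7 (g, Sum.inl x)
  rw [hy, cnt_gadget s 7 le_rfl, cnt_gadget s 7 le_rfl] at h2
  have h3 := tab_inj _ _ h2
  exact ⟨h, by rw [hy, h3]⟩

/-- The permutation of the group elements induced by an automorphism. -/
noncomputable def pr (s : Fin d → G) (φ : X s ≃g X s) (g : G) : G := (φ (g, Sum.inl 0)).1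

lemma aut_gadget' [Fintype G] (s : Fin d → G) (φ : X s ≃g X s) (g : G) (x : Fin 24) :
    φ (g, Sum.inl x) = (pr s φ g, Sum.inl x) := by
  induction x using WellFounded.induction (wellFounded_lt (α := Fin 24)) with
  | _ x ih =>
    by_cases hx : x = 0
    · subst hx
      obtain ⟨h, hh⟩ := aut_gadget s φ g 0
      unfold pr
      rw [hh]
    · obtain ⟨y, hy, hxy⟩ := parent x hx
      obtain ⟨h, hh⟩ := aut_gadget s φ g x
      have h1 := ih y hy
      have h2 : (X s).Adj (g, Sum.inl x) (g, Sum.inl y) := ⟨rfl, hxy⟩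
      have h3 := φ.map_adj_iff.2 h2
      rw [hh, h1, adj_gadget] at h3
      rw [hh, h3.1]

lemma aut_port_type [Fintype G] (s : Fin d → G) (φ : X s ≃g X s) (g : G) (c : Bool) (i : Fin d) :
    ∃ h p, φ (g, Sum.inr (c, i)) = (h, Sum.inr p) := by
  have h1 : ¬ IsTri (X s) (φ (g, Sum.inr (c, i))) := by
    rw [isTri_iso]
    exact not_isTri_port s g c i
  rcases hφ : φ (g, Sum.inr (c, i)) with ⟨h, y | p⟩
  · rw [hφ] at h1
    exact absurd (isTri_gadget s h y) h1
  · exact ⟨h, p, rfl⟩

lemma pt_ne (d : ℕ) (c : Bool) (k : ℕ) (hk : k ≤ d + 1) (i : Fin d) :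
    pt d c k ≠ Sum.inr (!c, i) := by
  intro h
  rcases pt_cases (d := d) c k hk with ⟨h1, h2⟩ | ⟨m, h1, h2⟩ | ⟨h1, h2⟩ <;> rw [h2] at h <;>
    simp at h

lemma aut_ext (s : Fin d → G) (φ : X s ≃g X s) (i : Fin d)
    (hP : ∀ g c, φ (g, Sum.inr (c, i)) = (pr s φ g, Sum.inr (c, i))) (g : G) (c : Bool) :
    pr s φ (ext s c i g) = ext s c i (pr s φ g) := by
  have hi := i.isLt
  have h1 : (X s).Adj (g, Sum.inr (c, i)) (ext s c i g, Sum.inr (!c, i)) := by
    rw [adj_port]; exact Or.inr (Or.inr rfl)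
  have h2 := φ.map_adj_iff.2 h1
  rw [hP, hP, adj_port] at h2
  rcases h2 with h2 | h2 | h2
  · simp only [Prod.mk.injEq] at h2
    exact absurd h2.2.symm (pt_ne d c _ (by omega) i)
  · simp only [Prod.mk.injEq] at h2
    exact absurd h2.2.symm (pt_ne d c _ (by omega) i)
  · simp only [Prod.mk.injEq] at h2
    exact h2.1

lemma aut_pt [Fintype G] (s : Fin d → G) (φ : X s ≃g X s) (k : ℕ) (hk : k ≤ d) :
    ∀ g c, φ (g, pt d c k) = (pr s φ g, pt d c k) := by
  induction k using Nat.strong_induction_on with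
  | _ k ih =>
    intro g c
    rcases Nat.lt_or_ge k 1 with h0 | h0
    · have : k = 0 := by omega
      rw [this, pt_zero]
      exact aut_gadget' s φ g _
    rcases Nat.lt_or_ge k 2 with h0' | h0'
    · have hk1 : k = 1 := by omega
      have hd : 0 < d := by omega
      have hpt : pt d c k = Sum.inr (c, ⟨0, hd⟩) := by
        rw [hk1]
        exact pt_succ c ⟨0, hd⟩
      rw [hpt]
      obtain ⟨h, ⟨c', j⟩, hφ⟩ := aut_port_type s φ g c ⟨0, hd⟩
      have hadj : (X s).Adj (g, Sum.inl (term c false)) (g, Sum.inr (c, ⟨0, hd⟩)) :=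
        ⟨rfl, Or.inl ⟨rfl, rfl⟩⟩
      have h2 := φ.map_adj_iff.2 hadj
      rw [aut_gadget', hφ, adj_gadget_port] at h2
      rw [hφ]
      rcases h2 with ⟨rfl, ⟨h3, h4⟩ | ⟨h3, h4⟩⟩
      · obtain ⟨rfl, -⟩ := term_inj _ _ _ _ h3
        have : j = ⟨0, hd⟩ := by ext; exact h4
        rw [this]
      · have := (term_inj _ _ _ _ h3).2
        simp at this
    · obtain ⟨i, hi⟩ : ∃ i : Fin d, k = i.val + 2 := ⟨⟨k - 2, by omega⟩, by simp only; omega⟩
      have hid := i.isLt
      have hP1 : ∀ g c, φ (g, Sum.inr (c, i)) = (pr s φ g, Sum.inr (c, i)) := by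
        intro g c
        have := ih (i.val + 1) (by omega) (by omega) g c
        rwa [pt_succ] at this
      have hP0 := ih i.val (by omega) (by omega) g c
      have hadj : (X s).Adj (g, Sum.inr (c, i)) (g, pt d c k) := by
        rw [adj_port, hi]
        exact Or.inr (Or.inl rfl)
      have h2 := φ.map_adj_iff.2 hadj
      rw [hP1, adj_port] at h2
      rcases h2 with h2 | h2 | h2
      · rw [← hP0] at h2
        have h3 := φ.injective h2
        simp only [Prod.mk.injEq, true_and] at h3
        have := pt_inj _ _ _ (by omega) (by omega) h3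
        omega
      · rw [h2, hi]
      · rw [← aut_ext s φ i hP1, ← hP1] at h2
        have h3 := φ.injective h2
        simp only [Prod.mk.injEq] at h3
        exact absurd h3.2 (pt_ne d c k (by omega) i)

lemma aut_port [Fintype G] (s : Fin d → G) (φ : X s ≃g X s) (g : G) (c : Bool) (i : Fin d) :
    φ (g, Sum.inr (c, i)) = (pr s φ g, Sum.inr (c, i)) := by
  have := aut_pt s φ (i.val + 1) (by have := i.isLt; omega) g c
  rwa [pt_succ] at this

lemma pr_mul [Fintype G] (s : Fin d → G) (hs : Subgroup.closure (Set.range s) = ⊤)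
    (φ : X s ≃g X s) (g h : G) : pr s φ (g * h) = pr s φ g * h := by
  have key : h ∈ Subgroup.closure (Set.range s) := by rw [hs]; exact Subgroup.mem_top h
  induction key using Subgroup.closure_induction generalizing g with
  | mem x hx =>
    obtain ⟨i, rfl⟩ := hx
    have := aut_ext s φ i (fun g c => aut_port s φ g c i) g false
    simpa [ext] using this
  | one => simp
  | mul x y _ _ hx hy => rw [← mul_assoc, hy, hx, mul_assoc]
  | inv x _ hx =>
    have := hx (g * x⁻¹)
    rw [inv_mul_cancel_right] at this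
    rw [this, mul_inv_cancel_right]

lemma aut_eq [Fintype G] (s : Fin d → G) (hs : Subgroup.closure (Set.range s) = ⊤)
    (φ : X s ≃g X s) (g : G) (l : Lab d) : φ (g, l) = (pr s φ 1 * g, l) := by
  have h1 : pr s φ g = pr s φ 1 * g := by
    have := pr_mul s hs φ 1 g
    rwa [one_mul] at this
  rw [← h1]
  obtain x | ⟨c, i⟩ := l
  · exact aut_gadget' s φ g x
  · exact aut_port s φ g c i

/-- Left multiplication as an automorphism of the graph. -/
def lm (s : Fin d → G) (a : G) : X s ≃g X s where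
  toEquiv := (Equiv.mulLeft a).prodCongr (Equiv.refl _)
  map_rel_iff' := by
    rintro ⟨g, x | ⟨c, i⟩⟩ ⟨h, y | ⟨c', j⟩⟩
    · change (a * g = a * h ∧ gadj x y) ↔ (g = h ∧ gadj x y)
      rw [mul_right_inj]
    · change (a * g = a * h ∧ _) ↔ (g = h ∧ _)
      rw [mul_right_inj]
    · change (a * g = a * h ∧ _) ↔ (g = h ∧ _)
      rw [mul_right_inj]
    · change ((a * g = a * h ∧ c = c' ∧ (i.val + 1 = j.val ∨ j.val + 1 = i.val)) ∨
        (i = j ∧ ((c = false ∧ c' = true ∧ a * h = a * g * s i) ∨
          (c = true ∧ c' = false ∧ a * g = a * h * s i)))) ↔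
        ((g = h ∧ c = c' ∧ (i.val + 1 = j.val ∨ j.val + 1 = i.val)) ∨
        (i = j ∧ ((c = false ∧ c' = true ∧ h = g * s i) ∨ (c = true ∧ c' = false ∧ g = h * s i))))
      rw [mul_assoc, mul_assoc, mul_right_inj, mul_right_inj, mul_right_inj]

lemma lm_apply (s : Fin d → G) (a g : G) (l : Lab d) : lm s a (g, l) = (a * g, l) := rfl

/-- The group is isomorphic to the automorphism group of the graph. -/
noncomputable def autEquiv [Fintype G] (s : Fin d → G) (hs : Subgroup.closure (Set.range s) = ⊤) :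
    G ≃* (X s ≃g X s) :=
  MulEquiv.ofBijective
    { toFun := lm s
      map_one' := by
        ext1 ⟨g, l⟩
        rw [lm_apply, one_mul]
        rfl
      map_mul' := by
        intro a b
        ext1 ⟨g, l⟩
        rw [lm_apply, mul_assoc]
        rfl : G →* (X s ≃g X s) }
    (by
      constructor
      · intro a b hab
        have h1 : lm s a (1, Sum.inl 0) = lm s b (1, Sum.inl 0) := by
          change lm s a = lm s b at hab
          rw [hab]
        rw [lm_apply, lm_apply] at h1
        simpa using h1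
      · intro φ
        refine ⟨pr s φ 1, ?_⟩
        ext1 ⟨g, l⟩
        change lm s (pr s φ 1) (g, l) = _
        rw [lm_apply, aut_eq s hs φ g l])

end Pool.Agent.NH69.TV
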